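import Pool.Agent.MP_829a8f_lc.h20.Gauge

/-!
Shelah's conjecture for strong structures on fields.
-/

namespace Pool.Agent.MP_829a8f_lc.H20

open H33 Filter

section

variable {F : Type} [Field F] {S : NS F}

/-- Two valuation rings of a finite family whose intersection is definable up to scaling are
never independent. -/
theorem no_indep (hS : Strong S) [Infinite F] {ι : Type} [Finite ι] (O : ι → ValuationSubring F)
    (hO : ∀ i, O i ≠ ⊤) {D : Set F} (hD : S.U D) {a : F} (ha : a ≠ 0)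
    (h1 : ∀ x, (∀ i, x ∈ O i) → a * x ∈ D) (h2 : ∀ x ∈ D, ∀ i, x ∈ O i) {l : ℕ} {ζ : F}
    (hζ : ζ ^ l = 1) (hζ1 : ζ ≠ 1) (hl : ∀ i, (l : F) ∉ (O i).nonunits)
    {i j : ι} (hij : ∀ z, ∃ w ∈ O i, z - w ∈ O j) : False := by
  obtain ⟨π, hπ0, hπ⟩ : ∃ π : F, π ≠ 0 ∧ ∀ i, π ∈ (O i).nonunits := by
    choose x hx using fun i => exists_not_mem (hO i)
    obtain ⟨w, k1, -, k2⟩ := Gauge.exists_den O (Set.finite_range x)
    exact ⟨w, k1, fun i => nu_of_mul (hx i) (mul_comm w _ ▸ k2 _ ⟨i, rfl⟩ i)⟩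
  have hb0 := mul_ne_zero ha hπ0
  have hb : ∀ i, a * π ∈ (O i).nonunits := fun i =>
    nu_mul' (h2 _ (by simpa using h1 1 fun i => one_mem _) i) (hπ i)
  have hH := HH.mg hb0 hb
  have hTH : ∀ x ∈ {x | ∃ y ∈ HH O (a * π), x = y ^ l}, x ∈ HH O (a * π) := by
    rintro _ ⟨y, hy, rfl⟩
    exact pow_mem (S := (⟨⟨_, hH.mul⟩, hH.one⟩ : Submonoid F)) hy l
  have l0 := (not_nu.1 (hl i)).1
  obtain ⟨V, -, hV, c, hc0, hc⟩ := Dt.gauge
    { O := O, D := D, a := a, π := π, l := l, T := {x | ∃ y ∈ HH O (a * π), x = y ^ l}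
      P := {x | ∃ y, (y - 1) / π ∈ D ∧ x = y ^ l}
      a0 := ha, π0 := hπ0, h1 := h1, h2 := h2, hπ := hπ, hl := hl, l0 := l0
      hT := ⟨⟨1, hH.one, (one_pow l).symm⟩,
        fun ⟨x, hx, e⟩ ⟨y, hy, e'⟩ => ⟨x * y, hH.mul hx hy, by rw [e, e', mul_pow]⟩,
        fun ⟨x, hx, e⟩ => ⟨x⁻¹, hH.inv hx, by rw [e, inv_pow]⟩, fun h => (hTH _ h).1⟩
      TH := hTH
      pw := fun y hy => ⟨y, hy, rfl⟩
      dD := hD
      dP := NS.ex1 (P := fun v y => (y - 1) / π ∈ D ∧ v () = y ^ l) (S.and (hD.app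
        (((NS.proj _).sub (NS.const _)).div (NS.const _))) (NS.eq (NS.proj _) ((NS.proj _).pow l)))
      hP := fun x hx => ⟨fun ⟨y, hy, e⟩ => ⟨y, HH.root (fun e => l0 (by simp [e])) hl
        (fun i => by simpa [hπ0] using nu_mul' (h2 _ hy i) (hπ i)) (e ▸ hx), e⟩,
        fun ⟨y, hy, e⟩ => ⟨y, by
          convert h1 _ hy.2 using 1
          field_simp, e⟩⟩ } hS hπ0 fun h =>
    not_nu_of_sub one_nu (HH.nu hb0 hb (hTH _ h) i) (hπ i)
  have k1 : ∀ i, ∀ x ∈ V, c / (a * π) * x ∈ O i := fun i x hx => by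
    convert (hTH _ (hc x hx)).2 i using 1
    ring
  obtain ⟨z, k2, k3, k4⟩ := hV.exists_root (hO i) (hO j) (div_ne_zero hc0 hb0) (k1 i) (k1 j) hij
    hζ c⁻¹
  obtain ⟨y, hy, e⟩ := hc _ k2
  rw [mul_inv_cancel_left₀ hc0, add_sub_cancel] at e
  have hH1 := HH.nu hb0 hb hy
  obtain ⟨k5, k6⟩ := not_nu.1 (not_nu_of_sub one_nu (hH1 i))
  have k7 : z / y = 1 := eq_one_of_nu (hl i) (by
    convert nu_mul (sub_mem k3 (hH1 i)) k6 using 1
    field_simp
    ring) (by rw [div_pow, e, div_self (pow_ne_zero _ k5)])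
  rw [div_eq_one_iff_eq k5] at k7
  exact hζ1 (eq_one_of_nu (hl j) (by simpa [k7] using sub_mem (hH1 j) k4) hζ)

/-- The topology of the group of powers is a definable V-topology. -/
theorem exists_vgauge (hS : Strong S) [Infinite F] {l : ℕ} {q ζ : F} (hq0 : q ≠ 0)
    (hq : q ∉ PW F l) (hζ : ζ ^ l = 1) (hζ1 : ζ ≠ 1) (hl : (l : F) ≠ 0) : ∃ V, S.U V ∧ Gauge V ∧
      (∃ c : F, c ≠ 0 ∧ ∀ x ∈ V, 1 + c * x ∈ PW F l) ∧
      ∃ g : F, g ≠ 0 ∧ ∀ x, x ∈ V ∨ g * x⁻¹ ∈ V := by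
  obtain ⟨V, h1, hV, h2⟩ := Dt.gauge (ι := Empty)
    { O := Empty.elim, D := Set.univ, a := 1, π := 1, l := l, T := PW F l, P := PW F l
      a0 := one_ne_zero, π0 := one_ne_zero, h1 := fun _ _ => trivial, h2 := fun _ _ i => i.elim
      hπ := fun i => i.elim, hl := fun i => i.elim, l0 := hl, hT := mg_PW l
      TH := fun _ h => ⟨h.1, fun i => i.elim⟩
      pw := fun y hy => ⟨pow_ne_zero _ hy.1, y, rfl⟩
      dD := NS.tru, dP := U_PW S l, hP := fun _ _ => Iff.rfl } hS hq0 hq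
  refine ⟨V, h1, hV, h2, ?_⟩
  obtain ⟨u, hu⟩ := hV.exists_uf
  obtain ⟨ι, _, O, hO⟩ := hV.exists_places (u := u)
  refine (hV.dichotomy hu hO).resolve_right fun hI => ?_
  have := Infinite.of_injective _ (H33.dg u).injective
  have h3 : H33.cl u id ≠ 0 := cl_ne.2 ((hu 0).mono fun t h => h.1)
  have h4 := (hV.small_iff hu hO (H33.cl u id)).1 fun h =>
    (hu h).mono fun t ht => (mul_comm t h ▸ ht.2 : h * t ∈ V)
  have h5 : ∀ x, (∀ i, x ∈ O i) → H33.cl u id * x ∈ st u V := fun x hx => by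
    have h5 := (hV.small_iff hu hO _).2 (fun i => nu_mul (h4 i) (hx i)) 1
    rwa [map_one, one_mul] at h5
  have h6 : ∀ x ∈ st u V, ∀ i, x ∈ O i := fun x hx => (hO.mem _).1 (hV.st_mem hx)
  obtain ⟨i, j, hij⟩ := hI.indep
  refine no_indep (hS.up u) O (fun i h => not_nu.2 ⟨h3, h ▸ trivial⟩ (h4 i)) (h1.up u) h3
    h5 h6 (ζ := H33.dg u ζ)
    (by rw [← map_pow, hζ, map_one]) (fun h => hζ1 ((H33.dg u).injective (h.trans (map_one _).symm)))
    (fun i => ?_) hij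
  rw [← map_natCast (H33.dg u)]
  exact not_nu.2 ⟨(map_ne_zero _).2 hl, map_inv₀ (H33.dg u) _ ▸ (hO.mem _).1 (hV.dg_mem _) i⟩

end

open IsLocalRing Polynomial Finset IntermediateField

variable {K L : Type} [Field K] [Field L]

theorem no_incomp {S : NS L} (hS : Strong S) (O : Bool → ValuationSubring L) (hO : ∀ b, ¬ O (!b) ≤ O b)
    (R : Bool → Set L) (hR : ∀ b, S.U (R b)) {a : L} (ha : a ≠ 0) (h1 : ∀ b, ∀ x ∈ O b, x ∈ R b)
    (h2 : ∀ b, ∀ x ∈ R b, a * x ∈ O b) (h3 : ∀ W, (∀ b, O b ≤ W) → a⁻¹ ∈ W) {l : ℕ} {ζ : L}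
    (hζ : ζ ^ l = 1) (hζ1 : ζ ≠ 1) (hl : ∀ b, (l : L) ∉ (O b).nonunits) : False := by
  let W := sumV (O true) (O false)
  have hW : ∀ b, O b ≤ W := Bool.forall_bool.2
    ⟨fun x hx => ⟨0, zero_mem _, by simpa using hx⟩, fun x hx => ⟨x, hx, by simp⟩⟩
  have hl0 : l ≠ 0 := fun h => hl true (by simp [h])
  have h4 : ∀ b, ∀ x ∈ R b, x ∈ W := fun b x hx => by
    simpa [ha] using mul_mem (h3 W hW) (hW b (h2 b x hx))
  have hWd : S.U W := NS.congr (NS.ex1 (P := fun v y => y ∈ R true ∧ v () - y ∈ R false)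
    (S.and ((hR _).app (NS.proj _)) ((hR _).app ((NS.proj _).sub (NS.proj _))))) fun v =>
      ⟨fun ⟨w, k1, k2⟩ => ⟨w, h1 _ _ k1, h1 _ _ k2⟩, fun ⟨w, k1, k2⟩ => by
        simpa using add_mem (h4 _ _ k2) (h4 _ _ k1)⟩
  obtain ⟨S', hs, hS'⟩ := exists_res hS hWd
  have haW : a ∈ W := by simpa using hW _ (h2 true 1 (h1 _ _ (one_mem _)))
  have hζW : ζ ∈ W := mem_of_pow hl0 (hζ ▸ one_mem W)
  have hlW : (l : L) ∉ W.nonunits :=
    mt (ValuationSubring.nonunits_le_nonunits.2 (hW true) ·) (hl true)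
  have h5 : ∀ b, resV W (O b) (hW b) ≠ ⊤ := fun b e =>
    hO b fun x hx => (mem_resV (h := hW b) (x := ⟨x, hW _ hx⟩)).1 (by rw [e]; trivial)
  have := infinite_of_ne_top (h5 true)
  refine no_indep hs (fun b => resV W (O b) (hW b)) h5 (hS' {x | ∀ b, x / a ∈ R b}
    (NS.all fun b => (hR b).app ((NS.proj _).div (NS.const _)))) (a := residue W ⟨a, haW⟩)
    (res_ne.2 (not_nu.2 ⟨ha, h3 W hW⟩)) (fun z hz => ?_) ?_ (ζ := residue W ⟨ζ, hζW⟩) ?_
    (fun e => ?_) (fun b => ?_) (l := l) (i := true) (j := false) fun z => ?_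
  · obtain ⟨x, rfl⟩ := residue_surjective z
    exact ⟨⟨a, haW⟩ * x, fun b => by simpa [ha] using h1 b _ (mem_resV.1 (hz b)), map_mul _ _ _⟩
  · rintro _ ⟨x, hx, rfl⟩ b
    exact mem_resV.2 (by simpa [mul_div_cancel₀ _ ha] using h2 b _ (hx b))
  · rw [← map_pow, ← map_one (residue W)]
    exact congrArg _ (Subtype.ext hζ)
  · exact hζ1 (eq_one_of_nu hlW (res_eq.1 (e.trans (map_one _).symm)) hζ)
  · obtain ⟨k1, k2⟩ := not_nu.1 (hl b)
    rw [← map_natCast (residue W)]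
    refine not_nu.2 ⟨res_ne.2 (by simpa using hlW), ⟨_, hW b k2⟩, k2,
      eq_inv_of_mul_eq_one_left ?_⟩
    rw [← map_mul, ← map_one (residue W)]
    exact congrArg _ (Subtype.ext (by simpa using inv_mul_cancel₀ k1))
  · obtain ⟨x, rfl⟩ := residue_surjective z
    obtain ⟨w, k1, k2⟩ := x.2
    exact ⟨residue W ⟨w, hW _ k1⟩, mem_resV.2 k1, by rw [← map_sub]; exact mem_resV.2 k2⟩

/-- Uniqueness of the extension. -/
theorem uniq_ext [Algebra K L] {O : ValuationSubring K} {S : NS K} (hS : Strong S)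
    [FiniteDimensional K L] {D : Set K} (hD : S.U D) {a : K} (ha : a ≠ 0)
    (h1 : ∀ x ∈ O, a * x ∈ D) (h2 : ∀ x ∈ D, x ∈ O) (rad : ∀ y ∈ O.nonunits, ∃ k, y ^ k / a ∈ O)
    {l : ℕ} {ζ : L} (hζ : ζ ^ l = 1) (hζ1 : ζ ≠ 1) (hl : (l : K) ∉ O.nonunits)
    {W₁ W₂ : ValuationSubring L}
    (k₁ : W₁.comap (algebraMap K L) = O) (k₂ : W₂.comap (algebraMap K L) = O) : W₁ = W₂ := by
  classical
  by_contra hne
  obtain ⟨S', hs, hS', -⟩ := exists_ext hS L
  let ι := {W : ValuationSubring L // W.comap (algebraMap K L) = O}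
  have : Finite ι := finite_over
  cases nonempty_fintype ι
  have ha' : algebraMap K L a ≠ 0 := (_root_.map_ne_zero _).2 ha
  have haO : a ∈ O := by simpa using h2 _ (h1 1 (one_mem O))
  generalize hA : algebraMap K L a = A at ha'
  have hAW : ∀ i : ι, A ∈ i.1 := fun i => hA ▸ (over_mem i.2).2 haO
  have hinc : ∀ i j : ι, i ≠ j → ¬ i.1 ≤ j.1 := fun i j hij h =>
    hij (Subtype.ext (over_eq i.2 j.2 h))
  have hun : ∀ i j : ι, i ≠ j → ∀ W, i.1 ≤ W → j.1 ≤ W → A⁻¹ ∈ W := by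
    intro i j hij W hi hj
    obtain ⟨x, hx, hx'⟩ := SetLike.not_le_iff_exists.1 (hinc i j hij)
    obtain ⟨N, c, hc, w, hw, e, -⟩ := exists_pow j.2 (Algebra.IsIntegral.isIntegral x⁻¹)
      (j.1.inv_mem_nonunits_iff.2 (Or.inr hx'))
    obtain ⟨k, hk⟩ := rad c hc
    have h0 : x ≠ 0 := fun h => hx' (h ▸ zero_mem _)
    convert mul_mem (pow_mem (mul_mem (hj hw) (pow_mem (hi hx) N)) k)
      (hj ((over_mem j.2).2 hk)) using 1
    rw [map_div₀, map_pow, hA, mul_div_assoc', ← mul_pow, mul_right_comm, mul_comm w, ← e,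
      ← mul_pow, inv_mul_cancel₀ h0, one_pow, one_pow, one_div]
  let n := Module.finrank K L
  let E : Set L := {x | ∃ c : Fin n → L, (∀ i, c i ∈ algebraMap K L '' D) ∧
    (A * x) ^ n + ∑ i, c i * (A * x) ^ (i : ℕ) = 0}
  have hE : S'.U E := NS.ex' (P := fun v (c : Fin n → L) => (∀ i, c i ∈ algebraMap K L '' D) ∧
    (A * v ()) ^ n + ∑ i, c i * (A * v ()) ^ (i : ℕ) = 0) (S'.and
    (NS.all fun i => (hS' D hD).app (NS.proj _)) (NS.eq ((((NS.const _).mul (NS.proj _)).pow _).add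
      (NS.Fn.sum _ fun i => (NS.proj _).mul (((NS.const _).mul (NS.proj _)).pow _))) (NS.const _)))
  have hE1 : ∀ x, (∀ i : ι, x ∈ i.1) → x ∈ E := by
    intro x hx
    have hi : IsIntegral O x := by
      by_contra h
      obtain ⟨W, k, k'⟩ := exists_over h
      exact k' (hx ⟨W, k⟩)
    have hd : (minpoly O x).natDegree ≤ n := by
      rw [← (minpoly.monic hi).natDegree_map (algebraMap O K),
        ← minpoly.isIntegrallyClosed_eq_field_fractions' K hi]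
      exact minpoly.natDegree_le x
    let p := minpoly O x * X ^ (n - (minpoly O x).natDegree)
    have hp : p.Monic := (minpoly.monic hi).mul (monic_X_pow _)
    have hpd : p.natDegree = n := by
      rw [(minpoly.monic hi).natDegree_mul (monic_X_pow _), natDegree_X_pow]
      omega
    have h3 : aeval x p = 0 := by simp [p]
    rw [aeval_eq_sum_range, sum_range_succ, hp.coeff_natDegree, hpd, sum_range, one_smul] at h3
    refine ⟨fun i => algebraMap K L (a * (a ^ (n - i - 1) * p.coeff i)),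
      fun i => ⟨_, h1 _ (mul_mem (pow_mem haO _) (p.coeff i).2), rfl⟩, ?_⟩
    rw [← mul_zero (A ^ n), ← h3, mul_add, mul_sum, add_comm, mul_pow]
    congr 1
    refine sum_congr rfl fun i _ => ?_
    have e : A ^ n = A * A ^ (n - i - 1) * A ^ (i : ℕ) := by
      rw [← pow_succ', ← pow_add]
      congr 1
      omega
    beta_reduce
    rw [e, map_mul, map_mul, map_pow, hA, Algebra.smul_def,
      IsScalarTower.algebraMap_apply O K L, ValuationSubring.algebraMap_apply]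
    ring
  have hE2 : ∀ x ∈ E, ∀ i : ι, A * x ∈ i.1 := by
    rintro x ⟨c, hc, e⟩ j
    by_contra h
    generalize A * x = y at e h
    have h0 : y ≠ 0 := fun e => h (e ▸ zero_mem _)
    have h3 := j.1.inv_mem_nonunits_iff.2 (Or.inr h)
    have h4 : ∑ i : Fin n, c i * (y⁻¹ ^ (n - i - 1) * y⁻¹) = -1 := by
      refine mul_left_cancel₀ (pow_ne_zero n h0) ?_
      rw [mul_neg, mul_one, neg_eq_of_add_eq_zero_right e, mul_sum]
      refine sum_congr rfl fun i _ => ?_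
      have e : y ^ n = y ^ (n - i - 1) * y * y ^ (i : ℕ) := by
        rw [← pow_succ, ← pow_add]
        congr 1
        omega
      rw [e, inv_pow]
      field_simp
    refine one_nu (O := j.1) (neg_mem_iff.1 (h4 ▸ sum_mem fun i _ => nu_mul' ?_
      (nu_mul' (pow_mem (nu_le h3) _) h3)))
    obtain ⟨d, hd, e⟩ := hc i
    exact e ▸ (over_mem j.2).2 (h2 d hd)
  choose e he using fun J : Set ι => approx (fun i : ι => i.1) (fun _ => A) (fun _ => ha') hAW
    hinc (fun i j hij => hun i j hij _ le_sup_left le_sup_right)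
    (fun i => if i ∈ J then 1 else 0) fun i => by split_ifs <;> simp
  have he' : ∀ J (i : ι), (e J - if i ∈ J then 1 else 0) / A ∈ i.1.nonunits := fun J i => by
    rw [ValuationSubring.mem_nonunits_iff, map_div₀, div_lt_one₀ (by simpa [zero_lt_iff])]
    exact he J i
  have he'' : ∀ J (i : ι), (e J - if i ∈ J then 1 else 0) ∈ i.1.nonunits := fun J i => by
    simpa [ha'] using nu_mul (he' J i) (hAW i)
  let W : Bool → ι := fun b => cond b ⟨W₁, k₁⟩ ⟨W₂, k₂⟩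
  have hW : ∀ b, W (!b) ≠ W b := Bool.forall_bool.2
    ⟨fun h => hne (congrArg Subtype.val h), fun h => hne (congrArg Subtype.val h).symm⟩
  refine no_incomp hs (fun b => (W b).1) (fun b => hinc _ _ (hW b))
    (fun b => {x | ∃ J : {J : Set ι // W b ∉ J}, 1 + e J * x ≠ 0 ∧ x / (1 + e J * x) ∈ E})
    (fun b => NS.any fun J => S'.and (S'.not (NS.eq ((NS.const _).add
      ((NS.const _).mul (NS.proj _))) (NS.const _))) (hE.app ((NS.proj _).div
      ((NS.const _).add ((NS.const _).mul (NS.proj _)))))) ha' (fun b x hx => ?_) ?_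
    (fun V hV => hun _ _ (hW true) V (hV _) (hV _)) hζ hζ1
    (fun b => by rwa [← map_natCast (algebraMap K L), over_nu (W b).2])
  · have h3 : ∀ i : ι, x ∈ i.1 → 1 + e {i | x ∉ i.1} * x ∉ i.1.nonunits := fun i hi =>
      not_nu_of_sub one_nu (by simpa [hi] using nu_mul (he'' {i | x ∉ i.1} i) hi)
    refine ⟨⟨{i | x ∉ i.1}, not_not.2 hx⟩, (not_nu.1 (h3 _ hx)).1, hE1 _ fun i => ?_⟩
    by_cases hi : x ∈ i.1
    · exact div_eq_mul_inv x _ ▸ mul_mem hi (not_nu.1 (h3 i hi)).2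
    · have h0 : x ≠ 0 := fun e => hi (e ▸ zero_mem _)
      have h4 := (not_nu.1 (not_nu_of_sub (y := x⁻¹ + e {i | x ∉ i.1}) one_nu (by
        simpa [hi, add_sub_assoc] using add_mem (i.1.inv_mem_nonunits_iff.2 (Or.inr hi))
          (he'' {i | x ∉ i.1} i)))).2
      convert h4 using 1
      rw [← inv_div]
      congr 1
      field_simp
  · rintro b x ⟨⟨J, hJ⟩, h3, h4⟩
    have h5 := hE2 _ h4 (W b)
    have h6 := nu_mul' h5 (he' J (W b))
    rw [if_neg hJ, sub_zero] at h6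
    obtain ⟨h7, h8⟩ := not_nu.1 (not_nu_of_sub (y := 1 - A * (x / (1 + e J * x)) * (e J / A))
      one_nu (by simpa using neg_mem h6))
    convert mul_mem h5 h8 using 1
    rw [eq_mul_inv_iff_mul_eq₀ h7]
    simp only [mul_comm _ x] at h3 ⊢
    field_simp
    ring

/-- A proper group of powers gives a valuation ring that is definable up to scaling. -/
theorem exists_sandwich {S : NS K} (hS : Strong S) (L : Type) [Field L] [Algebra K L]
    [FiniteDimensional K L] [Infinite L] {l : ℕ} {q ζ : L} (hq0 : q ≠ 0) (hq : q ∉ PW L l)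
    (hζ : ζ ^ l = 1) (hζ1 : ζ ≠ 1) (hl : (l : L) ≠ 0) (hn : -1 ∈ PW L l) :
    ∃ (O : ValuationSubring K) (D : Set K) (π : K), S.U D ∧ π ≠ 0 ∧ π ∈ O.nonunits ∧
      (∀ x ∈ O, π * x ∈ D) ∧ ∀ x ∈ D, x ∈ O := by
  obtain ⟨S', hs, -, hS'⟩ := exists_ext hS L
  obtain ⟨V, h1, hV, h2, h3⟩ := exists_vgauge hs hq0 hq hζ hζ1 hl
  obtain ⟨W, h4, h5, t, ht, h6⟩ := hV.exists_val h3 (mg_PW l) h2 (Or.inl hn) hq0 hq
  obtain ⟨x, hx⟩ := exists_not_mem h4
  have h0 : x⁻¹ ≠ 0 := inv_ne_zero fun e => hx (e ▸ zero_mem W)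
  have h7 := W.inv_mem_nonunits_iff.2 (Or.inr hx)
  have h8 : t ∈ W := h5 _ (by simpa using h6 1 (one_mem W))
  obtain ⟨N, c, hc, w, hw, e, hw'⟩ := exists_pow (K := K) rfl
    (Algebra.IsIntegral.isIntegral (t * x⁻¹)) (nu_mul' h8 h7)
  have h9 := e ▸ pow_ne_zero N (mul_ne_zero ht h0)
  refine ⟨_, _, c, hS' V h1, fun h => h9 (by simp [h]), hc, fun y hy => ?_,
    fun y hy => h5 _ hy⟩
  cases N with
  | zero => exact absurd (e ▸ nu_mul ((over_nu rfl).2 hc) hw) (by simpa using one_nu)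
  | succ N =>
    have := h6 _ (mul_mem (mul_mem (mul_mem (pow_mem (mul_mem h8 (nu_le h7)) N) (nu_le h7)) hw') hy)
    rw [Set.mem_preimage, map_mul, (eq_mul_inv_iff_mul_eq₀ (right_ne_zero_of_mul h9)).2 e.symm]
    convert this using 1
    ring

/-- A valuation ring that is definable up to scaling has a henselian coarsening. -/
theorem henselian_of_sandwich {S : NS K} (hS : Strong S)
    {O : ValuationSubring K} {D : Set K} {π : K} (hD : S.U D) (h0 : π ≠ 0) (h1 : π ∈ O.nonunits)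
    (h2 : ∀ x ∈ O, π * x ∈ D) (h3 : ∀ x ∈ D, x ∈ O) :
    ∃ R : ValuationSubring K, R ≠ ⊤ ∧ HenselianLocalRing R := by
  have hπ := nu_le h1
  have k1 : O ≤ coarse O hπ := fun x hx k => mul_mem (pow_mem hx k) hπ
  have k2 : π⁻¹ ∉ coarse O hπ := fun h => not_nu.2 ⟨h0, by simpa [pow_two, h0] using h 2⟩ h1
  have k3 : coarse O hπ ≠ ⊤ := fun h => k2 (h ▸ trivial)
  have k4 : ∀ y ∈ (coarse O hπ).nonunits, ∃ k, y ^ k / (π * π) ∈ coarse O hπ := by
    intro y hy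
    rcases (coarse O hπ).mem_nonunits_iff_or.1 hy with h | h
    · exact ⟨1, by simp [h]⟩
    · obtain ⟨k, hk⟩ := not_forall.1 h
      have h4 : y ^ k / π ∈ O := by
        simpa [div_eq_inv_mul] using (O.mem_or_inv_mem _).resolve_left hk
      exact ⟨k + k, k1 (by rw [pow_add, ← div_mul_div_comm]; exact mul_mem h4 h4)⟩
  have k5 : ∀ x ∈ coarse O hπ, π * π * x ∈ D := fun x hx => by
    rw [mul_assoc]
    exact h2 _ (by simpa [mul_comm] using hx 1)
  generalize coarse O hπ = R at *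
  obtain ⟨r, hr, k6⟩ : ∃ r : ℕ, r.Prime ∧ (r : K) ∉ R.nonunits := by
    by_cases h : ((2 : ℕ) : K) ∈ R.nonunits
    · exact ⟨3, Nat.prime_three, fun h' => one_nu (O := R) (by
        convert sub_mem h' h using 1
        norm_num)⟩
    · exact ⟨2, Nat.prime_two, h⟩
  refine ⟨R, k3, henselian_of_uniq k3 fun x _ W W' hW hW' h => ?_⟩
  have := NeZero.mk (not_nu.1 k6).1
  obtain ⟨ζ, hζ⟩ := HasEnoughRootsOfUnity.exists_primitiveRoot (AlgebraicClosure K) r
  have : FiniteDimensional K (adjoin K {x, ζ}) :=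
    finiteDimensional_adjoin fun z _ => Algebra.IsIntegral.isIntegral z
  have h4 := uniq_ext hS hD (mul_ne_zero h0 h0) k5 (fun x hx => k1 (h3 x hx)) k4
    (ζ := (⟨ζ, subset_adjoin K _ (Or.inr rfl)⟩ : adjoin K {x, ζ})) (Subtype.ext hζ.pow_eq_one)
    (fun e => hζ.ne_one hr.one_lt (congrArg Subtype.val e)) k6
    (W₁ := W.comap (algebraMap _ _)) (W₂ := W'.comap (algebraMap _ _)) hW hW'
  exact (SetLike.ext_iff.1 h4 ⟨x, subset_adjoin K _ (Or.inl rfl)⟩).1 h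

theorem shelah {S : NS K} (hS : Strong S) :
    Finite K ∨ IsSepClosed K ∨ Module.finrank K (AlgebraicClosure K) = 2 ∨
      ∃ R : ValuationSubring K, R ≠ ⊤ ∧ HenselianLocalRing R := by
  refine or_iff_not_imp_left.2 fun h1 => or_iff_not_imp_left.2 fun h2 =>
    or_iff_not_imp_left.2 fun h3 => ?_
  have := not_finite_iff_infinite.1 h1
  obtain ⟨L, _, _, _, _, ⟨p, hp, ⟨h4, c, hc⟩ | ⟨h4, ζ, q, hζ, hζ1, h5, hq⟩⟩, i, hi⟩ :=
    exists_obst' K h2 h3
  all_goals have := Infinite.of_injective _ (algebraMap K L).injective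
  · obtain ⟨S, -⟩ := H33.exists_ext S L
    exact absurd (as_closed S hp h4 c) (not_exists.2 hc)
  obtain ⟨O, D, π, k1, k2, k3, k4, k5⟩ := exists_sandwich hS L h5 (fun h => h.2.elim hq) hζ hζ1 h4
    ⟨neg_ne_zero.2 one_ne_zero, by
      rcases hp.eq_two_or_odd' with rfl | e
      exacts [⟨i, hi.symm⟩, ⟨-1, e.neg_one_pow.symm⟩]⟩
  exact henselian_of_sandwich hS k1 k2 k3 k4 k5

end Pool.Agent.MP_829a8f_lc.H20
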