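import Pool.Agent.MP_829a8f_lc.h20.Defs
import Pool.Agent.MP_829a8f_lc.h20.Main

/-!
The structure of definable sets of a strongly dependent field.
-/

namespace Pool.Agent.MP_829a8f_lc.H20

open H33 Filter FirstOrder FirstOrder.Language FirstOrder.Ring

variable {K : Type} [Field K] [CompatibleRing K] (h : StronglyDependent K)
include h

/-- Compactness. -/
lemma fin_strong (α : Type) [Finite α] (β : ℕ → Type) [∀ k, Finite (β k)]
    (P : ∀ k, (α ⊕ β k → K) → Prop) (hP : ∀ k, Df (P k)) : ∃ n : ℕ, ¬ ∃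
      (a : ∀ k : Fin n, Fin n → β k → K) (x : (Fin n → Fin n) → α → K),
      ∀ η (k j : Fin n), P k (Sum.elim (x η) (a k j)) ↔ j = η k := by
  by_contra hc
  push Not at hc
  choose a x hc using fun n => hc (n + 1)
  choose A _ hA using fun k => Set.definable_iff_finitely_definable.1 (hP k)
  choose φ hφ using fun k => Set.definable_iff_exists_formula_sum.1 (hA k)
  obtain ⟨m, ⟨e⟩⟩ := Finite.exists_equiv_fin α
  choose r f using fun k => Finite.exists_equiv_fin ((A k : Set K) ⊕ β k)
  replace f := fun k => (f k).some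
  let a' : ∀ k, ℕ → ℕ → β k → K := fun k j n =>
    if h : k < n + 1 then a n ⟨k, h⟩ (Fin.ofNat _ j) else 0
  refine h ((hyperfilter ℕ : Filter ℕ).Product fun _ => K) (elementarilyEquivalent_iff.2 fun ψ =>
    ((Ultraproduct.sentence_realize ψ).trans eventually_const).symm) ⟨m, r, fun k => (φ k).relabel
      (Sum.elim (fun c => Sum.inr (f k (Sum.inl c)))
        (Sum.elim (fun c => Sum.inl (e c)) fun c => Sum.inr (f k (Sum.inr c)))),
    fun k j i => ((fun n => Sum.elim Subtype.val (a' k j n) ((f k).symm i) : ℕ → K) :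
      (hyperfilter ℕ : Filter ℕ).Product fun _ => K),
    fun η i => ((fun n => x n (fun k => Fin.ofNat _ (η k)) (e.symm i) : ℕ → K) :
      (hyperfilter ℕ : Filter ℕ).Product fun _ => K), fun η k j => ?_⟩
  rw [Formula.realize_relabel]
  refine (iff_of_eq (congrArg _ ?_)).trans ((Ultraproduct.realize_formula_cast (M := fun _ => K) (φ k)
    (Sum.elim (fun c _ => c.1) (Sum.elim (fun c n => x n (fun k => Fin.ofNat _ (η k)) c)
      fun c n => a' k j n c))).trans ((eventually_congr ?_).trans eventually_const))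
  · funext c
    rcases c with c | c | c <;> exact congrArg (Quotient.mk _) (funext fun n => by simp)
  filter_upwards [Nat.hyperfilter_le_atTop (eventually_ge_atTop (k + j + η k))] with n hn
  have h1 := (Set.ext_iff.1 (hφ k) _).symm.trans
    (hc n (fun k => Fin.ofNat _ (η k)) ⟨k, by omega⟩ (Fin.ofNat _ j))
  refine (iff_of_eq (congrArg _ ?_)).trans (h1.trans ?_)
  · funext c
    rcases c with c | c | c <;> simp [a', show k ≤ n by omega]
  · rw [Fin.ext_iff, Fin.val_ofNat, Fin.val_ofNat, Nat.mod_eq_of_lt (by omega),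
      Nat.mod_eq_of_lt (by simp only; omega)]

/-- The structure of definable sets. -/
def nsS : NS K where
  D P := Df P
  re f _ hP := Set.Definable.preimage_comp f hP
  not hP := Set.Definable.compl hP
  and hP hQ := Df.and hP hQ
  ex {α β} _ _ P hP := Df.ex (P := fun v u => P (Sum.elim v u)) (Df.congr hP fun w =>
    iff_of_eq (congrArg P (Sum.elim_comp_inl_inr w)))
  add := Df.eq ((Fn.proj 0).add (Fn.proj 1)) (Fn.proj 2)
  mul := Df.eq ((Fn.proj 0).mul (Fn.proj 1)) (Fn.proj 2)
  cst c := Df.eq (Fn.proj 0) (Fn.const c)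
  nip {α β} _ _ P hP := by
    obtain ⟨n, hn⟩ := fin_strong h α (fun _ => β) (fun _ => P) fun _ => hP
    refine ⟨n * n, fun ⟨a, b, hab⟩ => hn ⟨fun k j => a (finProdFinEquiv (k, j)),
      fun η => b (Set.range fun k => finProdFinEquiv (k, η k)), fun η k j => (hab _ _).trans ?_⟩⟩
    simp [eq_comm]

omit [CompatibleRing K] in
theorem shelah_strong : Finite K ∨ IsSepClosed K ∨ Module.finrank K (AlgebraicClosure K) = 2 ∨
    ∃ R : ValuationSubring K, R ≠ ⊤ ∧ HenselianLocalRing R :=
  let _ := compatibleRingOfRing K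
  shelah (S := nsS h) (fin_strong h)

end Pool.Agent.MP_829a8f_lc.H20
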