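import Pool.Agent.MP_829a8f_lc.h33.Ext

-- ======== part 0: formerly Pool.Agent.MP_829a8f_lc.h20.Comb
section MrgPart0

/-!
Finite combinatorics: selection of columns, nets for families of bounded dimension, and almost
invariant finite measures for dilations.
-/

namespace Pool.Agent.MP_829a8f_lc.H20

open Finset Function

lemma resample {ι X : Type} [Fintype ι] [DecidableEq ι] [Fintype X] [DecidableEq X] (a : ι)
    (b : (ι → X) → Finset X) (hb : ∀ σ v, b (update σ a v) = b σ) :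
    #{σ : ι → X | σ a ∈ b σ} * Fintype.card X = ∑ σ, #(b σ) := by
  rw [← card_univ, ← card_product, ← card_sigma]
  refine card_nbij' (fun p => ⟨update p.1 a p.2, p.1 a⟩) (fun p => (update p.1 a p.2, p.1 a))
    (fun p hp => ?_) (fun p hp => ?_) (fun p _ => ?_) fun p _ => ?_
  · simpa [hb] using hp
  · simpa [hb] using hp
  · simp
  · simp

theorem select {n M W : ℕ} (hW : n ^ n * n * n * M < W)
    (bad : (Fin n → Fin W) → Fin n → Finset (Fin W)) (hb : ∀ p k, #(bad p k) ≤ M) :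
    ∃ σ : Fin n × Fin n → Fin W, ∀ (η : Fin n → Fin n) k j, j ≠ η k →
      σ (k, j) ∉ bad (fun k => σ (k, η k)) k := by
  classical
  by_contra hc
  push Not at hc
  let B : (Fin n → Fin n) × Fin n × Fin n → Finset (Fin n × Fin n → Fin W) := fun t =>
    {σ | t.2.2 ≠ t.1 t.2.1 ∧ σ t.2 ∈ bad (fun k => σ (k, t.1 k)) t.2.1}
  have h1 : ∀ t, #(B t) * W ≤ Fintype.card (Fin n × Fin n → Fin W) * M := by
    rintro ⟨η, k, j⟩
    by_cases h : j = η k
    · simp [B, h]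
    have := resample (k, j) (fun σ : Fin n × Fin n → Fin W => bad (fun k => σ (k, η k)) k)
      fun σ v => by
        congr 1
        funext k'
        exact update_of_ne (fun e => h (by cases e; rfl)) _ _
    rw [Fintype.card_fin] at this
    simp only [B, h, ne_eq, not_false_eq_true, true_and]
    rw [this]
    exact (sum_le_card_nsmul _ _ M fun σ _ => hb _ _).trans (by simp)
  have h2 : Fintype.card (Fin n × Fin n → Fin W) ≤ ∑ t, #(B t) := by
    refine le_trans (card_le_card fun σ _ => ?_) card_biUnion_le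
    obtain ⟨η, k, j, h⟩ := hc σ
    exact mem_biUnion.2 ⟨(η, k, j), mem_univ _, by simpa [B] using h⟩
  have h3 := (Nat.mul_le_mul_right W h2).trans
    ((sum_mul _ _ _).le.trans (sum_le_card_nsmul _ _ _ fun t _ => h1 t))
  have : Nonempty (Fin W) := ⟨⟨0, by omega⟩⟩
  have h4 : 0 < Fintype.card (Fin n × Fin n → Fin W) := Fintype.card_pos
  generalize Fintype.card (Fin n × Fin n → Fin W) = c at h3 h4
  simp only [card_univ, Fintype.card_prod, Fintype.card_pi, Fintype.card_fin, prod_const,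
    smul_eq_mul] at h3
  nlinarith

lemma exists_lt_two_pow (q d : ℕ) : ∃ r : ℕ, (d + 1) * (2 * (q * r) + 1) ^ d < 2 ^ r := by
  have h := (tendsto_pow_const_div_const_pow_of_one_lt d (one_lt_two (α := ℝ))).const_mul
    (((d + 1) * (2 * q + 1) ^ d : ℕ) : ℝ)
  rw [mul_zero] at h
  obtain ⟨r, h1, h2⟩ := ((h.eventually (gt_mem_nhds one_pos)).and
    (Filter.eventually_ge_atTop 1)).exists
  refine ⟨r, lt_of_le_of_lt (b := (d + 1) * (2 * q + 1) ^ d * r ^ d) ?_ ?_⟩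
  · rw [mul_assoc (d + 1), ← mul_pow]
    exact Nat.mul_le_mul_left _ (Nat.pow_le_pow_left (by nlinarith) _)
  · rw [← mul_div_assoc, div_lt_one (by positivity)] at h1
    exact_mod_cast h1

lemma fiber_le {N : ℕ} (τ : Finset (Fin N × Bool)) (A : Finset (Fin N → Bool))
    (h : ∀ σ ∈ A, ∀ i, (i, σ i) ∉ τ) : #A * 2 ^ #τ ≤ 2 ^ N := by
  have h1 : ∀ σ ∈ A, ∀ i e, (i, e) ∈ τ → e = !σ i := fun σ hσ i e he =>
    Bool.eq_not.2 fun k => h σ hσ i (k ▸ he)
  rw [← card_powerset, ← card_product, show 2 ^ N = #(univ : Finset (Fin N → Bool)) by simp]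
  refine card_le_card_of_injOn (fun p i => if (i, !p.1 i) ∈ p.2 then !p.1 i else p.1 i)
    (fun _ _ => mem_univ _) ?_
  rintro ⟨σ, t⟩ hp ⟨σ', t'⟩ hp' e
  simp only [coe_product, Set.mem_prod, mem_coe, mem_powerset] at hp hp'
  have h2 : σ = σ' := funext fun i => by
    by_cases k : ∃ e, (i, e) ∈ τ
    · obtain ⟨c, k⟩ := k
      exact Bool.not_inj ((h1 σ hp.1 i c k).symm.trans (h1 σ' hp'.1 i c k))
    · have := congrFun e i
      dsimp only at this
      rwa [if_neg fun h => k ⟨_, hp.2 h⟩, if_neg fun h => k ⟨_, hp'.2 h⟩] at this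
  subst h2
  have h3 : ∀ i, (i, !σ i) ∈ t ↔ (i, !σ i) ∈ t' := fun i => by
    have := congrFun e i
    by_cases k : (i, !σ i) ∈ t <;> by_cases k' : (i, !σ i) ∈ t' <;> simp_all
  refine Prod.ext rfl (Finset.ext fun ⟨i, c⟩ => ⟨fun k => ?_, fun k => ?_⟩)
  · obtain rfl := h1 σ hp.1 i c (hp.2 k)
    exact (h3 i).1 k
  · obtain rfl := h1 σ hp.1 i c (hp'.2 k)
    exact (h3 i).2 k

/-- Nets of bounded size. -/
theorem net (q d : ℕ) : ∃ N : ℕ, ∀ (Ω : Type) [Fintype Ω] [Nonempty Ω] (𝒮 : Set (Finset Ω)),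
    (∀ S ∈ 𝒮, Fintype.card Ω ≤ q * #S) →
    (¬ ∃ a : Fin d → Ω, ∀ s : Set (Fin d), ∃ S ∈ 𝒮, ∀ j, a j ∈ S ↔ j ∈ s) →
    ∃ b : Fin N → Ω, ∀ S ∈ 𝒮, ∃ i, b i ∈ S := by
  classical
  obtain ⟨r, hr⟩ := exists_lt_two_pow q d
  refine ⟨q * r, fun Ω _ _ 𝒮 hq hd => ?_⟩
  by_contra hc
  push Not at hc
  choose S h1 h2 using hc
  generalize hN : q * r = N at *
  let tr : (Fin N × Bool → Ω) → (Fin N → Bool) → Finset (Fin N × Bool) := fun X σ =>
    {p | X p ∈ S fun i => X (i, σ i)}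
  have k1 : ∀ σ : Fin N → Bool, Fintype.card (Fin N × Bool → Ω) * N ≤ q * ∑ X, #(tr X σ) := by
    intro σ
    have e1 : ∀ X, ∑ i, (if X (i, !σ i) ∈ S fun i => X (i, σ i) then 1 else 0) ≤ #(tr X σ) := by
      intro X
      rw [← card_filter]
      exact card_le_card_of_injOn (fun i => (i, !σ i)) (fun i hi => by simpa [tr] using hi)
        fun i _ j _ h => congrArg Prod.fst h
    refine le_trans ?_ (Nat.mul_le_mul_left _ (sum_le_sum fun X _ => e1 X))
    rw [sum_comm, mul_sum, mul_comm, show N * Fintype.card (Fin N × Bool → Ω) =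
      #(univ : Finset (Fin N)) • Fintype.card (Fin N × Bool → Ω) by simp]
    refine card_nsmul_le_sum _ _ _ fun i _ => ?_
    rw [← card_filter]
    refine Nat.le_of_mul_le_mul_right ?_ (Fintype.card_pos (α := Ω))
    rw [mul_assoc, resample (i, !σ i) (fun X : Fin N × Bool → Ω => S fun i => X (i, σ i))
      fun X v => by
        congr 1
        funext j
        refine update_of_ne (fun e => ?_) _ _
        obtain ⟨rfl, e⟩ := Prod.mk.inj e
        simp at e, mul_sum]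
    exact le_trans (by simp) (card_nsmul_le_sum _ _ _ fun X _ => hq _ (h1 _))
  obtain ⟨X, -, k2⟩ : ∃ X ∈ (univ : Finset (Fin N × Bool → Ω)),
      2 ^ N * N ≤ q * ∑ σ, #(tr X σ) := by
    refine exists_le_of_sum_le univ_nonempty ?_
    rw [← mul_sum univ _ q, sum_comm, mul_sum univ _ q]
    refine le_trans (le_of_eq ?_) (card_nsmul_le_sum _ _ _ fun σ _ => k1 σ)
    simp only [sum_const, card_univ, smul_eq_mul, Fintype.card_fun, Fintype.card_bool,
      Fintype.card_fin]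
    ring
  have hq0 : 0 < q := Nat.pos_of_ne_zero fun h =>
    (Fintype.card_pos.trans_le (hq _ (h1 fun _ => Classical.arbitrary _))).ne' (by simp [h])
  have k3 : 2 ^ N * r ≤ ∑ σ, #(tr X σ) :=
    Nat.le_of_mul_le_mul_left (le_trans (le_of_eq (by rw [← hN]; ring)) k2) hq0
  have k4 : ∀ h : ℕ, 2 ^ r * (h + 1) ≤ 2 ^ h + 2 ^ r * r := fun h => by
    rcases le_or_gt r h with k | k
    · obtain ⟨m, rfl⟩ := Nat.exists_eq_add_of_le k
      have := Nat.mul_le_mul_left (2 ^ r) (Nat.lt_two_pow_self (n := m))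
      rw [pow_add]
      nlinarith
    · exact le_add_left (Nat.mul_le_mul_left _ k)
  have k5 : ∑ σ, 2 ^ #(tr X σ) ≤ #(univ.image (tr X)) * 2 ^ N := by
    rw [← sum_fiberwise_of_maps_to (g := tr X) fun σ h => mem_image_of_mem _ h]
    refine sum_le_card_nsmul _ _ _ fun τ _ => ?_
    rw [sum_congr rfl (g := fun _ => 2 ^ #τ) fun σ h => by rw [(mem_filter.1 h).2], sum_const]
    refine fiber_le τ _ fun σ h i k => h2 (fun i => X (i, σ i)) i ?_
    rw [← (mem_filter.1 h).2] at k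
    exact (mem_filter.1 k).2
  have k6 : 2 ^ r ≤ #(univ.image (tr X)) := by
    have := (sum_le_sum fun σ (_ : σ ∈ univ) => k4 #(tr X σ)).trans_eq sum_add_distrib
    rw [← mul_sum, sum_add_distrib] at this
    simp only [sum_const, card_univ, smul_eq_mul, Fintype.card_fun, Fintype.card_bool,
      Fintype.card_fin, mul_one] at this
    have k7 := Nat.mul_le_mul_left (2 ^ r) k3
    refine Nat.le_of_mul_le_mul_right ?_ (Nat.two_pow_pos N)
    nlinarith
  have k7 : (univ.image (tr X)).vcDim ≤ d := by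
    refine Finset.sup_le fun t ht => ?_
    by_contra k
    obtain ⟨t', k8, k9⟩ := exists_subset_card_eq (not_le.1 k).le
    let e : Fin d ≃ t' := (t'.equivFinOfCardEq k9).symm
    refine hd ⟨fun j => X (e j), fun s => ?_⟩
    obtain ⟨u, hu, k⟩ := ((mem_shatterer.1 ht).mono_right k8)
      (t := t'.filter fun p => ∃ j ∈ s, (e j : Fin N × Bool) = p) (filter_subset _ _)
    obtain ⟨σ, -, rfl⟩ := mem_image.1 hu
    refine ⟨_, h1 fun i => X (i, σ i), fun j => ?_⟩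
    have := Finset.ext_iff.1 k (e j)
    simpa [tr, Subtype.val_injective.eq_iff, e.injective.eq_iff] using this
  refine hr.not_ge (k6.trans ((card_le_card_shatterer _).trans
    (card_shatterer_le_sum_vcDim.trans ((sum_le_sum_of_subset (Iic_subset_Iic.2 k7)).trans ?_))))
  refine (sum_le_card_nsmul _ _ ((2 * N + 1) ^ d) fun k hk => (Nat.choose_le_pow _ _).trans
    ((Nat.pow_le_pow_left (by simp; omega) _).trans
      (Nat.pow_le_pow_right (by omega) (mem_Iic.1 hk)))).trans (by simp)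

lemma shift {Ω : Type} [Fintype Ω] {L : ℕ} (f : Ω → Fin (L + 1)) (τ : Ω → Ω) (hτ : Injective τ)
    (h : ∀ ω, f (τ ω) = f ω + 1) : (L + 1) * #{ω | f ω = Fin.last L} ≤ Fintype.card Ω := by
  classical
  have h1 : ∀ a, #{ω | f ω = a} ≤ #{ω | f ω = a + 1} := fun a =>
    card_le_card_of_injOn τ (fun ω k => by simpa [h] using k) hτ.injOn
  have h2 : ∀ a, #{ω | f ω = Fin.last L} ≤ #{ω | f ω = a} := fun a => by
    induction a using Fin.induction with
    | zero => simpa using h1 (Fin.last L)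
    | succ a ih => exact ih.trans (Fin.coeSucc_eq_succ (a := a) ▸ h1 _)
  rw [← card_univ, card_eq_sum_card_fiberwise (f := f) (s := univ) (t := univ)
    fun _ _ => mem_univ _]
  exact le_trans (by simp) (card_nsmul_le_sum _ _ _ fun a _ => h2 a)

/-- A finite family of points that is almost invariant under finitely many dilations. -/
theorem folner {E U Z : Type} [Field E] [Fintype U] [Fintype Z] (ρ : U → Eˣ) (z : Z → E)
    (G : Subgroup Eˣ) (A : AddSubgroup E) (hρ : ∀ u, ρ u ∈ G) (hz : ∀ j, z j ∈ A)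
    (hA : ∀ g ∈ G, ∀ a ∈ A, (g : E) * a ∈ A) :
    ∃ (Ω : Type) (_ : Fintype Ω) (_ : Nonempty Ω) (lam : Ω → Eˣ) (α : Ω → E),
      (∀ ω, lam ω ∈ G ∧ α ω ∈ A) ∧ ∀ (w : E) (j : Z) (Q : E → Prop) (S : Finset Ω),
        (∀ ω, Q (lam ω * (w + α ω)) → ω ∈ S) →
        (∀ ω, ∃ u, Q (z j + ρ u * (lam ω * (w + α ω) - z j))) →
        Fintype.card Ω ≤ 2 * Fintype.card U * #S := by
  classical
  generalize hm : Fintype.card U = m
  let I := Fin (4 * m + 1)
  let lam : (U → I) → Eˣ := fun e => ∏ u, ρ u ^ (e u : ℕ)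
  let g : (U → I) × Z × U → E := fun p =>
    ((lam p.1 * ρ p.2.2)⁻¹ : Eˣ) * (z p.2.1 - ρ p.2.2 * z p.2.1)
  have hl : ∀ e, lam e ∈ G := fun e => prod_mem fun u _ => pow_mem (hρ u) _
  refine ⟨(U → I) × ((U → I) × Z × U → I), inferInstance, inferInstance, fun ω => lam ω.1,
    fun ω => ∑ p, (ω.2 p : ℕ) • g p, fun ω => ⟨hl _, sum_mem fun p _ => nsmul_mem
      (hA _ (inv_mem (mul_mem (hl _) (hρ _))) _ (sub_mem (hz _) (hA _ (hρ _) _ (hz _)))) _⟩,
    fun w j Q S hS hQ => ?_⟩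
  let D : U → (U → I) × ((U → I) × Z × U → I) → (U → I) × ((U → I) × Z × U → I) := fun u ω =>
    (ω.1 + Pi.single u 1, ω.2 + Pi.single (ω.1, j, u) 1)
  have hD : ∀ u, Injective (D u) := fun u ω ω' e => by
    obtain ⟨e1, e2⟩ := Prod.mk.inj e
    have e3 := add_right_cancel e1
    rw [e3] at e2
    exact Prod.ext e3 (add_right_cancel e2)
  have key : ∀ {κ M : Type} [Fintype κ] [DecidableEq κ] [CommMonoid M] (x : κ → M) (e : κ → I) (u : κ),
      e u ≠ Fin.last _ → ∏ v, x v ^ ((e + Pi.single u 1 : κ → I) v : ℕ) =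
        (∏ v, x v ^ (e v : ℕ)) * x u := by
    intro κ M _ _ _ x e u h
    rw [← mul_prod_erase _ _ (mem_univ u), ← mul_prod_erase _ _ (mem_univ u), mul_right_comm,
      ← pow_succ, Pi.add_apply, Pi.single_eq_same, Fin.val_add_one, if_neg h]
    congr 1
    exact prod_congr rfl fun v hv => by
      rw [Pi.add_apply, Pi.single_eq_of_ne (mem_erase.1 hv).1, add_zero]
  let B : U → Finset ((U → I) × ((U → I) × Z × U → I)) := fun u =>
    (univ.filter (fun ω => ω.1 u = Fin.last _) ∪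
      univ.filter fun ω => ω.2 (ω.1, j, u) = Fin.last _) ∪ univ.filter fun ω => D u ω ∈ S
  have h1 : univ ⊆ univ.biUnion B := by
    intro ω _
    obtain ⟨u, hu⟩ := hQ ω
    refine mem_biUnion.2 ⟨u, mem_univ _, ?_⟩
    by_contra hc
    simp only [B, mem_union, mem_filter, mem_univ, true_and, not_or] at hc
    refine hc.2 (hS _ ?_)
    convert hu using 1
    have e1 : lam (D u ω).1 = lam ω.1 * ρ u := key ρ ω.1 u hc.1.1
    have e2 : ∑ p, ((D u ω).2 p : ℕ) • g p = ∑ p, (ω.2 p : ℕ) • g p + g (ω.1, j, u) :=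
      key (M := Multiplicative E) g ω.2 _ hc.1.2
    dsimp only
    rw [e1, e2]
    generalize ∑ p, (ω.2 p : ℕ) • g p = a
    simp only [g, Units.val_mul, mul_inv, Units.val_inv_eq_inv_val]
    field_simp
    ring
  have h2 : ∀ u, (4 * m + 1) * #(B u) ≤
      2 * Fintype.card ((U → I) × ((U → I) × Z × U → I)) + (4 * m + 1) * #S := fun u => by
    have k1 := shift (fun ω => ω.1 u) (D u) (hD u) fun ω => by simp [D]
    have k2 := shift (Ω := (U → I) × ((U → I) × Z × U → I)) (fun ω => ω.2 (ω.1, j, u))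
      (fun ω => (ω.1, ω.2 + Pi.single (ω.1, j, u) 1)) (fun ω ω' e => by
        obtain ⟨e1, e2⟩ := Prod.mk.inj e
        rw [e1] at e2
        exact Prod.ext e1 (add_right_cancel e2)) fun ω => by simp
    have k3 : #{ω | D u ω ∈ S} ≤ #S :=
      card_le_card_of_injOn (D u) (fun ω k => by simpa using k) (hD u).injOn
    refine (Nat.mul_le_mul_left _ ((card_union_le _ _).trans
      (add_le_add (card_union_le _ _) k3))).trans ?_
    rw [mul_add, mul_add, two_mul]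
    exact add_le_add (add_le_add k1 k2) le_rfl
  have h3 := (Nat.mul_le_mul_left (4 * m + 1) ((card_le_card h1).trans card_biUnion_le)).trans
    ((mul_sum _ _ _).le.trans (sum_le_card_nsmul _ _ _ fun u _ => h2 u))
  rw [card_univ, card_univ, hm, smul_eq_mul] at h3
  refine Nat.le_of_mul_le_mul_left ?_ (Nat.succ_pos (2 * m))
  generalize Fintype.card ((U → I) × ((U → I) × Z × U → I)) = c at h3 ⊢
  nlinarith [Nat.zero_le (m * #S)]

end Pool.Agent.MP_829a8f_lc.H20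

end MrgPart0

-- ======== part 1: formerly Pool.Agent.MP_829a8f_lc.h20.Strong
section MrgPart1

/-!
Structures without randomness patterns of infinite depth.
-/

namespace Pool.Agent.MP_829a8f_lc.H20

open H33 Filter IsLocalRing

/-- No randomness pattern of infinite depth. -/
def Strong {F : Type} [Field F] (S : NS F) : Prop :=
  ∀ (α : Type) [Finite α] (β : ℕ → Type) [∀ k, Finite (β k)] (P : ∀ k, (α ⊕ β k → F) → Prop),
    (∀ k, S.D (P k)) → ∃ n : ℕ, ¬ ∃ (a : ∀ k : Fin n, Fin n → β k → F)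
      (x : (Fin n → Fin n) → α → F), ∀ η (k j : Fin n), P k (Sum.elim (x η) (a k j)) ↔ j = η k

variable {F : Type} [Field F] {S : NS F}

lemma Strong.interp (hS : Strong S) {E : Type} [Field E] {ι : Type} [Finite ι]
    (I : Interp S E ι) : Strong I.ns := by
  intro α _ β _ P hP
  obtain ⟨N, hN⟩ := hS (α × ι) (fun k => β k × ι) _
    fun k => S.re (Equiv.sumProdDistrib α (β k) ι) (hP k)
  refine ⟨N, fun ⟨a, b, h⟩ => ?_⟩
  choose x hx hx' using fun k j i => I.surj (a k j i)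
  choose y hy hy' using fun s i => I.surj (b s i)
  refine hN ⟨fun k j p => x k j p.1 p.2, fun s p => y s p.1 p.2, fun s k j => ?_⟩
  rw [← h s k j]
  refine (and_iff_right (Sum.forall.2 ⟨hy s, hx k j⟩)).trans (iff_of_eq (congrArg (P k) ?_))
  funext c
  cases c with
  | inl c => exact hy' s c
  | inr c => exact hx' k j c

lemma Strong.up (hS : Strong S) {J : Type} (u : Ultrafilter J) : Strong (S.up u) := by
  intro α _ β _ P hP
  choose γ hγ Q p hQ h using hP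
  obtain ⟨N, hN⟩ := hS α (fun k => β k ⊕ γ k) _
    fun k => S.re (Equiv.sumAssoc α (β k) (γ k)) (hQ k)
  refine ⟨N, fun ⟨a, b, hab⟩ => ?_⟩
  choose x hx using fun k j => germ_surj u (a k j)
  choose y hy using fun s => germ_surj u (b s)
  have h1 : ∀ s (k j : Fin N), ∀ᶠ t in u,
      Q k (Sum.elim (fun c => Sum.elim (y s) (x k j) c t) fun c => p k c t) ↔ j = s k := by
    intro s k j
    have h2 := (h k (Sum.elim (y s) (x k j))).symm.trans ((iff_of_eq (congrArg (P k) (by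
      funext c
      cases c
      · exact (congrFun (hy s) _).symm
      · exact (congrFun (hx k j) _).symm))).trans (hab s k j))
    by_cases hj : j = s k
    · exact (h2.2 hj).mono fun t ht => iff_of_true ht hj
    · exact (Ultrafilter.eventually_not.2 (mt h2.1 hj)).mono fun t ht => iff_of_false ht hj
  obtain ⟨t, ht⟩ := (eventually_all.2 fun s => eventually_all.2 fun k =>
    eventually_all.2 (h1 s k)).exists
  refine hN ⟨fun k j => Sum.elim (fun c => x k j c t) fun c => p k c t, fun s c => y s c t,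
    fun s k j => (iff_of_eq (congrArg (Q k) ?_)).trans (ht s k j)⟩
  funext c
  rcases c with (c | c) | c <;> rfl

/-- Rows with boundedly many solutions along the paths give a randomness pattern. -/
lemma Strong.rows (hS : Strong S) {α β : Type} [Finite α] [Finite β]
    (P : ℕ → (α → F) → (β → F) → Prop)
    (hP : ∀ k, S.D fun v : α ⊕ β → F => P k (fun a => v (Sum.inl a)) fun b => v (Sum.inr b))
    (M : ℕ → ℕ) (h : ∀ n W : ℕ, ∃ (a : Fin W → β → F) (x : (Fin n → Fin W) → α → F),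
      ∀ η (k : Fin n), P k (x η) (a (η k)) ∧ {j | P k (x η) (a j)}.ncard ≤ M k) : False := by
  classical
  obtain ⟨n, hn⟩ := hS α (fun _ => β) _ hP
  obtain ⟨a, x, h⟩ := h n (n ^ n * n * n * (Finset.univ.sup fun k : Fin n => M k) + 1)
  obtain ⟨σ, hσ⟩ := select (Nat.lt_succ_self _) (fun η k => {j | P k (x η) (a j)}) fun η k => by
    refine le_trans ?_ ((h η k).2.trans (Finset.le_sup (f := fun k : Fin n => M k)
      (Finset.mem_univ k)))
    rw [← Set.ncard_coe_finset]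
    simp
  refine hn ⟨fun k j => a (σ (k, j)), fun η => x fun k => σ (k, η k), fun η k j =>
    ⟨fun e => ?_, fun e => e ▸ (h (fun k => σ (k, η k)) k).1⟩⟩
  by_contra k'
  exact hσ η k j k' (Finset.mem_filter.2 ⟨Finset.mem_univ _, e⟩)

theorem exists_ext {K : Type} [Field K] {S : NS K} (hS : Strong S) (L : Type) [Field L] [Algebra K L]
    [FiniteDimensional K L] : ∃ S' : NS L, Strong S' ∧ (∀ D, S.U D → S'.U (algebraMap K L '' D)) ∧
      ∀ D, S'.U D → S.U (algebraMap K L ⁻¹' D) := by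
  let v := Module.finBasis K L
  have e1 : ∀ (w : Fin (Module.finrank K L) → K) (c : K),
      algebraMap K L c = v.equivFun.symm w ↔ ∀ i, c * v.repr 1 i = w i := by
    intro w c
    rw [LinearEquiv.eq_symm_apply, Algebra.algebraMap_eq_smul_one, map_smul, funext_iff]
    rfl
  let I : Interp S L (Fin (Module.finrank K L)) :=
    { X := fun _ => True
      π := v.equivFun.symm
      hX := NS.tru
      surj := fun y => ⟨v.equivFun y, trivial, v.equivFun.symm_apply_apply y⟩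
      add := NS.congr (NS.all fun i => NS.eq ((NS.proj (0, i)).add (NS.proj (1, i)))
        (NS.proj (2, i))) fun w => by
          rw [← map_add, v.equivFun.symm.injective.eq_iff, funext_iff]
          exact and_iff_right fun _ => trivial
      mul := NS.congr (NS.all fun k => NS.eq (NS.Fn.sum Finset.univ fun i => NS.Fn.sum Finset.univ
        fun j => ((NS.proj (0, i)).mul (NS.proj (1, j))).mul (NS.const (v.repr (v i * v j) k)))
        (NS.proj (2, k))) fun w => by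
          rw [LinearEquiv.eq_symm_apply, funext_iff, and_iff_right fun _ => trivial]
          simp [Finset.sum_mul_sum, mul_assoc, mul_left_comm] }
  refine ⟨I.ns, hS.interp I, fun D hD => I.U_iff.2 (NS.congr (NS.ex1 (P := fun w c => c ∈ D ∧
    ∀ i, c * v.repr 1 i = w i) (S.and (hD.app (NS.proj _)) (NS.all fun i => NS.eq
      ((NS.proj _).mul (NS.const _)) (NS.proj _)))) fun w => ?_), fun D hD => NS.congr
      (NS.comp (g := fun i w => w () * v.repr 1 i) (I.U_iff.1 hD)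
      fun i => (NS.proj _).mul (NS.const _)) fun w => ?_⟩
  · exact (and_iff_right trivial).trans (exists_congr fun c => and_congr_right fun _ => e1 w c)
  · rw [Set.mem_preimage, (e1 _ _).2 fun _ => rfl]
    exact (and_iff_right trivial).symm

theorem exists_res {L : Type} [Field L] {S : NS L} (hS : Strong S) {W : ValuationSubring L} (hW : S.U W) :
    ∃ S' : NS (ResidueField W), Strong S' ∧
      ∀ D, S.U D → S'.U {z | ∃ x : W, (x : L) ∈ D ∧ residue W x = z} := by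
  classical
  let π : (Unit → L) → ResidueField W := fun w => if h : w () ∈ W then residue W ⟨_, h⟩ else 0
  have hπ : ∀ (w : Unit → L) (h : w () ∈ W), π w = residue W ⟨_, h⟩ := fun w h => dif_pos h
  let I : Interp S (ResidueField W) Unit :=
    { X := fun w => w () ∈ W
      π := π
      hX := hW
      surj := fun y => by
        obtain ⟨x, rfl⟩ := residue_surjective y
        exact ⟨fun _ => x, x.2, hπ (fun _ => x) x.2⟩
      add := NS.congr (S.and (NS.all fun a => hW.app (NS.proj (a, ()))) (hW.nu.app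
        (((NS.proj (0, ())).add (NS.proj (1, ()))).sub (NS.proj (2, ()))))) fun w =>
          and_congr_right fun h => by
            rw [hπ (fun i => w (0, i)) (h 0), hπ (fun i => w (1, i)) (h 1),
              hπ (fun i => w (2, i)) (h 2), ← map_add, res_eq]
            rfl
      mul := NS.congr (S.and (NS.all fun a => hW.app (NS.proj (a, ()))) (hW.nu.app
        (((NS.proj (0, ())).mul (NS.proj (1, ()))).sub (NS.proj (2, ()))))) fun w =>
          and_congr_right fun h => by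
            rw [hπ (fun i => w (0, i)) (h 0), hπ (fun i => w (1, i)) (h 1),
              hπ (fun i => w (2, i)) (h 2), ← map_mul, res_eq]
            rfl }
  refine ⟨I.ns, hS.interp I, fun D hD => I.U_iff.2 ?_⟩
  have h1 : S.D fun w : Unit → L => w () ∈ W ∧ ∃ x, x ∈ W ∧ x ∈ D ∧ x - w () ∈ W.nonunits :=
    S.and hW (NS.ex1 (P := fun w x => x ∈ W ∧ x ∈ D ∧ x - w () ∈ W.nonunits)
      (S.and (hW.app (NS.proj _)) (S.and (hD.app (NS.proj _))
      (hW.nu.app ((NS.proj _).sub (NS.proj _))))))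
  refine NS.congr h1 fun w => and_congr_right fun h => ?_
  change π w ∈ _ ↔ _
  rw [hπ w h]
  constructor
  · rintro ⟨x, k1, k2⟩
    exact ⟨x, x.2, k1, res_eq.1 k2⟩
  · rintro ⟨x, k1, k2, k3⟩
    exact ⟨⟨x, k1⟩, k2, res_eq.2 k3⟩

end Pool.Agent.MP_829a8f_lc.H20

end MrgPart1

-- ======== part 2: formerly Pool.Agent.MP_829a8f_lc.h20.Code
section MrgPart2

/-!
Coding of arbitrarily long words by power classes.
-/

namespace Pool.Agent.MP_829a8f_lc.H20

open H33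

variable {E : Type} [Field E]

/-- The data of the coding argument. -/
structure Cod (S : NS E) where
  l : ℕ
  k : Subfield E
  R' : Subring E
  R : Subring E
  J : AddSubgroup E
  T : Set E
  H : Set E
  P : Set E
  H' : Set E
  Dm : Set E
  M : Set E
  R₁ : Set E
  s : E
  n : ℕ
  u : Fin (n + 1) → Eˣ
  inf : (k : Set E).Infinite
  kR : ∀ c ∈ k, c ∈ R'
  RR : R' ≤ R
  JR : ∀ j ∈ J, j ∈ R
  RJ : ∀ r ∈ R, ∀ j ∈ J, r * j ∈ J
  hT : MG T
  hH : MG H
  JT : ∀ j ∈ J, 1 + j ∈ T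
  pw : ∀ y ∈ H, y ^ l ∈ T
  sJ : s ∉ J
  dP : S.U P
  dH : S.U H'
  dD : S.U Dm
  dM : S.U M
  dR : S.U R₁
  hP : ∀ x ∈ H, x ∈ P ↔ x ∈ T
  HH : ∀ y ∈ H, y ∈ H'
  root : ∀ y ∈ H', y ^ l ∈ H → y ∈ H
  DR : ∀ x ∈ Dm, x ∈ R'
  absD : ∀ A : Set E, A.Finite → A ⊆ k → ∃ t ∈ k, t ≠ 0 ∧ ∀ a ∈ A, t * a ∈ Dm
  JM : ∀ j ∈ J, j ∈ M
  MJ : ∀ r ∈ R, s * r ∈ M → s * r ∈ J
  R₁R : ∀ x ∈ R₁, x ∈ R
  absR : ∀ A : Set E, A.Finite → A ⊆ R → ∃ t ∈ k, t ≠ 0 ∧ ∀ a ∈ A, t * a ∈ R₁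
  col : ∃ (κ : Type) (_ : Finite κ) (χ : E → κ), ∀ x ∈ R, ∀ y ∈ R, x ^ l - 1 ∈ J → y ^ l - 1 ∈ J →
    χ x = χ y → x - y ∈ J
  uR : ∀ i, u i ∈ R'.toSubmonoid.units
  iso : ∀ r ∈ R, (∀ i, 1 + s * r / u i ∈ T) → s * r ∈ J
  far : ∀ t ∈ k, t ≠ 0 → ∀ Φ : Set (Eˣ × E), Φ.Finite →
    (∀ p ∈ Φ, p.1 ∈ R'.toSubmonoid.units ∧ ∃ y ∈ R', p.2 = s * y) → ∃ w, ∀ p ∈ Φ, ∀ b,
      b = p.1 * (w + p.2) → b ≠ 0 ∧ b ∈ R ∧ b⁻¹ ∈ R ∧ ∀ z, t * z / s ∈ Dm → z ≠ b → 1 - z / b ∈ H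

namespace Cod

variable {S : NS E} (c : Cod S) {N : ℕ}

/-- The point `z` is isolated by its classes. -/
def Iso (b : Fin N → E) (t z : E) : Prop :=
  ∀ z', t * z' / c.s ∈ c.Dm → (∀ i, b i ≠ z' ∧ (b i - z') / (b i - z) ∈ c.P) → z' - z ∈ c.M

/-- One step of the decoding. -/
def Step (b : Fin N → E) (t t' : E) (y : Fin N → E) (z : E) (y' : Fin N → E) : Prop :=
  t * z / c.s ∈ c.Dm ∧ c.Iso b t z ∧ ∀ i, y i * y' i ^ c.l = 1 - z / b i ∧ y' i ∈ c.H' ∧
    t' * y' i ∈ c.R₁ ∧ t' * (y' i)⁻¹ ∈ c.R₁ ∧ y' i ≠ 0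

/-- Several steps of the decoding. -/
def Reach (b : Fin N → E) (t t' : E) (y : Fin N → E) : ℕ → (Fin N → E) → Prop
  | 0, y' => ∀ i, y i = y' i
  | m + 1, y' => ∃ v : Option (Fin N) → E, Reach b t t' y m (fun i => v (some i)) ∧
      c.Step b t t' (fun i => v (some i)) (v none) y'

section Def

variable {α : Type} [Finite α] {b y y' : Fin N → (α → E) → E} {t t' z : (α → E) → E}

lemma d_step (hb : ∀ i, S.Fn (b i)) (ht : S.Fn t) (ht' : S.Fn t') (hy : ∀ i, S.Fn (y i))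
    (hz : S.Fn z) (hy' : ∀ i, S.Fn (y' i)) :
    S.D fun v => c.Step (b · v) (t v) (t' v) (y · v) (z v) (y' · v) :=
  S.and (c.dD.app ((ht.mul hz).div (NS.const _))) (S.and (NS.all1 (P := fun v z' =>
    t v * z' / c.s ∈ c.Dm → (∀ i, b i v ≠ z' ∧ (b i v - z') / (b i v - z v) ∈ c.P) →
      z' - z v ∈ c.M) (NS.imp (c.dD.app ((ht.some.mul (NS.proj _)).div (NS.const _))) (NS.imp
      (NS.all fun i => S.and (S.not (NS.eq (hb i).some (NS.proj _))) (c.dP.app
        (((hb i).some.sub (NS.proj _)).div ((hb i).some.sub hz.some))))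
      (c.dM.app ((NS.proj _).sub hz.some))))) (NS.all fun i => S.and (NS.eq ((hy i).mul
      ((hy' i).pow _)) ((NS.const _).sub (hz.div (hb i)))) (S.and (c.dH.app (hy' i)) (S.and
      (c.dR.app (ht'.mul (hy' i))) (S.and (c.dR.app (ht'.mul (hy' i).inv))
      (S.not (NS.eq (hy' i) (NS.const _))))))))

end Def

lemma d_reach (m : ℕ) : ∀ {α : Type} [Finite α] {b y y' : Fin N → (α → E) → E}
    {t t' : (α → E) → E}, (∀ i, S.Fn (b i)) → S.Fn t → S.Fn t' → (∀ i, S.Fn (y i)) →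
    (∀ i, S.Fn (y' i)) → S.D fun v => c.Reach (b · v) (t v) (t' v) (y · v) m (y' · v) := by
  induction m with
  | zero => exact fun _ _ _ hy hy' => NS.all fun i => NS.eq (hy i) (hy' i)
  | succ m ih =>
    intro α _ b y y' t t' hb ht ht' hy hy'
    exact NS.ex' (P := fun v (w : Option (Fin N) → E) => c.Reach (b · v) (t v) (t' v) (y · v) m
      (fun i => w (some i)) ∧ c.Step (b · v) (t v) (t' v) (fun i => w (some i)) (w none) (y' · v))
      (S.and (ih (fun i => (hb i).inl) ht.inl ht'.inl (fun i => (hy i).inl) fun i => NS.proj _)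
      (c.d_step (fun i => (hb i).inl) ht.inl ht'.inl (fun i => NS.proj _) (NS.proj _)
        fun i => (hy' i).inl))

/-- Admissible parameters. -/
structure Par (b : Fin N → E) (t t' : E) : Prop where
  tk : t ∈ c.k
  t0 : t ≠ 0
  tk' : t' ∈ c.k
  t0' : t' ≠ 0
  b0 : ∀ i, b i ≠ 0
  bR : ∀ i, (b i)⁻¹ ∈ c.R
  bH : ∀ i z, t * z / c.s ∈ c.Dm → z ≠ b i → 1 - z / b i ∈ c.H

/-- Admissible states. -/
def Good (y : Fin N → E) : Prop := ∀ i, y i ∈ c.H ∧ y i ∈ c.R ∧ (y i)⁻¹ ∈ c.R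

variable {c} {b y y' x x' : Fin N → E} {t t' z w : E}

lemma kR' {a : E} (h : a ∈ c.k) : a ∈ c.R := c.RR (c.kR a h)

lemma s0 : c.s ≠ 0 := fun h => c.sJ (h ▸ zero_mem _)

lemma powH {a : E} (h : a ∈ c.H) (m : ℕ) : a ^ m ∈ c.H :=
  pow_mem (S := (⟨⟨c.H, c.hH.mul⟩, c.hH.one⟩ : Submonoid E)) h m

lemma Step.good (p : c.Par b t t') (hy : c.Good y) (h : c.Step b t t' y z y') : c.Good y' := by
  intro i
  obtain ⟨e, h1, h2, h3, h4⟩ := h.2.2 i
  have h0 := c.hH.ne (hy i).1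
  refine ⟨c.root _ h1 ?_, ?_, ?_⟩
  · have := c.hH.div (p.bH i z h.1 fun k => mul_ne_zero h0 (pow_ne_zero _ h4) (by
      rw [e, k, div_self (p.b0 i), sub_self])) (hy i).1
    rwa [← e, mul_div_cancel_left₀ _ h0] at this
  · simpa [p.t0'] using mul_mem (kR' (inv_mem p.tk')) (c.R₁R _ h2)
  · simpa [p.t0'] using mul_mem (kR' (inv_mem p.tk')) (c.R₁R _ h3)

lemma dom (p : c.Par b t t') (h : t * z / c.s ∈ c.Dm) : ∃ r ∈ c.R', z = c.s * r :=
  ⟨_, mul_mem (c.kR _ (inv_mem p.tk)) (c.DR _ h), by field_simp [p.t0, s0]⟩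

lemma Step.near (p : c.Par b t t') (hy : c.Good y) (hx : c.Good x) (e : ∀ i, x i - y i ∈ c.J)
    (h : c.Step b t t' y z y') (h' : c.Step b t t' x w x') :
    w - z ∈ c.J ∧ ∀ i, (x' i / y' i) ^ c.l - 1 ∈ c.J := by
  have gy := h.good p hy
  have gx := h'.good p hx
  have e1 : ∀ i, b i - z = b i * (y i * y' i ^ c.l) := fun i => by
    rw [(h.2.2 i).1, mul_sub, mul_one, mul_div_cancel₀ _ (p.b0 i)]
  have e2 : ∀ i, b i - w = b i * (x i * x' i ^ c.l) := fun i => by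
    rw [(h'.2.2 i).1, mul_sub, mul_one, mul_div_cancel₀ _ (p.b0 i)]
  have h1 : w - z ∈ c.J := by
    obtain ⟨r, hr, rfl⟩ := dom p h.1
    obtain ⟨r', hr', rfl⟩ := dom p h'.1
    rw [← mul_sub]
    refine c.MJ _ (c.RR (sub_mem hr' hr)) (mul_sub c.s _ _ ▸ h.2.1 _ h'.1 fun i => ⟨fun k => ?_, ?_⟩)
    · exact mul_ne_zero (p.b0 i) (mul_ne_zero (c.hH.ne (hx i).1)
        (pow_ne_zero _ (c.hH.ne (gx i).1))) (by rw [← e2, k, sub_self])
    rw [e1, e2, mul_div_mul_left _ _ (p.b0 i), mul_div_mul_comm, ← div_pow]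
    have k1 := c.hH.div (gx i).1 (gy i).1
    refine (c.hP _ (c.hH.mul (c.hH.div (hx i).1 (hy i).1) (powH k1 _))).2
      (c.hT.mul ?_ (c.pw _ k1))
    convert c.JT _ (c.RJ _ (hy i).2.2 _ (e i)) using 1
    field_simp [c.hH.ne (hy i).1]
    ring
  refine ⟨h1, fun i => ?_⟩
  have k1 := c.hH.ne (hx i).1
  have k2 := c.hH.ne (gy i).1
  have k3 := p.b0 i
  have k4 : x' i ^ c.l = (b i * (y i * y' i ^ c.l) - (w - z)) / (b i * x i) := by
    rw [eq_div_iff (mul_ne_zero k3 k1), ← e1]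
    linear_combination -e2 i
  convert neg_mem (add_mem (c.RJ _ (hx i).2.2 _ (e i)) (c.RJ _ (mul_mem (mul_mem (p.bR i)
    (hx i).2.2) (pow_mem (gy i).2.2 c.l)) _ h1)) using 1
  rw [div_pow, k4, inv_pow]
  field_simp
  ring

lemma Reach.good (p : c.Par b t t') (hy : c.Good y) : ∀ {m y'}, c.Reach b t t' y m y' → c.Good y'
  | 0, _, h => fun i => h i ▸ hy i
  | _ + 1, _, ⟨_, h, h'⟩ => h'.good p (h.good p hy)

variable (c N) in
lemma count (m : ℕ) : ∃ (κ : Type) (_ : Finite κ), ∀ (b y : Fin N → E) (t t' : E), c.Par b t t' →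
    c.Good y → ∃ χ : (Fin N → E) → κ, ∀ x x', c.Reach b t t' y m x → c.Reach b t t' y m x' →
      χ x = χ x' → ∀ i, x i - x' i ∈ c.J := by
  induction m with
  | zero => exact ⟨Unit, inferInstance, fun b y t t' _ _ => ⟨fun _ => (), fun x x' h h' _ i => by
      rw [← h i, ← h' i, sub_self]; exact zero_mem _⟩⟩
  | succ m ih =>
    obtain ⟨κ, _, ih⟩ := ih
    obtain ⟨κ', _, χ', hχ'⟩ := c.col
    refine ⟨κ × (Fin N → κ'), inferInstance, fun b y t t' p hy => ?_⟩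
    obtain ⟨χ, hχ⟩ := ih b y t t' p hy
    choose! v h1 h2 using fun x (h : c.Reach b t t' y (m + 1) x) => h
    have hq : ∀ a, ∃ q, (∃ x, c.Reach b t t' y (m + 1) x ∧ χ (fun i => v x (some i)) = a) →
        c.Reach b t t' y (m + 1) q ∧ χ (fun i => v q (some i)) = a := fun a => by
      by_cases h : ∃ x, c.Reach b t t' y (m + 1) x ∧ χ (fun i => v x (some i)) = a
      · exact h.imp fun _ h _ => h
      · exact ⟨0, fun h' => absurd h' h⟩
    choose q hq using hq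
    refine ⟨fun x => (χ fun i => v x (some i), fun i => χ' (x i / q (χ fun i => v x (some i)) i)),
      fun x x' h h' e i => ?_⟩
    obtain ⟨e1, e2⟩ := Prod.mk.inj e
    obtain ⟨k1, k2⟩ := hq _ ⟨x', h', rfl⟩
    rw [e1] at e2
    generalize q (χ fun i => v x' (some i)) = r at e2 k1 k2
    have k3 := k1.good p hy i
    have key : ∀ x, c.Reach b t t' y (m + 1) x → χ (fun i => v x (some i)) =
        χ (fun i => v r (some i)) → x i / r i ∈ c.R ∧ (x i / r i) ^ c.l - 1 ∈ c.J := fun x h e =>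
      ⟨div_eq_mul_inv (x i) _ ▸ mul_mem (h.good p hy i).2.1 k3.2.2, ((h2 r k1).near p
        ((h1 r k1).good p hy) ((h1 x h).good p hy) (hχ _ _ (h1 x h) (h1 r k1) e) (h2 x h)).2 i⟩
    have k4 := key x h (e1.trans k2.symm)
    have k5 := key x' h' k2.symm
    convert c.RJ _ k3.2.1 _ (hχ' _ k4.1 _ k5.1 k4.2 k5.2 (congrFun e2 i)) using 1
    field_simp [c.hH.ne k3.1]

variable (c) in
lemma exists_net : ∃ N, ∀ (W : ℕ) (f : Fin W → E), (∀ j, f j ∈ c.k) → ∃ (b : Fin N → E) (t : E),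
    c.Par b t 1 ∧ ∀ j, t * (c.s * f j) / c.s ∈ c.Dm ∧ c.Iso b t (c.s * f j) ∧ ∀ i, b i ≠ c.s * f j ∧
      1 - c.s * f j / b i ∈ c.R ∧ (1 - c.s * f j / b i)⁻¹ ∈ c.R := by
  classical
  obtain ⟨d, hd⟩ := S.nip (α := Fin 2) (β := Unit) (S.not (S.and (S.not (NS.eq
    (NS.proj (Sum.inr ())) (NS.proj (Sum.inl 1)))) (c.dP.app (((NS.proj (Sum.inr ())).sub
    (NS.proj (Sum.inl 1))).div ((NS.proj (Sum.inr ())).sub (NS.proj (Sum.inl 0)))))))
  obtain ⟨N, hN⟩ := net (2 * Fintype.card (Fin (c.n + 1))) d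
  refine ⟨N, fun W f hf => ?_⟩
  obtain ⟨t, tk, t0, ht⟩ := c.absD _ (Set.finite_range f) (by rintro _ ⟨j, rfl⟩; exact hf j)
  have ht' : ∀ j, t * (c.s * f j) / c.s ∈ c.Dm := fun j => by
    convert ht _ ⟨j, rfl⟩ using 1
    field_simp [s0]
  let A : AddSubgroup E := c.R'.toAddSubgroup.map (AddMonoidHom.mulLeft c.s)
  have hA : ∀ g ∈ c.R'.toSubmonoid.units, ∀ a ∈ A, (g : E) * a ∈ A := by
    rintro g hg _ ⟨y, hy, rfl⟩
    exact ⟨g * y, c.R'.mul_mem hg.1 hy, mul_left_comm _ _ _⟩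
  have hz : ∀ j, c.s * f j ∈ A := fun j => ⟨_, c.kR _ (hf j), rfl⟩
  obtain ⟨Ω, _, _, lam, α, h1, h2⟩ := folner (fun i => c.u i / c.u 0) (fun j => c.s * f j) _ A
    (fun i => div_mem (c.uR i) (c.uR 0)) hz hA
  obtain ⟨w, hw⟩ := c.far t tk t0 _ ((Set.finite_range fun ω => (lam ω, α ω)).union
    (Set.finite_range fun p : Ω × Fin W =>
      (lam p.1, α p.1 - ((lam p.1)⁻¹ : Eˣ) * (c.s * f p.2)))) (by
    rintro _ (⟨ω, rfl⟩ | ⟨⟨ω, j⟩, rfl⟩)
    · exact ⟨(h1 ω).1, (h1 ω).2.imp fun _ h => ⟨h.1, h.2.symm⟩⟩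
    · exact ⟨(h1 ω).1, (sub_mem (h1 ω).2 (hA _ (inv_mem (h1 ω).1) _ (hz j))).imp
        fun _ h => ⟨h.1, h.2.symm⟩⟩)
  have k1 := fun ω => hw _ (Or.inl ⟨ω, rfl⟩) _ rfl
  have k2 := fun ω j => hw _ (Or.inr ⟨(ω, j), rfl⟩) (lam ω * (w + α ω) - c.s * f j) (by
    simp only [Units.val_inv_eq_inv_val]
    field_simp
    ring)
  dsimp only at k1
  generalize hp : (fun ω => (lam ω : E) * (w + α ω)) = pt
  simp only [congrFun hp] at k1 k2 h2
  obtain ⟨b, hb⟩ := hN Ω {X | ∃ j z, t * z / c.s ∈ c.Dm ∧ z - c.s * f j ∉ c.M ∧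
      X = Finset.univ.filter fun ω => ¬ (pt ω ≠ z ∧ (pt ω - z) / (pt ω - c.s * f j) ∈ c.P)} (by
    rintro _ ⟨j, z, k3, k4, rfl⟩
    refine h2 w j (fun x => (x - z) / (x - c.s * f j) ∉ c.T) _ (fun ω h => ?_) fun ω => ?_
    · rw [congrFun hp] at h
      refine Finset.mem_filter.2 ⟨Finset.mem_univ _, fun k => h ((c.hP _ ?_).1 k.2)⟩
      convert c.hH.div ((k1 ω).2.2.2 z k3 k.1.symm)
        ((k1 ω).2.2.2 _ (ht' j) (sub_ne_zero.1 (k2 ω j).1).symm) using 1
      field_simp [(k1 ω).1, (k2 ω j).1]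
    · rw [congrFun hp]
      by_contra h
      push Not at h
      obtain ⟨r, hr, rfl⟩ := dom (b := Fin.elim0) (t' := 1) ⟨tk, t0, one_mem _, one_ne_zero,
        fun i => i.elim0, fun i => i.elim0, fun i => i.elim0⟩ k3
      have u1 : (c.u 0 : E) ∈ c.R := c.RR (c.uR 0).1
      have u2 : (c.u 0 : E)⁻¹ ∈ c.R := Units.val_inv_eq_inv_val (c.u 0) ▸ c.RR (c.uR 0).2
      have k5 := c.iso _ (mul_mem (mul_mem (c.RR (sub_mem (c.kR _ (hf j)) hr)) u1)
        (k2 ω j).2.2.1) fun i => by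
          convert h i using 1
          have := (k2 ω j).1
          rw [add_sub_cancel_left, Units.val_div_eq_div_val]
          generalize pt ω - c.s * f j = a at this ⊢
          field_simp
          ring
      refine k4 (c.JM _ ?_)
      convert neg_mem (c.RJ _ (mul_mem (k2 ω j).2.1 u2) _ k5) using 1
      field_simp [(k2 ω j).1]
      ring) (by
    rintro ⟨a, h⟩
    choose X h3 h4 using h
    choose j z _ _ h5 using h3
    exact hd ⟨fun i _ => pt (a i), fun X => ![c.s * f (j X), z X], fun X i => by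
      simpa [h5 X] using h4 X i⟩)
  refine ⟨fun i => pt (b i), t, ⟨tk, t0, one_mem _, one_ne_zero, fun i => (k1 _).1,
    fun i => (k1 _).2.2.1, fun i => (k1 _).2.2.2⟩, fun j => ⟨ht' j, fun z k3 k4 => ?_,
    fun i => ⟨sub_ne_zero.1 (k2 _ j).1, ?_, ?_⟩⟩⟩
  · by_contra k5
    obtain ⟨i, hi⟩ := hb _ ⟨j, z, k3, k5, rfl⟩
    exact (Finset.mem_filter.1 hi).2 (k4 i)
  · convert mul_mem (k2 (b i) j).2.1 (k1 (b i)).2.2.1 using 1
    field_simp [(k1 (b i)).1]
  · convert mul_mem (k2 (b i) j).2.2.1 (k1 (b i)).2.1 using 1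
    field_simp [(k1 (b i)).1, (k2 (b i) j).1]

/-- The code of a word. -/
noncomputable def code (l : ℕ) {ι : Type} (g : ι → Fin N → E) : List ι → Fin N → E
  | [] => 1
  | j :: L => fun i => g j i / code l g L i ^ l

theorem absurd' (c : Cod S) (hS : Strong S) : False := by
  obtain ⟨N, hN⟩ := c.exists_net
  choose κ hκ h using c.count N
  refine hS.rows (α := Fin N) (β := Fin N ⊕ Fin 3) (fun m y p => ∃ v : Bool × Fin N → E,
    c.Reach (fun i => p (Sum.inl i)) (p (Sum.inr 0)) (p (Sum.inr 1)) y m (fun i => v (true, i)) ∧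
    c.Step (fun i => p (Sum.inl i)) (p (Sum.inr 0)) (p (Sum.inr 1)) (fun i => v (true, i))
      (p (Sum.inr 2)) fun i => v (false, i)) (fun m => NS.ex' (S.and
    (c.d_reach m (fun i => NS.proj (Sum.inl (Sum.inr (Sum.inl i)))) (NS.proj _) (NS.proj _)
      (fun i => NS.proj (Sum.inl (Sum.inl i))) fun i => NS.proj _)
    (c.d_step (fun i => NS.proj (Sum.inl (Sum.inr (Sum.inl i)))) (NS.proj _) (NS.proj _)
      (fun i => NS.proj _) (NS.proj _) fun i => NS.proj _))) (fun m => Nat.card (κ m)) fun n W => ?_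
  let f : Fin W → E := fun j => c.inf.natEmbedding _ j
  have hf : ∀ j, f j ∈ c.k := fun j => (c.inf.natEmbedding _ j).2
  obtain ⟨b, t, p, hb⟩ := hN W f hf
  let y := code c.l fun j i => 1 - c.s * f j / b i
  have gy : ∀ L, c.Good (y L) := fun L => by
    induction L with
    | nil => exact fun i => ⟨c.hH.one, one_mem _, by simp [y, code]⟩
    | cons j L ih =>
      refine fun i => ⟨c.hH.div (p.bH i _ (hb j).1 ((hb j).2.2 i).1.symm) (powH (ih i).1 _), ?_, ?_⟩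
      · simpa only [y, code, div_eq_mul_inv (1 - _ : E), inv_pow] using
          mul_mem ((hb j).2.2 i).2.1 (pow_mem (ih i).2.2 c.l)
      · simpa only [y, code, inv_div, div_eq_mul_inv (_ ^ _ : E)] using
          mul_mem (pow_mem (ih i).2.1 c.l) ((hb j).2.2 i).2.2
  have := (List.finite_length_le (Fin W) n).to_subtype
  obtain ⟨t', k1, k2, k3⟩ := c.absR _ (Set.finite_range fun q :
      {L : List (Fin W) | L.length ≤ n} × Fin N × Bool => cond q.2.2 (y q.1 q.2.1) (y q.1 q.2.1)⁻¹)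
    (by rintro _ ⟨⟨L, i, _ | _⟩, rfl⟩; exacts [(gy L i).2.2, (gy L i).2.1])
  have p' : c.Par b t t' := { p with tk' := k1, t0' := k2 }
  have st : ∀ j L, L.length ≤ n → c.Step b t t' (y (j :: L)) (c.s * f j) (y L) := fun j L hL =>
    ⟨(hb j).1, (hb j).2.1, fun i => ⟨div_mul_cancel₀ _ (pow_ne_zero _ (c.hH.ne (gy L i).1)),
      c.HH _ (gy L i).1, k3 _ ⟨(⟨L, hL⟩, i, true), rfl⟩, k3 _ ⟨(⟨L, hL⟩, i, false), rfl⟩,
      c.hH.ne (gy L i).1⟩⟩
  have st' : ∀ (L : List (Fin W)) m (hm : m < L.length), L.length ≤ n →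
      c.Step b t t' (y (L.drop m)) (c.s * f L[m]) (y (L.drop (m + 1))) := fun L m hm hL => by
    rw [List.drop_eq_getElem_cons hm]
    exact st _ _ (by rw [List.length_drop]; omega)
  have re : ∀ L : List (Fin W), L.length ≤ n → ∀ m ≤ L.length,
      c.Reach b t t' (y L) m (y (L.drop m)) := fun L hL m => by
    induction m with
    | zero => exact fun _ _ => rfl
    | succ m ih => exact fun hm => ⟨fun o => o.elim (c.s * f L[m]) (y (L.drop m)), ih (by omega),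
        st' L m hm hL⟩
  refine ⟨fun j => Sum.elim b ![t, t', c.s * f j], fun η => y (List.ofFn η), fun η m =>
    ⟨⟨fun q => y ((List.ofFn η).drop (cond q.1 m (m + 1))) q.2, re _ (by simp) _ (by simp), ?_⟩, ?_⟩⟩
  · simpa using st' (List.ofFn η) m (by simp) (by simp)
  obtain ⟨χ, hχ⟩ := h m b _ t t' p' (gy (List.ofFn η))
  choose! v h1 h2 using fun j (h : ∃ v : Bool × Fin N → E, c.Reach b t t' (y (List.ofFn η)) m
    (fun i => v (true, i)) ∧ c.Step b t t' (fun i => v (true, i)) (c.s * f j)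
      fun i => v (false, i)) => h
  rw [← Set.ncard_univ]
  refine Set.ncard_le_ncard_of_injOn (fun j => χ fun i => v j (true, i)) (fun _ _ => trivial)
    fun j hj j' hj' e => ?_
  by_contra k
  have k4 : f j - f j' ≠ 0 := sub_ne_zero.2 fun e => k (Fin.ext
    ((c.inf.natEmbedding _).injective (Subtype.ext e)))
  refine c.sJ ?_
  convert c.RJ _ (kR' (inv_mem (sub_mem (hf j) (hf j')))) _ ((h2 j' hj').near p'
    ((h1 j' hj').good p' (gy _)) ((h1 j hj).good p' (gy _)) (hχ _ _ (h1 j hj) (h1 j' hj') e)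
    (h2 j hj)).1 using 1
  field_simp

end Cod

end Pool.Agent.MP_829a8f_lc.H20

end MrgPart2

-- ======== part 3: formerly Pool.Agent.MP_829a8f_lc.h20.Top
section MrgPart3

/-!
The topology generated by a group `T` of arbitrary index is a locally bounded field topology as
soon as it is not discrete.
-/

namespace Pool.Agent.MP_829a8f_lc.H20

open H33 Filter

variable {F : Type} [Field F] {S : NS F} {T H : Set F}

lemma bstar (hT : MG T) (hH : MG H) (TH : ∀ x ∈ T, x ∈ H) {P : Set F} (hP : S.U P)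
    (hP' : ∀ x ∈ H, x ∈ P ↔ x ∈ T) {X : Set F}
    (lf : Cov T X fun y Y => ∀ x ∈ Y, ∀ x' ∈ Y, (x - y) / (x' - y) ∈ H) :
    Cov T X fun (p : F × F) Y => ∀ x ∈ Y, ∀ x' ∈ Y, (x - p.1) / p.2 ∈ T → (x' - p.1) / p.2 ∈ T := by
  obtain ⟨N, hN⟩ := hP.nip
  refine (((lf.mono (β' := F × F) Prod.fst fun _ _ _ h => h).bind (G' := fun Y b Z =>
    (∀ x ∈ Y, (x - b.1) / b.2 ∈ H) → ∀ x ∈ Z, ∀ x' ∈ Z, (x - b.1) / b.2 ∈ P →
      (x' - b.1) / b.2 ∈ P) fun Y hY => Cov.split ⟨hY.1, hY.2.1, le_rfl⟩ _ _ (fun b hb x hx => ?_)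
      ⟨N, fun ⟨a, x, h⟩ => hN ⟨fun j => (a j).1, fun j => (a j).2, x, h⟩⟩)).mono id ?_
  · have h1 := hb x hx
    have h0 : x - b.1 ≠ 0 := fun h => hH.ne h1 (by rw [h, zero_div])
    filter_upwards [hY.1 x hx, ev_div h0] with z h2 h3
    rw [hP' _ h1, hP' _ (hb _ h2)]
    have e : (x + z - b.1) / b.2 = (x - b.1 + z) / (x - b.1) * ((x - b.1) / b.2) := by
      rw [div_mul_div_cancel₀ h0, add_sub_right_comm]
    rw [e]
    exact ⟨fun h => by
      have := hT.mul (hT.inv h3) h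
      rwa [inv_mul_cancel_left₀ (hT.ne h3)] at this, hT.mul h3⟩
  · rintro b Z - ⟨Y, -, h1, h2, h3⟩ x hx x' hx' h
    have h0 : x - b.1 ≠ 0 := fun e => hT.ne h (by rw [e, zero_div])
    have h4 : ∀ y ∈ Y, (y - b.1) / b.2 ∈ H := fun y hy => by
      have := hH.mul (h2 y hy x (h1 hx)) (TH _ h)
      rwa [id, div_mul_div_cancel₀ h0] at this
    exact (hP' _ (h4 _ (h1 hx'))).1 (h3 h4 x hx x' hx' ((hP' _ (TH _ h)).2 h))

/-- The hypotheses on the group. -/
structure Dat (S : NS F) (T : Set F) : Prop where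
  hT : MG T
  dN : ∃ N, S.U N ∧ N ∈ nb T ∧ ∀ z ∈ N, 1 + z ∈ T
  q : ∃ q : F, q ≠ 0 ∧ q ∉ T
  nd : ∃ᶠ z in nb T, z ≠ 0
  st : ∀ X, Gd T X X → Cov T X fun (p : F × F) Y =>
    ∀ x ∈ Y, ∀ x' ∈ Y, (x - p.1) / p.2 ∈ T → (x' - p.1) / p.2 ∈ T

namespace Dat

variable (d : Dat S T)
include d

lemma star (J : Type) [Finite J] {X : Set F} (hX : Gd T X X) : Cov T X fun (y : J → F × F) Y =>
    ∀ j, ∀ x ∈ Y, ∀ x' ∈ Y, (x - (y j).1) / (y j).2 ∈ T → (x' - (y j).1) / (y j).2 ∈ T :=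
  Cov.all (fun j (y : J → F × F) Y =>
    ∀ x ∈ Y, ∀ x' ∈ Y, (x - (y j).1) / (y j).2 ∈ T → (x' - (y j).1) / (y j).2 ∈ T)
    (fun _ _ _ _ h h' x hx x' hx' => h' x (h hx) x' (h hx')) hX fun j _ hY =>
    (d.st _ ⟨hY.1, hY.2.1, le_rfl⟩).mono (fun y => y j) fun _ _ _ h => h

lemma defb {U : Set F} (hU : U ∈ nb T) : ∃ W ∈ nb T, W ⊆ U ∧ S.U W := by
  obtain ⟨N, h1, h2, h3⟩ := d.dN
  obtain ⟨A, hA, hU⟩ := nb_basis hU
  have := hA.to_subtype
  refine ⟨{z | ∀ a : A, a * z ∈ N}, eventually_all.2 fun a => nb_scal _ h2,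
    fun z hz => hU z fun a ha => h3 _ (hz ⟨a, ha⟩),
    NS.all fun a => h1.app ((NS.const _).mul (NS.proj _))⟩

lemma add2 (E : Set F) (hE : E ∈ nb2 T) : ∃ E' ∈ nb2 T, ∀ z ∈ E', ∀ z' ∈ E', z + z' ∈ E := by
  obtain ⟨U, hU, hE⟩ := mem_nb2.1 hE
  obtain ⟨A, hA, hU⟩ := nb_basis hU
  have := hA.to_subtype
  obtain ⟨𝒴, h1, h2, h3⟩ := d.star A (X := {z | ∀ a ∈ A, 1 + a * z ∈ T})
    ⟨d.hT.op_fin hA, ⟨0, fun a _ => by simpa using d.hT.one⟩, le_rfl⟩
  refine ⟨_, (eventually_all_finite h1).2 fun Y hY => (h2 Y hY).ev, fun z hz z' hz' => ?_⟩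
  obtain ⟨Y, hY, h4⟩ := h3 fun a => (z - (a : F)⁻¹, (a : F)⁻¹)
  obtain ⟨x, hx, hxz⟩ := hz Y hY
  obtain ⟨x', hx', hxz'⟩ := hz' Y hY
  convert hE _ (hU _ ((h2 Y hY).2.2 hxz')) (x' - z) (hU _ fun a ha => ?_) using 1
  · ring
  by_cases h0 : a = 0
  · simpa [h0] using d.hT.one
  convert h4 ⟨a, ha⟩ _ hxz x' hx' (by
    convert (h2 Y hY).2.2 hx a ha using 1
    field_simp
    ring) using 1
  field_simp
  ring

lemma mob2 : Tendsto (fun s => s / (1 + s)) (nb2 T) (nb2 T) := by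
  refine tendsto_div_one_add (S := S) (fun E h => d.hT.zero_mem (d.hT.le_nb2 h)) nb2_scal d.add2
    fun E hE => ?_
  obtain ⟨U, hU, hE⟩ := mem_nb2.1 hE
  obtain ⟨W, h1, h2, h3⟩ := d.defb hU
  refine ⟨_, ev_nb2 h1, ?_, NS.congr (NS.ex1 (P := fun v u => u ∈ W ∧ u - v () ∈ W) (S.and
    (h3.app (NS.proj _)) (h3.app ((NS.proj _).sub (NS.proj _))))) fun v => ?_⟩
  · rintro _ ⟨u, hu, u', hu', rfl⟩
    exact hE _ (h2 hu) _ (h2 hu')
  · exact exists_congr fun u => and_congr_right fun _ =>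
      ⟨fun ⟨u', h, e⟩ => by rwa [e, sub_sub_cancel], fun h => ⟨_, h, (sub_sub_cancel _ _).symm⟩⟩

lemma ev_mem {X Y : Set F} (h : Gd T X Y) : ∀ᶠ s in nb2 T, ∃ α ∈ Y, 1 + α * s ∈ T := by
  obtain ⟨c, hc⟩ := h.2.1
  filter_upwards [ev_nb2 ((nb_ev c).and ((d.hT.mob (-c ^ 2) c).eventually (h.1 c hc)))]
    with s ⟨u, hu, u', hu', hs⟩
  refine ⟨_, hu'.2, ?_⟩
  have h0 := d.hT.ne hu'.1
  convert d.hT.div hu.1 hu'.1 using 1
  have e : c + -c ^ 2 * u' / (1 + c * u') = c / (1 + c * u') := by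
    rw [eq_div_iff h0, add_mul, div_mul_cancel₀ _ h0]
    ring
  rw [e, hs, eq_div_iff h0, add_mul, mul_right_comm, div_mul_cancel₀ _ h0]
  ring

lemma ev_ne : ∀ᶠ s in nb2 T, 1 + s ≠ 0 := by
  obtain ⟨q, h0, hq⟩ := d.q
  filter_upwards [ev_nb2 ((nb_ev (q - 1)).and (nb_ev ((q - 1) / q)))] with s ⟨u, hu, u', hu', hs⟩ h
  refine hq ?_
  have h1 := d.hT.ne hu.2
  convert d.hT.div hu'.1 hu.2 using 1
  rw [eq_div_iff h1, show u' = 1 + u by linear_combination hs - h]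
  field_simp
  ring

lemma ev_one_add : ∀ᶠ s in nb2 T, 1 + s ∈ T := by
  obtain ⟨𝒴, h1, h2, h3⟩ := d.star (Fin 2) (X := Set.univ) ⟨op_univ, Set.univ_nonempty, le_rfl⟩
  obtain ⟨l, hl0, hl⟩ := (d.nd.and_eventually (d.hT.le_nb2
    ((eventually_all_finite h1).2 fun Y hY => (h2 Y hY).ev))).exists
  have h4 := (nb2_scal l⁻¹).eventually ((eventually_all_finite h1).2 fun Y hY => d.ev_mem (h2 Y hY))
  filter_upwards [h4, d.mob2.eventually h4, d.ev_ne] with s k1 k2 k3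
  by_cases h0 : s = 0
  · simpa [h0] using d.hT.one
  obtain ⟨Y, hY, h5⟩ := h3 ![(-(l / s), l / s), (-(l / s) - l, l / s * (1 + s))]
  obtain ⟨x, hx, hx'⟩ := hl Y hY
  obtain ⟨α, hα, hα'⟩ := k1 Y hY
  obtain ⟨β, hβ, hβ'⟩ := k2 Y hY
  have h6 : (x + l - -(l / s)) / (l / s) ∈ T := h5 0 _ hα _ hx' (by
    change (α - -(l / s)) / (l / s) ∈ T
    convert hα' using 1
    field_simp
    ring)
  have h7 : (x - (-(l / s) - l)) / (l / s * (1 + s)) ∈ T := h5 1 _ hβ _ hx (by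
    change (β - (-(l / s) - l)) / (l / s * (1 + s)) ∈ T
    convert hβ' using 1
    field_simp
    ring)
  rw [show x - (-(l / s) - l) = x + l - -(l / s) by ring] at h7
  have h8 : x + l - -(l / s) ≠ 0 := fun h => d.hT.ne h6 (by rw [h, zero_div])
  convert d.hT.div h6 h7 using 1
  generalize x + l - -(l / s) = a at *
  field_simp

lemma exists_sub : ∃ A : Set F, A.Finite ∧ ∀ u u', (∀ a ∈ A, 1 + a * u ∈ T) →
    (∀ a ∈ A, 1 + a * u' ∈ T) → 1 + (u - u') ∈ T := by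
  obtain ⟨U, hU, h⟩ := mem_nb2.1 d.ev_one_add
  obtain ⟨A, hA, hU⟩ := nb_basis hU
  exact ⟨A, hA, fun u u' hu hu' => h _ (hU u hu) _ (hU u' hu')⟩

lemma exists_bd : ∃ E ∈ nb T, Bd T E := by
  obtain ⟨A, hA, h⟩ := d.exists_sub
  have := hA.to_subtype
  obtain ⟨𝒴, h1, h2, h3⟩ := d.star A (X := Set.univ) ⟨op_univ, Set.univ_nonempty, le_rfl⟩
  choose! c hc using fun Y hY => (h2 Y hY).2.1
  refine ⟨_, d.hT.le_nb2 ((eventually_all_finite h1).2 fun Y hY => (h2 Y hY).ev), ?_⟩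
  filter_upwards [(eventually_all_finite h1).2 fun Y _ => (eventually_all_finite hA).2
    fun a _ => nb_ev (T := T) (a * c Y)] with v hv s hs
  obtain ⟨Y, hY, h4⟩ := h3 fun a => (-(a * v)⁻¹, (a * v)⁻¹)
  obtain ⟨x, hx, hx'⟩ := hs Y hY
  have key : ∀ x ∈ Y, ∀ a ∈ A, 1 + a * (v * x) ∈ T := by
    intro x hx a ha
    by_cases h0 : a * v = 0
    · rw [← mul_assoc, h0, zero_mul, add_zero]
      exact d.hT.one
    have e : ∀ y, (y - -(a * v)⁻¹) / (a * v)⁻¹ = 1 + a * (v * y) := fun y => by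
      rw [div_inv_eq_mul, sub_neg_eq_add, add_mul, inv_mul_cancel₀ h0]
      ring
    exact e x ▸ h4 ⟨a, ha⟩ _ (hc Y hY) x hx (by
      rw [e, mul_comm v, ← mul_assoc]
      exact hv Y hY a ha)
  convert h _ _ (key _ hx') (key _ hx) using 2
  ring

end Dat

/-- A gauge relative to a field of constants. -/
structure RG (k : Subfield F) (V : Set F) : Prop where
  one : (1 : F) ∈ V
  neg : ∀ {x}, x ∈ V → -x ∈ V
  mul : ∀ {x y}, x ∈ V → y ∈ V → x * y ∈ V
  add : ∃ g ∈ k, g ≠ 0 ∧ ∀ x ∈ V, ∀ y ∈ V, g * (x + y) ∈ V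
  dir : ∀ A : Set F, A.Finite → A ⊆ k → ∃ t ∈ k, t ≠ 0 ∧ ∀ a ∈ A, t * a ∈ V
  inv : ∃ c ∈ k, c ≠ 0 ∧ ∀ x ∈ V, 1 + c * x ≠ 0 ∧ c * x / (1 + c * x) ∈ V

theorem Dat.gauge (d : Dat S T) :
    ∃ V, S.U V ∧ RG ⊤ V ∧ V ∈ nb T ∧ ∃ c : F, c ≠ 0 ∧ ∀ x ∈ V, 1 + c * x ∈ T := by
  obtain ⟨E, hE, hEb⟩ := d.exists_bd
  obtain ⟨W₀, h1, h2, h3⟩ := d.defb hE
  let W : Set F := {w | w ∈ W₀ ∧ -w ∈ W₀}
  have hW : W ∈ nb T := Eventually.and h1
    (((nb_scal (-1)).eventually h1).mono fun w hw => by rwa [neg_one_mul] at hw)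
  have hWb : Bd T W := hEb.mono fun u hu x hx => hu x (h2 hx.1)
  have hWd : S.U W := S.and h3 (h3.app (NS.proj _).neg)
  let V : Set F := {x | ∀ w ∈ W, x * w ∈ W}
  have hV : V ∈ nb T := hWb.ev hW
  have hVb : Bd T V := by
    obtain ⟨w, h0, hw⟩ := (d.nd.and_eventually hW).exists
    filter_upwards [(nb_scal w⁻¹).eventually hWb] with u hu x hx
    convert hu _ (hx w hw) using 2
    field_simp
  have hneg : ∀ {x}, x ∈ V → -x ∈ V := fun hx w hw => by
    simpa only [W, Set.mem_ofPred_eq, neg_mul, neg_neg, and_comm] using hx w hw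
  have key : ∀ {X U : Set F}, Bd T X → U ∈ nb T → ∃ g : F, g ≠ 0 ∧ ∀ x ∈ X, g * x ∈ U :=
    fun h hU => (d.nd.and_eventually (h.ev hU)).exists
  refine ⟨V, NS.all1 (P := fun v w => w ∈ W → v () * w ∈ W) (NS.imp (hWd.app (NS.proj _))
    (hWd.app ((NS.proj _).mul (NS.proj _)))), ⟨fun w hw => by rwa [one_mul], hneg,
    fun hx hy w hw => by rw [mul_assoc]; exact hx _ (hy w hw), ?_, fun A hA _ => ?_, ?_⟩, hV,
    key hVb (U := {z | 1 + z ∈ T}) ((nb_ev 1).mono fun z hz => by simpa using hz)⟩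
  · obtain ⟨A, hA, h⟩ := d.exists_sub
    obtain ⟨g, h0, hg⟩ := key (X := {z | ∃ x ∈ V, ∃ y ∈ V, z = x + y}) (by
      filter_upwards [hVb.ev ((eventually_all_finite hA).2 fun a _ => nb_ev (T := T) a)] with u hu
      rintro _ ⟨x, hx, y, hy, rfl⟩
      convert h _ _ (hu x hx) (hu _ (hneg hy)) using 2
      ring) hV
    exact ⟨g, trivial, h0, fun x hx y hy => hg _ ⟨x, hx, y, hy, rfl⟩⟩
  · obtain ⟨t, h0, ht⟩ := (d.nd.and_eventually
      ((eventually_all_finite hA).2 fun a _ => nb_scal a hV)).exists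
    exact ⟨t, trivial, h0, fun a ha => mul_comm a t ▸ ht a ha⟩
  · obtain ⟨c, h0, hc⟩ := key hVb ((nb_ev 1).and ((d.hT.mob 1 1).eventually hV))
    refine ⟨c, trivial, h0, fun x hx => ?_⟩
    have := hc x hx
    simp only [Set.mem_ofPred_eq, one_mul] at this
    exact ⟨d.hT.ne this.1, this.2⟩

end Pool.Agent.MP_829a8f_lc.H20

end MrgPart3

-- ======== part 4: formerly Pool.Agent.MP_829a8f_lc.h20.Mod
section MrgPart4

/-!
Modules over a gauge: the chain condition with constants and its consequences.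
-/

namespace Pool.Agent.MP_829a8f_lc.H20

open H33 Finset

variable {E : Type} [Field E] {S : NS E} {k : Subfield E} {V M : Set E}

/-- A module over a gauge. -/
structure GM (k : Subfield E) (V M : Set E) : Prop where
  zero : (0 : E) ∈ M
  mul : ∀ {v m}, v ∈ V → m ∈ M → v * m ∈ M
  add : ∃ g ∈ k, g ≠ 0 ∧ ∀ x ∈ M, ∀ y ∈ M, g * (x + y) ∈ M

lemma RG.zero (hV : RG k V) : (0 : E) ∈ V := by
  obtain ⟨t, -, -, ht⟩ := hV.dir {0} (Set.finite_singleton _) (by simp)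
  simpa using ht 0 rfl

lemma RG.gm (hV : RG k V) : GM k V V := ⟨hV.zero, hV.mul, hV.add⟩

namespace GM

variable (hV : RG k V) (hM : GM k V M)
include hV hM

lemma neg {x : E} (hx : x ∈ M) : -x ∈ M := by simpa using hM.mul (hV.neg hV.one) hx

lemma com {ι : Type} {A : Set ι} (hA : A.Finite) {P : ι → E → Prop}
    (h : ∀ i ∈ A, ∃ t ∈ k, t ≠ 0 ∧ ∀ x, P i x → t * x ∈ M) :
    ∃ t ∈ k, t ≠ 0 ∧ ∀ i ∈ A, ∀ x, P i x → t * x ∈ M := by
  choose! t h1 h2 h3 using h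
  obtain ⟨r, k1, k2, k3⟩ := hV.dir _ (hA.image fun i => (t i)⁻¹)
    (by rintro _ ⟨i, hi, rfl⟩; exact inv_mem (h1 i hi))
  refine ⟨r, k1, k2, fun i hi x hx => ?_⟩
  have := hM.mul (k3 _ ⟨i, hi, rfl⟩) (h3 i hi x hx)
  rwa [← mul_assoc, inv_mul_cancel_right₀ (h2 i hi)] at this

lemma sum (n : ℕ) : ∃ g ∈ k, g ≠ 0 ∧ ∀ {α : Type} (s : Finset α) (f : α → E), s.card ≤ n →
    (∀ a ∈ s, f a ∈ M) → g * ∑ a ∈ s, f a ∈ M := by
  classical
  induction n with
  | zero => exact ⟨1, one_mem _, one_ne_zero, fun s f hs _ => by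
      simpa [card_eq_zero.1 (Nat.le_zero.1 hs)] using hM.zero⟩
  | succ n ih =>
    obtain ⟨g, h1, h2, h3⟩ := ih
    obtain ⟨g', k1, k2, k3⟩ := hM.add
    obtain ⟨t, m1, m2, m3⟩ := hV.dir {1, g⁻¹} (Set.toFinite _) (by
      rintro _ (rfl | rfl)
      exacts [one_mem _, inv_mem h1])
    refine ⟨g' * t, mul_mem k1 m1, mul_ne_zero k2 m2, fun s f hs hf => ?_⟩
    rcases s.eq_empty_or_nonempty with rfl | ⟨a, ha⟩
    · simpa using hM.zero
    have := k3 _ (hM.mul (m3 1 (by simp)) (hf a ha)) _ (hM.mul (m3 g⁻¹ (by simp)) (h3 (s.erase a) f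
      (by rw [card_erase_of_mem ha]; omega) fun b hb => hf b (mem_of_mem_erase hb)))
    rw [← add_sum_erase _ _ ha]
    convert this using 1
    field_simp

/-- The chain condition with constants. -/
theorem bs (hd : S.U M) : ∃ N : ℕ, ∃ g ∈ k, g ≠ 0 ∧ ∀ {α : Type} (A : Finset α) (l : α → E),
    N ≤ A.card → ∃ j ∈ A, ∀ z, (∀ i ∈ A, i ≠ j → z / l i ∈ M) → g * (z / l j) ∈ M := by
  classical
  obtain ⟨N, hN⟩ := NS.U.nip (S := S) (X := Mᶜ) (S.not hd)
  obtain ⟨g, h1, h2, h3⟩ := hM.sum hV N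
  obtain ⟨g', k1, k2, k3⟩ := hM.add
  refine ⟨N, g' * g, mul_mem k1 h1, mul_ne_zero k2 h2, fun A l hA => ?_⟩
  by_contra h
  push Not at h
  choose! z h4 h5 using h
  obtain ⟨e⟩ := Function.Embedding.nonempty_of_card_le (α := Fin N) (β := A) (by simpa using hA)
  have h6 : ∀ (s : Finset (Fin N)) j, j ∉ s → g * ∑ i ∈ s, z (e i) / l (e j) ∈ M := fun s j hj =>
    h3 s _ (by simpa using card_le_univ s) fun i hi => h4 _ (e i).2 _ (e j).2 fun q =>
      hj (e.injective (Subtype.ext q) ▸ hi)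
  refine hN ⟨0, fun j => l (e j), fun s => g * ∑ i ∈ univ.filter (· ∈ s), z (e i), fun s j => ?_⟩
  simp only [Pi.zero_apply, sub_zero, Set.mem_compl_iff, mul_div_assoc, sum_div]
  refine ⟨fun h => by_contra fun hj => h (h6 _ j (by simpa using hj)), fun hj h => ?_⟩
  rw [← add_sum_erase _ _ (show j ∈ univ.filter (· ∈ s) by simpa using hj)] at h
  refine h5 _ (e j).2 ?_
  convert k3 _ h _ (hM.neg hV (h6 _ j (notMem_erase j (univ.filter (· ∈ s))))) using 1
  ring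

/-- Multipliers up to constants. -/
def End : Subring E where
  carrier := {r | ∃ t ∈ k, t ≠ 0 ∧ ∀ m ∈ M, t * (r * m) ∈ M}
  zero_mem' := ⟨1, one_mem _, one_ne_zero, fun m _ => by simpa using hM.zero⟩
  one_mem' := ⟨1, one_mem _, one_ne_zero, fun m h => by simpa using h⟩
  add_mem' := by
    intro x y hx hy
    obtain ⟨g, k1, k2, k3⟩ := hM.add
    obtain ⟨t, h1, h2, h3⟩ := hM.com hV (Set.toFinite {x, y}) (P := fun r z => ∃ m ∈ M, z = r * m)
      (by
        rintro _ (rfl | rfl)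
        · obtain ⟨t, h1, h2, h3⟩ := hx
          exact ⟨t, h1, h2, by rintro _ ⟨m, h, rfl⟩; exact h3 m h⟩
        · obtain ⟨t, h1, h2, h3⟩ := hy
          exact ⟨t, h1, h2, by rintro _ ⟨m, h, rfl⟩; exact h3 m h⟩)
    refine ⟨g * t, mul_mem k1 h1, mul_ne_zero k2 h2, fun m hm => ?_⟩
    convert k3 _ (h3 x (by simp) _ ⟨m, hm, rfl⟩) _ (h3 y (by simp) _ ⟨m, hm, rfl⟩) using 1
    ring
  mul_mem' := by
    rintro x y ⟨s, h1, h2, h3⟩ ⟨t, k1, k2, k3⟩
    refine ⟨s * t, mul_mem h1 k1, mul_ne_zero h2 k2, fun m hm => ?_⟩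
    convert h3 _ (k3 m hm) using 1
    ring
  neg_mem' := by
    rintro x ⟨s, h1, h2, h3⟩
    exact ⟨s, h1, h2, fun m hm => by simpa using hM.neg hV (h3 m hm)⟩

lemma V_End {v : E} (hv : v ∈ V) : v ∈ hM.End hV :=
  ⟨1, one_mem _, one_ne_zero, fun m h => by simpa using hM.mul hv h⟩

lemma k_End {c : E} (hc : c ∈ k) : c ∈ hM.End hV := by
  obtain ⟨t, h1, h2, h3⟩ := hV.dir {c} (Set.finite_singleton _) (by simpa using hc)
  exact ⟨t, h1, h2, fun m hm => mul_assoc t c m ▸ hM.mul (h3 c rfl) hm⟩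

lemma abs {A : Set E} (hA : A.Finite) (h : A ⊆ hM.End hV) :
    ∃ t ∈ k, t ≠ 0 ∧ ∀ a ∈ A, ∀ m ∈ M, t * a * m ∈ M := by
  obtain ⟨t, h1, h2, h3⟩ := hM.com hV hA (P := fun r z => ∃ m ∈ M, z = r * m) fun a ha => by
    obtain ⟨t, h1, h2, h3⟩ := h ha
    exact ⟨t, h1, h2, by rintro _ ⟨m, h, rfl⟩; exact h3 m h⟩
  exact ⟨t, h1, h2, fun a ha m hm => mul_assoc t a m ▸ h3 a ha _ ⟨m, hm, rfl⟩⟩

/-- The ring of multipliers is semilocal. -/
theorem semi (hd : S.U M) : ∃ N : ℕ, ∀ C : Finset E, ↑C ⊆ (k : Set E) → N ≤ C.card →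
    ∀ r ∈ hM.End hV, ∃ c ∈ C, r ≠ c ∧ (r - c)⁻¹ ∈ hM.End hV := by
  classical
  obtain ⟨N, g, h1, h2, h3⟩ := hM.bs hV hd
  refine ⟨N + 2, fun C hC hN r hr => ?_⟩
  by_cases h : r ∈ C
  · obtain ⟨c, hc, e⟩ := exists_mem_ne (s := C) (by omega) r
    exact ⟨c, hc, e.symm, hM.k_End hV (inv_mem (sub_mem (hC h) (hC hc)))⟩
  obtain ⟨c, hc, h4⟩ := h3 C (fun c => r - c) (by omega)
  have h5 : ∀ s ⊆ C, ∏ d ∈ s, (r - d) ∈ hM.End hV := fun s hs =>
    prod_mem fun d h => sub_mem hr (hM.k_End hV (hC (hs h)))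
  have h0 : ∀ d ∈ C, r - d ≠ 0 := fun d h' => sub_ne_zero.2 (ne_of_mem_of_not_mem h' h).symm
  have h6 : ∀ s ⊆ C.erase c, (∏ d ∈ s, (r - d)) / (r - c) ∈ hM.End hV → (r - c)⁻¹ ∈ hM.End hV := by
    intro s
    induction s using Finset.induction_on with
    | empty => exact fun _ h => by simpa using h
    | insert a s ha ih =>
      intro hs h
      obtain ⟨k1, k2⟩ := insert_subset_iff.1 hs
      obtain ⟨k3, k4⟩ := mem_erase.1 k1
      refine ih k2 ?_
      rw [prod_insert ha] at h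
      convert mul_mem (hM.k_End hV (inv_mem (sub_mem (hC hc) (hC k4))))
        (sub_mem h (h5 s (k2.trans (erase_subset _ _)))) using 1
      have := h0 c hc
      have := sub_ne_zero.2 k3.symm
      field_simp
      ring
  refine ⟨c, hc, sub_ne_zero.1 (h0 c hc), h6 _ subset_rfl ?_⟩
  obtain ⟨t, k1, k2, k3⟩ := hM.abs hV ((C.finite_toSet).image
    fun d => ∏ e ∈ (C.erase c).erase d, (r - e)) (by
      rintro _ ⟨d, -, rfl⟩
      exact h5 _ ((erase_subset _ _).trans (erase_subset _ _)))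
  refine ⟨g * t, mul_mem h1 k1, mul_ne_zero h2 k2, fun m hm => ?_⟩
  convert h4 (t * (∏ d ∈ C.erase c, (r - d)) * m) fun d hd e => ?_ using 1
  · ring
  convert k3 _ ⟨d, hd, rfl⟩ m hm using 1
  rw [← mul_prod_erase _ _ (mem_erase.2 ⟨e, hd⟩)]
  field_simp [h0 d hd]

/-- The infinitesimal part. -/
def Inf : AddSubgroup E where
  carrier := {z | ∀ h ∈ k, h * z ∈ M}
  zero_mem' := fun h _ => by simpa using hM.zero
  add_mem' := by
    intro x y hx hy h hh
    obtain ⟨g, k1, k2, k3⟩ := hM.add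
    convert k3 _ (hx _ (div_mem hh k1)) _ (hy _ (div_mem hh k1)) using 1
    field_simp
  neg_mem' := fun hx h hh => by simpa using hx _ (neg_mem hh)

lemma End_Inf {r j : E} (hr : r ∈ hM.End hV) (hj : j ∈ hM.Inf) : r * j ∈ hM.Inf := by
  obtain ⟨t, h1, h2, h3⟩ := hr
  intro h hh
  convert h3 _ (hj _ (div_mem hh h1)) using 1
  field_simp

end GM

/-- Finitely many roots of unity modulo a radical ideal of a semilocal ring. -/
theorem col_of_semi {R : Subring E} {J : AddSubgroup E} {C : Set E} (hf : C.Finite) (hC : C ⊆ R)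
    (hs : ∀ r ∈ R, ∃ c ∈ C, r ≠ c ∧ (r - c)⁻¹ ∈ R)
    (RJ : ∀ r ∈ R, ∀ j ∈ J, r * j ∈ J) (jac : ∀ j ∈ J, 1 + j ≠ 0 ∧ (1 + j)⁻¹ ∈ R) {l : ℕ}
    (hl : (l : E) ≠ 0) (hl' : (l : E)⁻¹ ∈ R) :
    ∃ (κ : Type) (_ : Finite κ) (χ : E → κ), ∀ x ∈ R, ∀ y ∈ R, x ^ l - 1 ∈ J → y ^ l - 1 ∈ J →
      χ x = χ y → x - y ∈ J := by
  classical
  have hl0 : l ≠ 0 := fun h => hl (by simp [h])
  have hfin : Finite (MaximalSpectrum R) := by
    by_contra h
    have := not_finite_iff_infinite.1 h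
    have := hf.to_subtype
    obtain ⟨n, ⟨e⟩⟩ := Finite.exists_equiv_fin C
    let P : C → MaximalSpectrum R := fun c => Infinite.natEmbedding _ (e c)
    have hP : Function.Injective P :=
      (Infinite.natEmbedding _).injective.comp (Fin.val_injective.comp e.injective)
    obtain ⟨x, hx⟩ := Ideal.exists_forall_sub_mem_ideal (I := fun c => (P c).asIdeal)
      (fun i j hij => Ideal.isCoprime_iff_sup_eq.2 ((P i).isMaximal.coprime_of_ne (P j).isMaximal
        fun h => hij (hP (MaximalSpectrum.ext h)))) fun c => ⟨c, hC c.2⟩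
    obtain ⟨c, hc, h0, hu⟩ := hs x x.2
    refine (P ⟨c, hc⟩).isMaximal.isPrime.one_notMem ?_
    convert Ideal.mul_mem_left _ ⟨_, hu⟩ (hx ⟨c, hc⟩) using 1
    exact Subtype.ext (by simp [sub_ne_zero.2 h0])
  have hJ : ∀ (P : MaximalSpectrum R) (j : R), (j : E) ∈ J → j ∈ P.asIdeal := fun P j hj => by
    by_contra h
    obtain ⟨b, c, hc, e⟩ := P.isMaximal.exists_inv h
    obtain ⟨k1, k2⟩ := jac _ (RJ _ (neg_mem b.2) _ hj)
    refine P.isMaximal.isPrime.one_notMem ?_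
    convert Ideal.mul_mem_left _ ⟨_, k2⟩ hc using 1
    refine Subtype.ext ?_
    have e' : (c : E) = 1 + -b * j := by
      have := congrArg Subtype.val e
      push_cast at this
      linear_combination this
    simp only [OneMemClass.coe_one, MulMemClass.coe_mul, e', inv_mul_cancel₀ k1]
  have h2 : ∀ (P : MaximalSpectrum R) (x : R), (x : E) ^ l - 1 ∈ J →
      Ideal.Quotient.mk P.asIdeal x ^ l = 1 := fun P x h => by
    rw [← map_pow, ← map_one (Ideal.Quotient.mk P.asIdeal), Ideal.Quotient.eq]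
    exact hJ P _ (by simpa using h)
  have h3 : ∀ P : MaximalSpectrum R, Finite {z : R ⧸ P.asIdeal | z ^ l = 1} := fun P => by
    have := P.isMaximal.isPrime
    exact ((Polynomial.nthRoots l (1 : R ⧸ P.asIdeal)).toFinset.finite_toSet.subset fun z hz => by
      simpa [Polynomial.mem_nthRoots (Nat.pos_of_ne_zero hl0)] using hz).to_subtype
  refine ⟨∀ P : MaximalSpectrum R, {z : R ⧸ P.asIdeal | z ^ l = 1}, inferInstance, fun x P =>
    if h : x ∈ R ∧ x ^ l - 1 ∈ J then ⟨_, h2 P ⟨x, h.1⟩ h.2⟩ else ⟨1, one_pow l⟩,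
    fun x hx y hy h h' e => ?_⟩
  lift x to R using hx
  lift y to R using hy
  have h4 : IsUnit (∑ i ∈ range l, x ^ i * y ^ (l - 1 - i)) := by
    by_contra k
    obtain ⟨P, hP, k⟩ := exists_max_ideal_of_mem_nonunits k
    have e1 := congrFun e ⟨P, hP⟩
    simp only [dif_pos (And.intro x.2 h), dif_pos (And.intro y.2 h'), Subtype.mk.injEq] at e1
    have := hP.isPrime
    have k1 := h2 ⟨P, hP⟩ y h'
    rw [← Ideal.Quotient.eq_zero_iff_mem, map_sum] at k
    simp only [map_mul, map_pow, e1] at k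
    rw [geom_sum₂_self, mul_eq_zero] at k
    rcases k with k | k
    · refine one_ne_zero (α := R ⧸ P) ?_
      rw [← map_one (Ideal.Quotient.mk P), show (1 : R) = ⟨_, hl'⟩ * l from Subtype.ext (by simp [hl]),
        map_mul, map_natCast, k, mul_zero]
    · exact one_ne_zero (k1.symm.trans (by rw [pow_eq_zero_iff hl0]; exact eq_zero_of_pow_eq_zero k))
  obtain ⟨b, hb⟩ := h4.exists_left_inv
  have h5 := congrArg (fun z : R => (b * z : E)) (geom_sum₂_mul x y l)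
  convert RJ _ b.2 _ (sub_mem h h') using 1
  rw [sub_sub_sub_cancel_right]
  have h6 := congrArg Subtype.val hb
  push_cast at h5 h6
  rw [← h5, ← mul_assoc, h6, one_mul]

variable (k V) in
/-- Uniformly bounded families. -/
def UB {α : Type} (f : α → E) : Prop := ∃ t ∈ k, t ≠ 0 ∧ ∀ a, t * f a ∈ V

variable (k V) in
/-- The pole at `c` is controlled by the poles in `A`. -/
def Red (x c : E) (A : Finset E) : Prop :=
  ∀ (α : Type) (f : α → E), (∀ e ∈ A, UB k V fun a => f a / (x - e)) → UB k V fun a => f a / (x - c)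

namespace RG

variable (hV : RG k V) {x : E}
include hV

lemma lin {α : Type} {f g h : α → E} (hf : UB k V f) (hg : UB k V g) {c d : E} (hc : c ∈ k)
    (hd : d ∈ k) (e : ∀ a, h a = c * f a + d * g a) : UB k V h := by
  obtain ⟨s, h1, h2, h3⟩ := hf
  obtain ⟨t, k1, k2, k3⟩ := hg
  obtain ⟨γ, m1, m2, m3⟩ := hV.add
  obtain ⟨r, n1, n2, n3⟩ := hV.dir {c / s, d / t} (Set.toFinite _) (by
    rintro _ (rfl | rfl)
    exacts [div_mem hc h1, div_mem hd k1])
  refine ⟨γ * r, mul_mem m1 n1, mul_ne_zero m2 n2, fun a => ?_⟩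
  convert m3 _ (hV.mul (n3 (c / s) (by simp)) (h3 a)) _ (hV.mul (n3 (d / t) (by simp)) (k3 a))
    using 1
  rw [e]
  field_simp

lemma com {α ι : Type} {A : Set ι} (hA : A.Finite) {f : ι → α → E} (h : ∀ i ∈ A, UB k V (f i)) :
    ∃ t ∈ k, t ≠ 0 ∧ ∀ i ∈ A, ∀ a, t * f i a ∈ V := by
  obtain ⟨t, h1, h2, h3⟩ := hV.gm.com hV hA (P := fun i z => ∃ a, z = f i a) fun i hi => by
    obtain ⟨t, h1, h2, h3⟩ := h i hi
    exact ⟨t, h1, h2, by rintro _ ⟨a, rfl⟩; exact h3 a⟩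
  exact ⟨t, h1, h2, fun i hi a => h3 i hi _ ⟨a, rfl⟩⟩

variable (hx : x ∉ k)
include hx

lemma frac {α : Type} {f : α → E} {c d e : E} (hc : c ∈ k) (hd : d ∈ k) (he : e ∈ k) (h : c ≠ e)
    (h1 : UB k V fun a => f a / (x - c)) (h2 : UB k V fun a => f a / (x - e)) :
    UB k V fun a => f a * ((x - d) / (x - c)) / (x - e) := by
  refine hV.lin h1 h2 (div_mem (sub_mem hc hd) (sub_mem hc he))
    (div_mem (sub_mem hd he) (sub_mem hc he)) fun a => ?_
  have := sub_ne_zero.2 h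
  have := sub_ne_zero.2 (ne_of_mem_of_not_mem hc hx).symm
  have := sub_ne_zero.2 (ne_of_mem_of_not_mem he hx).symm
  field_simp
  ring

lemma exch [DecidableEq E] {c : E} (hc : c ∈ k) {A' : Finset E} (hA' : ↑A' ⊆ (k : Set E))
    (h' : c ∉ A') (n : ℕ) : ∀ A : Finset E, ↑A ⊆ (k : Set E) → c ∉ A → A.card ≤ A'.card →
      (A \ A').card = n → Red k V x c A → Red k V x c A' := by
  induction n with
  | zero =>
    exact fun A _ _ _ h hr α f hf =>
      hr α f fun e he => hf e (sdiff_eq_empty_iff_subset.1 (card_eq_zero.1 h) he)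
  | succ n ih =>
    intro A hA h hc' hn hr
    obtain ⟨e, he''⟩ := card_pos.1 (hn ▸ n.succ_pos : 0 < (A \ A').card)
    obtain ⟨he, he'⟩ := mem_sdiff.1 he''
    obtain ⟨d, hd, hd'⟩ : ∃ d ∈ A', d ∉ A := by
      by_contra q
      push Not at q
      exact he' (eq_of_subset_of_card_le q hc' ▸ he)
    have k1 : d ∉ A.erase e := fun q => hd' (mem_of_mem_erase q)
    have k2 : c ≠ d := (ne_of_mem_of_not_mem hd h').symm
    refine ih (insert d (A.erase e)) (by
      rw [coe_insert]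
      exact Set.insert_subset (hA' hd) fun _ q => hA (mem_of_mem_erase q))
      (by simp [k2, h]) (by rw [card_insert_of_notMem k1, card_erase_add_one he]; exact hc') (by
      rw [insert_sdiff_of_mem _ hd, erase_sdiff_comm, card_erase_of_mem he'', hn]; rfl) ?_
    intro α f hf
    have k3 := hf d (mem_insert_self _ _)
    have k4 := sub_ne_zero.2 (ne_of_mem_of_not_mem (hA he) hx).symm
    have k5 := sub_ne_zero.2 (ne_of_mem_of_not_mem (hA' hd) hx).symm
    have k6 := sub_ne_zero.2 (ne_of_mem_of_not_mem hc hx).symm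
    have k7 := sub_ne_zero.2 (ne_of_mem_of_not_mem he h).symm
    refine hV.lin (hr α (fun a => f a * ((x - e) / (x - d))) fun e' q => ?_) k3
      (div_mem (sub_mem hc (hA' hd)) (sub_mem hc (hA he)))
      (div_mem (sub_mem (hA' hd) (hA he)) (sub_mem hc (hA he))) fun a => ?_
    · by_cases q' : e' = e
      · convert k3 using 2 with a
        rw [q']
        field_simp
      · exact hV.frac hx (hA' hd) (hA he) (hA q) (ne_of_mem_of_not_mem q hd').symm k3
          (hf _ (mem_insert_of_mem (mem_erase.2 ⟨q', q⟩)))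
    · field_simp
      ring

omit hx in
theorem exists_red (hd : S.U V) : ∃ N : ℕ, ∀ x ∉ k, ∀ C : Finset E, ↑C ⊆ (k : Set E) →
    N ≤ C.card → ∃ A ⊆ C, 1 < A.card ∧ ∀ c ∈ A, ∃ A' ⊆ A, c ∉ A' ∧ Red k V x c A' := by
  classical
  obtain ⟨N, g, h1, h2, h3⟩ := hV.gm.bs hV hd
  refine ⟨2 * N + 2, fun x hx C hC hN => ?_⟩
  let G : E → Prop := fun c => ∀ A : Finset E, ↑A ⊆ (k : Set E) → c ∉ A → N ≤ A.card → Red k V x c A
  have h4 : (C.filter fun c => ¬ G c).card < N := by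
    by_contra h
    obtain ⟨B, k1, k2⟩ := exists_subset_card_eq (not_lt.1 h)
    have k3 : ↑B ⊆ (k : Set E) := fun _ q => hC (mem_filter.1 (k1 q)).1
    obtain ⟨c, hc, k4⟩ := h3 B (fun c => x - c) k2.ge
    refine (mem_filter.1 (k1 hc)).2 fun A hA q q' => hV.exch hx (k3 hc) hA q _ (B.erase c)
      (fun _ q => k3 (mem_of_mem_erase q)) (notMem_erase _ _) (card_erase_le.trans (k2 ▸ q')) rfl
      fun α f hf => ?_
    obtain ⟨t, m1, m2, m3⟩ := hV.com (B.erase c).finite_toSet hf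
    refine ⟨g * t, mul_mem h1 m1, mul_ne_zero h2 m2, fun a => ?_⟩
    convert k4 (t * f a) fun i hi e => mul_div_assoc t _ _ ▸ m3 i (mem_erase.2 ⟨e, hi⟩) a using 1
    ring
  have h5 := card_filter_add_card_filter_not (s := C) G
  refine ⟨C.filter G, filter_subset _ _, by omega, fun c hc => ⟨_, erase_subset _ _,
    notMem_erase _ _, (mem_filter.1 hc).2 _ (fun _ q => hC (mem_filter.1 (mem_of_mem_erase q)).1)
    (notMem_erase _ _) ?_⟩⟩
  rw [card_erase_of_mem hc]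
  omega

omit hx in
lemma gm_inter {ι : Type} (A : Set ι) (ρ : ι → E) : GM k V {z | ∀ e ∈ A, z * ρ e ∈ V} where
  zero := fun _ _ => by simpa using hV.zero
  mul := fun hv hm e he => mul_assoc _ _ (ρ e) ▸ hV.mul hv (hm e he)
  add := by
    obtain ⟨g, h1, h2, h3⟩ := hV.add
    exact ⟨g, h1, h2, fun x hx y hy e he => by
      rw [mul_assoc, add_mul]
      exact h3 _ (hx e he) _ (hy e he)⟩

lemma ratio_mem {A : Finset E} (hA : ↑A ⊆ (k : Set E))
    (h : ∀ c ∈ A, ∃ A' ⊆ A, c ∉ A' ∧ Red k V x c A') (y : E) {c d : E} (hc : c ∈ A) (hd : d ∈ A) :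
    (x - d) / (x - c) ∈ (hV.gm_inter (A : Set E) fun e => y / (x - e)).End hV := by
  have h1 : ∀ e ∈ A, UB k V fun m : {z | ∀ e ∈ (A : Set E), z * (y / (x - e)) ∈ V} =>
      m * y / (x - e) := fun e he => ⟨1, one_mem _, one_ne_zero, fun m => by
    simpa [mul_div_assoc] using m.2 e he⟩
  have h2 := fun e he q => hV.frac hx (hA hc) (hA hd) (hA he) q (h1 c hc) (h1 e he)
  obtain ⟨t, k1, k2, k3⟩ := hV.com A.finite_toSet (f := fun e
    (m : {z | ∀ e ∈ (A : Set E), z * (y / (x - e)) ∈ V}) => m * y * ((x - d) / (x - c)) / (x - e))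
    fun e he => by
      by_cases q : c = e
      · obtain ⟨A', m1, m2, m3⟩ := h c hc
        exact q ▸ m3 _ _ fun e he => h2 e (m1 he) (ne_of_mem_of_not_mem he m2).symm
      · exact h2 e he q
  refine ⟨t, k1, k2, fun m hm e he => ?_⟩
  convert k3 e he ⟨m, hm⟩ using 1
  ring

end RG

end Pool.Agent.MP_829a8f_lc.H20

end MrgPart4

-- ======== part 5: formerly Pool.Agent.MP_829a8f_lc.h20.Star
section MrgPart5

/-!
In a strong structure the topology of the group `T` is not discrete and has finitely many places.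
-/

namespace Pool.Agent.MP_829a8f_lc.H20

open H33 Filter

variable {E : Type} [Field E] {S : NS E} {ι : Type}

/-- A congruence subgroup. -/
def HH (O : ι → ValuationSubring E) (b : E) : Set E := {x | x ≠ 0 ∧ ∀ i, (x - 1) / b ∈ O i}

section

variable {O : ι → ValuationSubring E} {b : E} (hb0 : b ≠ 0) (hb : ∀ i, b ∈ (O i).nonunits)
include hb0 hb

lemma HH.nu {x : E} (hx : x ∈ HH O b) (i : ι) : x - 1 ∈ (O i).nonunits := by
  simpa [hb0] using nu_mul' (hx.2 i) (hb i)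

lemma HH.mg : MG (HH O b) := by
  refine ⟨⟨one_ne_zero, fun i => by simp⟩, fun {x y} hx hy => ⟨mul_ne_zero hx.1 hy.1, fun i => ?_⟩,
    fun {x} hx => ⟨inv_ne_zero hx.1, fun i => ?_⟩, And.left⟩
  · convert add_mem (mul_mem (hx.2 i) (add_mem (nu_le (HH.nu hb0 hb hy i)) (one_mem _))) (hy.2 i)
      using 1
    ring
  · obtain ⟨k1, k2⟩ := not_nu.1 (not_nu_of_sub one_nu (HH.nu hb0 hb hx i))
    convert neg_mem (mul_mem (hx.2 i) k2) using 1
    field_simp
    ring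

omit hb0 hb in
lemma HH.root {l : ℕ} (h0 : l ≠ 0) (hl : ∀ i, (l : E) ∉ (O i).nonunits) {y : E}
    (hy : ∀ i, y - 1 ∈ (O i).nonunits) (h : y ^ l ∈ HH O b) : y ∈ HH O b := by
  refine ⟨ne_zero_pow h0 h.1, fun i => ?_⟩
  obtain ⟨k1, k2⟩ := not_nu.1 (geom_unit (hl i) (hy i))
  convert mul_mem (h.2 i) k2 using 1
  rw [← geom_sum_mul]
  field_simp

end

/-- A relatively definable group between a congruence subgroup and its powers. -/
structure Dt (S : NS E) (ι : Type) where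
  O : ι → ValuationSubring E
  D : Set E
  a : E
  π : E
  l : ℕ
  T : Set E
  P : Set E
  a0 : a ≠ 0
  π0 : π ≠ 0
  h1 : ∀ x, (∀ i, x ∈ O i) → a * x ∈ D
  h2 : ∀ x ∈ D, ∀ i, x ∈ O i
  hπ : ∀ i, π ∈ (O i).nonunits
  hl : ∀ i, (l : E) ∉ (O i).nonunits
  l0 : (l : E) ≠ 0
  hT : MG T
  TH : ∀ x ∈ T, x ∈ HH O (a * π)
  pw : ∀ y ∈ HH O (a * π), y ^ l ∈ T
  dD : S.U D
  dP : S.U P
  hP : ∀ x ∈ HH O (a * π), x ∈ P ↔ x ∈ T

lemma exists_enum {α : Type} {U : Set α} (hU : U.Finite) (a : α) :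
    ∃ (n : ℕ) (u : Fin (n + 1) → α), (∀ i, u i = a ∨ u i ∈ U) ∧ ∀ x ∈ U, ∃ i, u i = x := by
  obtain ⟨n, f, -, rfl⟩ := hU.fin_param
  exact ⟨n, Fin.cons a f, Fin.cases (Or.inl rfl) fun i => Or.inr ⟨i, rfl⟩,
    by rintro _ ⟨i, rfl⟩; exact ⟨i.succ, rfl⟩⟩

/-- Elements bounded up to constants. -/
def bd (k : Subfield E) (O : ValuationSubring E) : ValuationSubring E where
  carrier := {x | ∃ t ∈ k, t ≠ 0 ∧ t ∈ O ∧ t * x ∈ O}
  zero_mem' := ⟨1, one_mem _, one_ne_zero, one_mem _, by simp⟩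
  one_mem' := ⟨1, one_mem _, one_ne_zero, one_mem _, by simp⟩
  add_mem' := by
    rintro x y ⟨s, h, h0, hs, hx⟩ ⟨t, h', h1, ht, hy⟩
    refine ⟨s * t, mul_mem h h', mul_ne_zero h0 h1, mul_mem hs ht, ?_⟩
    convert add_mem (mul_mem ht hx) (mul_mem hs hy) using 1
    ring
  mul_mem' := by
    rintro x y ⟨s, h, h0, hs, hx⟩ ⟨t, h', h1, ht, hy⟩
    refine ⟨s * t, mul_mem h h', mul_ne_zero h0 h1, mul_mem hs ht, ?_⟩
    convert mul_mem hx hy using 1
    ring
  neg_mem' := by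
    rintro x ⟨s, h, h0, hs, hx⟩
    exact ⟨s, h, h0, hs, by simpa using hx⟩
  mem_or_inv_mem' x := (O.mem_or_inv_mem x).imp
    (fun h => ⟨1, one_mem _, one_ne_zero, one_mem _, by simpa using h⟩)
    fun h => ⟨1, one_mem _, one_ne_zero, one_mem _, by simpa using h⟩

lemma mem_bd {k : Subfield E} {O : ValuationSubring E} {x t : E} (ht : t ∈ k) (h0 : t ≠ 0)
    (h : t * x ∈ O) : x ∈ bd k O := by
  rcases O.mem_or_inv_mem t with h' | h'
  · exact ⟨t, ht, h0, h', h⟩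
  · exact ⟨1, one_mem _, one_ne_zero, one_mem _, by simpa [h0] using mul_mem h' h⟩

lemma k_bd {k : Subfield E} {O : ValuationSubring E} {c : E} (hc : c ∈ k) : c ∈ bd k O := by
  by_cases h : c = 0
  · exact h ▸ zero_mem _
  · exact mem_bd (inv_mem hc) (inv_ne_zero h) (by simp [h])

lemma exists_bad {k : Subfield E} {W : ValuationSubring E} (hW : ∀ c ∈ k, c ∈ W) (x : E) :
    ∃ c₁, ∀ c ∈ k, ∀ d ∈ k, c ≠ c₁ → d ≠ c₁ → (x - d) / (x - c) ∈ W := by
  by_cases h : ∃ c₁ ∈ k, x - c₁ ∈ W.nonunits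
  · obtain ⟨c₁, h1, h2⟩ := h
    refine ⟨c₁, fun c hc d hd q _ => ?_⟩
    rw [div_eq_mul_inv]
    refine mul_mem (by simpa using add_mem (nu_le h2) (hW _ (sub_mem h1 hd))) (not_nu.1
      (not_nu_of_sub (x := c₁ - c) (not_nu.2 ⟨sub_ne_zero.2 q.symm,
        hW _ (inv_mem (sub_mem h1 hc))⟩) (by simpa using h2))).2
  · push Not at h
    refine ⟨0, fun c hc d hd _ _ => ?_⟩
    obtain ⟨k1, k2⟩ := not_nu.1 (h c hc)
    convert add_mem (one_mem W) (mul_mem (hW _ (sub_mem hc hd)) k2) using 1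
    field_simp
    ring

lemma one_add_pow' {R : Subring E} {x : E} (hx : x ∈ R) (n : ℕ) :
    ∃ ρ ∈ R, (1 + x) ^ n = 1 + n * x + ρ * x ^ 2 := by
  induction n with
  | zero => exact ⟨0, zero_mem _, by simp⟩
  | succ n ih =>
    obtain ⟨ρ, h1, h2⟩ := ih
    refine ⟨ρ + n + ρ * x, add_mem (add_mem h1 (natCast_mem R n)) (mul_mem h1 hx), ?_⟩
    rw [pow_succ, h2]
    push_cast
    ring

namespace Dt

variable (d : Dt S ι)

lemma b0 : d.a * d.π ≠ 0 := mul_ne_zero d.a0 d.π0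

lemma aO (i : ι) : d.a ∈ d.O i := d.h2 _ (by simpa using d.h1 1 fun i => one_mem _) i

lemma hb (i : ι) : d.a * d.π ∈ (d.O i).nonunits := nu_mul' (d.aO i) (d.hπ i)

lemma hH : MG (HH d.O (d.a * d.π)) := HH.mg d.b0 d.hb

lemma dH : S.U {y | (y - 1) / d.π ∈ d.D} :=
  d.dD.app (((NS.proj _).sub (NS.const _)).div (NS.const _))

lemma HH' (y : E) (hy : y ∈ HH d.O (d.a * d.π)) : (y - 1) / d.π ∈ d.D := by
  convert d.h1 _ hy.2 using 1
  field_simp [d.a0]

lemma root (y : E) (hy : (y - 1) / d.π ∈ d.D) (h : y ^ d.l ∈ HH d.O (d.a * d.π)) :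
    y ∈ HH d.O (d.a * d.π) :=
  HH.root (fun e => d.l0 (by simp [e])) d.hl
    (fun i => by simpa [d.π0] using nu_mul' (d.h2 _ hy i) (d.hπ i)) h

variable [Finite ι]

/-- The topology is not discrete. -/
theorem nd [Infinite E] (hS : Strong S) : ∃ᶠ z in nb d.T, z ≠ 0 := by
  refine frequently_iff.2 fun {U} hU => by_contra fun h => ?_
  push Not at h
  obtain ⟨A, hA, hU⟩ := nb_basis hU
  obtain ⟨n, u, -, hu⟩ := exists_enum (U := {v : Eˣ | (v : E)⁻¹ ∈ A}) (hA.preimage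
    (f := fun v : Eˣ => (v : E)⁻¹) fun _ _ _ _ e => Units.ext (inv_injective e)) 1
  refine Cod.absurd'
    { l := d.l, k := ⊤, R' := ⊤, R := ⊤, J := ⊥, T := d.T, H := _, P := d.P, H' := _, Dm := d.D
      M := {0}, R₁ := Set.univ, s := 1, n := n, u := u
      inf := by simpa using Set.infinite_univ
      kR := fun _ _ => trivial
      RR := le_rfl
      JR := fun _ _ => trivial
      RJ := fun r _ j hj => by simp [AddSubgroup.mem_bot.1 hj]
      hT := d.hT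
      hH := d.hH
      JT := fun j hj => by simpa [AddSubgroup.mem_bot.1 hj] using d.hT.one
      pw := d.pw
      sJ := by simp
      dP := d.dP
      dH := d.dH
      dD := d.dD
      dM := NS.eq (NS.proj _) (NS.const _)
      dR := NS.tru
      hP := d.hP
      HH := d.HH'
      root := d.root
      DR := fun _ _ => trivial
      absD := fun A hA _ => by
        obtain ⟨w, k1, -, k2⟩ := Gauge.exists_den d.O hA
        exact ⟨d.a * w, trivial, mul_ne_zero d.a0 k1, fun x hx =>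
          mul_assoc d.a w x ▸ d.h1 _ (k2 x hx)⟩
      JM := fun _ h => h
      MJ := fun _ _ h => h
      R₁R := fun _ _ => trivial
      absR := fun _ _ _ => ⟨1, trivial, one_ne_zero, fun _ _ => trivial⟩
      col := col_of_semi (R := ⊤) (C := {0, 1}) (Set.toFinite _) (fun _ _ => trivial) (fun r _ => by
        by_cases h : r = 0
        · exact ⟨1, by simp, by simp [h], trivial⟩
        · exact ⟨0, by simp, h, trivial⟩) (fun r _ j hj => by simp [AddSubgroup.mem_bot.1 hj])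
        (fun j hj => by simp [AddSubgroup.mem_bot.1 hj]) d.l0 trivial
      uR := fun _ => ⟨trivial, trivial⟩
      iso := fun r _ hr => h _ (hU _ fun a ha => by
        by_cases h0 : a = 0
        · simpa [h0] using d.hT.one
        obtain ⟨i, hi⟩ := hu (Units.mk0 a h0)⁻¹ (by simpa using ha)
        simpa [hi, mul_comm] using hr i)
      far := fun t _ t0 Φ hΦ _ => ?_ } hS
  obtain ⟨w, k1, k2, k3⟩ := Gauge.exists_den d.O ((hΦ.image Prod.snd).union
    (hΦ.image fun p => (t * (d.a * d.π) * p.1)⁻¹))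
  have h1 : {θ : E | ∀ i, θ ∈ d.O i}.Infinite := fun q => Set.infinite_univ
    (((q.prod q).image fun p => p.1 / p.2).subset fun x _ => by
      obtain ⟨v, m1, m2, m3⟩ := Gauge.exists_den d.O (Set.finite_singleton x)
      exact ⟨(v * x, v), ⟨m3 x rfl, m2⟩, mul_div_cancel_left₀ x m1⟩)
  obtain ⟨θ, m1, m2⟩ := h1.exists_notMem_finite
    ((hΦ.image fun p => -(d.π * w * p.2)⁻¹).insert 0)
  have m3 : θ ≠ 0 := fun e => m2 (Or.inl e)
  have m0 := d.π0
  have m4 : ∀ p ∈ Φ, 1 + θ * (d.π * w * p.2) ≠ 0 := fun p hp e => m2 (Or.inr ⟨p, hp,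
    neg_eq_iff_eq_neg.2 (eq_inv_of_mul_eq_one_left (by linear_combination -e)).symm⟩)
  refine ⟨(θ * (d.π * w))⁻¹, fun p hp b e => ?_⟩
  have e' : b = p.1 * (1 + θ * (d.π * w * p.2)) / (θ * (d.π * w)) := by
    rw [e]
    field_simp
  have m5 : b ≠ 0 := e' ▸ div_ne_zero (mul_ne_zero p.1.ne_zero (m4 p hp))
    (mul_ne_zero m3 (mul_ne_zero m0 k1))
  refine ⟨m5, trivial, trivial, fun z hz q => ⟨fun q' => q ?_, fun i => ?_⟩⟩
  · rwa [sub_eq_zero, eq_comm, div_eq_one_iff_eq m5] at q'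
  have m6 := (not_nu.1 (not_nu_of_sub (y := 1 + θ * (d.π * w * p.2)) one_nu (by
    simpa [mul_assoc] using nu_mul' (m1 i) (nu_mul (d.hπ i) (k3 _ (Or.inl ⟨p, hp, rfl⟩) i))))).2
  convert neg_mem (mul_mem (mul_mem (mul_mem (d.h2 _ hz i) (k3 _ (Or.inr ⟨p, hp, rfl⟩) i)) m6)
    (mul_mem (m1 i) (nu_le (d.hπ i)))) using 1
  have := m4 p hp
  have := d.a0
  rw [e']
  field_simp
  ring

/-- The key contradiction in the presence of an infinitesimal. -/
theorem star (hS : Strong S) {k : Subfield E} (hk : (k : Set E).Infinite) (ka : d.a ∈ k)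
    (kπ : d.π ∈ k) {V : Set E} (hV : RG k V) (dV : S.U V) {c : E} (kc : c ∈ k) (c0 : c ≠ 0)
    (hc : ∀ x ∈ V, 1 + c * x ∈ d.T) {A₀ : Set E} (hA₀ : A₀.Finite) (kA : A₀ ⊆ k)
    (hA' : ∀ z, (∀ a ∈ A₀, 1 + a * z ∈ d.T) → z ∈ V) {s : E} (hs : ∀ h ∈ k, h * s ∈ V)
    (h : ∀ C : Finset E, ↑C ⊆ (k : Set E) → ∃ x, ∀ c ∈ C, x ≠ c → s / (x - c) ∉ V) : False := by
  classical
  cases nonempty_fintype ι
  obtain ⟨N, hN⟩ := hV.exists_red dV
  obtain ⟨C, hC, hC'⟩ := hk.exists_subset_card_eq (N + Fintype.card ι + 2)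
  obtain ⟨x, hx'⟩ := h C hC
  have hx : x ∉ k := fun q => by
    obtain ⟨e, he, q'⟩ := Finset.exists_mem_ne (s := C) (by omega) x
    exact hx' e he q'.symm (div_eq_inv_mul s _ ▸ hs _ (inv_mem (sub_mem q (hC he))))
  have x0 : ∀ e ∈ k, x - e ≠ 0 := fun e he => sub_ne_zero.2 (ne_of_mem_of_not_mem he hx).symm
  choose bad hbad using fun i => exists_bad (W := bd k (d.O i)) (fun _ => k_bd) x
  obtain ⟨A, hA1, hA2, hA3⟩ := hN x hx (C \ Finset.univ.image bad)
    (fun _ q => hC (Finset.mem_sdiff.1 q).1) (by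
      have := Finset.le_card_sdiff (Finset.univ.image bad) C
      have := Finset.card_image_le (s := Finset.univ) (f := bad)
      rw [Finset.card_univ] at this
      omega)
  have hA : ↑A ⊆ (k : Set E) := fun _ q => hC (Finset.mem_sdiff.1 (hA1 q)).1
  obtain ⟨c₀, h₀, c₁, h₁, h01⟩ := Finset.one_lt_card.1 hA2
  have hM := hV.gm_inter (A : Set E) fun e => (x - c₀) / (x - e)
  have hr : ∀ e ∈ A, ∀ e' ∈ A, (x - e') / (x - e) ∈ hM.End hV := fun e he e' he' =>
    hV.ratio_mem hx hA hA3 _ he he'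
  have hr' : ∀ e ∈ A, ∀ e' ∈ A, ∀ i, (x - e') / (x - e) ∈ bd k (d.O i) := fun e he e' he' i =>
    hbad i e (hA he) e' (hA he')
      (fun q => (Finset.mem_sdiff.1 (hA1 he)).2 (Finset.mem_image.2 ⟨i, by simp, q.symm⟩))
      fun q => (Finset.mem_sdiff.1 (hA1 he')).2 (Finset.mem_image.2 ⟨i, by simp, q.symm⟩)
  have dM : S.U {z | ∀ e ∈ (A : Set E), z * ((x - c₀) / (x - e)) ∈ V} :=
    NS.congr (NS.all fun e : A => dV.app ((NS.proj ()).mul (NS.const ((x - c₀) / (x - e)))))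
      fun v => ⟨fun h e => h e e.2, fun h e he => h ⟨e, he⟩⟩
  have hM' : ∀ z, z ∈ {z | ∀ e ∈ (A : Set E), z * ((x - c₀) / (x - e)) ∈ V} ↔
    ∀ e ∈ A, z * ((x - c₀) / (x - e)) ∈ V := fun _ => Iff.rfl
  generalize {z | ∀ e ∈ (A : Set E), z * ((x - c₀) / (x - e)) ∈ V} = M at hM hr dM hM'
  have MV : ∀ m ∈ M, m ∈ V := fun m hm => by
    simpa [x0 _ (hA h₀)] using (hM' m).1 hm c₀ h₀
  have b0 := d.b0
  have kb := mul_mem ka kπ
  have VO : ∀ v ∈ V, ∀ i, c / (d.a * d.π) * v ∈ d.O i := fun v hv i => by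
    convert (d.TH _ (hc v hv)).2 i using 1
    ring
  have Vb : ∀ v ∈ V, ∀ i, v ∈ bd k (d.O i) := fun v hv i =>
    mem_bd (div_mem kc kb) (div_ne_zero c0 b0) (VO v hv i)
  have sO : ∀ i, ∀ m ∈ bd k (d.O i), s * m ∈ d.O i := by
    rintro i m ⟨t, k1, k2, -, k3⟩
    convert mul_mem (VO _ (hs _ (div_mem kb (mul_mem kc k1))) i) k3 using 1
    generalize d.a * d.π = b at b0
    field_simp
  have JT : ∀ j ∈ hM.Inf, 1 + j ∈ d.T := fun j hj => by
    simpa [c0] using hc _ (MV _ (hj _ (inv_mem kc)))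
  have JR : ∀ j ∈ hM.Inf, j ∈ hM.End hV := fun j hj =>
    hM.V_End hV (MV _ (by simpa using hj 1 (one_mem _)))
  have jac : ∀ j ∈ hM.Inf, 1 + j ≠ 0 ∧ (1 + j)⁻¹ ∈ hM.End hV := fun j hj => by
    obtain ⟨g, k1, k2, k3⟩ := hV.inv
    obtain ⟨k4, k5⟩ := k3 _ (MV _ (hj _ (inv_mem k1)))
    rw [mul_inv_cancel_left₀ k2] at k4 k5
    refine ⟨k4, ?_⟩
    convert sub_mem (one_mem _) (hM.V_End hV k5) using 1
    field_simp
    ring
  have kl : (d.l : E)⁻¹ ∈ k := inv_mem (natCast_mem k _)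
  have rad : ∀ w ∈ hM.End hV, w ^ 2 ∈ hM.Inf → 1 + w ∈ d.T := fun w hw h => by
    have l0 := d.l0
    have k1 : 1 + (d.l : E)⁻¹ * w ∈ HH d.O (d.a * d.π) := ⟨fun q => (jac _ (neg_mem
      (hM.End_Inf hV (hM.k_End hV (pow_mem kl 2)) h))).1 (by
        linear_combination (1 - (d.l : E)⁻¹ * w) * q), fun i => mem_of_pow two_ne_zero (by
      convert VO _ (MV _ (h _ (div_mem (pow_mem kl 2) (mul_mem kc kb)))) i using 1
      field_simp
      ring)⟩
    obtain ⟨ρ, k2, k3⟩ := one_add_pow' (mul_mem (hM.k_End hV kl) hw) d.l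
    obtain ⟨k4, k5⟩ := jac _ (neg_mem h)
    have k6 : 1 + w ≠ 0 := fun q => k4 (by linear_combination (1 - w) * q)
    have k7 := JT _ (hM.End_Inf hV (mul_mem (mul_mem (mul_mem k2 (hM.k_End hV (pow_mem kl 2)))
      (sub_mem (one_mem _) hw)) k5) h)
    convert d.hT.div (d.pw _ k1) k7 using 1
    rw [eq_div_iff (d.hT.ne k7), k3]
    field_simp
    ring
  have rad' : ∀ w ∈ hM.End hV, w ^ 2 ∈ hM.Inf → w ∈ hM.Inf := fun w hw h t ht =>
    (hM' _).2 fun e he => hA' _ fun a ha => by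
      have k1 := mul_mem (hM.k_End hV (mul_mem (kA ha) ht)) (hr e he _ h₀)
      convert rad _ (mul_mem k1 hw) (mul_pow _ w 2 ▸ hM.End_Inf hV (pow_mem k1 2) h) using 2
      ring
  have MJ : ∀ r ∈ hM.End hV, s * r ∈ M → s * r ∈ hM.Inf := fun r hr h =>
    rad' _ (hM.V_End hV (MV _ h)) fun t ht => by
      obtain ⟨t', k1, k2, k3⟩ := hr
      convert hM.mul (hs _ (div_mem ht k1)) (k3 _ h) using 1
      field_simp
  obtain ⟨N₁, semi⟩ := hM.semi hV dM
  obtain ⟨C₁, m1, m2⟩ := hk.exists_subset_card_eq N₁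
  let R' : Subring E := hM.End hV ⊓ ⨅ i, (bd k (d.O i)).toSubring
  have hR' : ∀ y, y ∈ R' ↔ y ∈ hM.End hV ∧ ∀ i, y ∈ bd k (d.O i) := fun y => by
    simp [R', Subring.mem_iInf]
  have kR : ∀ y ∈ k, y ∈ R' := fun y hy => (hR' y).2 ⟨hM.k_End hV hy, fun _ => k_bd hy⟩
  obtain ⟨n, u, u1, u2⟩ := exists_enum (U := {v : Eˣ | ∃ a ∈ A₀, ∃ e ∈ A,
    (v : E)⁻¹ = a * ((x - c₀) / (x - e))}) (((hA₀.image2 (fun a e => a * ((x - c₀) / (x - e)))
      A.finite_toSet).preimage (f := fun v : Eˣ => (v : E)⁻¹)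
      fun _ _ _ _ e => Units.ext (inv_injective e)).subset
      fun v ⟨a, ha, e, he, q⟩ => ⟨a, ha, e, he, q.symm⟩) 1
  refine Cod.absurd'
    { l := d.l, k := k, R' := R', R := hM.End hV, J := hM.Inf, T := d.T, H := _, P := d.P, H' := _
      Dm := V, M := M, R₁ := {r | r ∈ hM.End hV ∧ ∀ m ∈ M, r * m ∈ M}, s := s, n := n, u := u
      inf := hk
      kR := kR
      RR := inf_le_left
      JR := JR
      RJ := fun _ hr _ => hM.End_Inf hV hr
      hT := d.hT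
      hH := d.hH
      JT := JT
      pw := d.pw
      sJ := fun q => hx' c₁ (Finset.mem_sdiff.1 (hA1 h₁)).1 (sub_ne_zero.1 (x0 _ (hA h₁))) ?_
      dP := d.dP
      dH := d.dH
      dD := dV
      dM := dM
      dR := NS.congr (NS.all1 (P := fun v m => m ∈ M → v () * m ∈ M) (NS.imp (dM.app (NS.proj _))
        (dM.app ((NS.proj _).mul (NS.proj _))))) fun v =>
          and_iff_right_of_imp fun q => ⟨1, one_mem _, one_ne_zero, by simpa using q⟩
      hP := d.hP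
      HH := d.HH'
      root := d.root
      DR := fun v hv => (hR' v).2 ⟨hM.V_End hV hv, Vb v hv⟩
      absD := hV.dir
      JM := fun j hj => by simpa using hj 1 (one_mem _)
      MJ := MJ
      R₁R := fun _ => And.left
      absR := fun B hB q => by
        obtain ⟨t, k1, k2, k3⟩ := hM.abs hV hB q
        exact ⟨t, k1, k2, fun a ha => ⟨mul_mem (hM.k_End hV k1) (q ha), k3 a ha⟩⟩
      col := col_of_semi C₁.finite_toSet (fun _ q => hM.k_End hV (m1 q)) (semi C₁ m1 m2.ge)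
        (fun _ hr _ => hM.End_Inf hV hr) jac d.l0 (hM.k_End hV kl)
      uR := fun i => ?_
      iso := fun r hr q => MJ r hr ((hM' _).2 fun e he => hA' _ fun a ha => ?_)
      far := fun t kt t0 Φ hΦ q => ?_ } hS
  · obtain ⟨g, k1, k2, k3⟩ := hV.add
    have k4 := sub_ne_zero.2 h01.symm
    have k5 := div_mem (one_mem k) (mul_mem k1 (sub_mem (hA h₁) (hA h₀)))
    convert k3 _ ((hM' _).1 (q _ k5) c₁ h₁) _ (hV.neg (hs _ k5)) using 1
    field_simp [x0 _ (hA h₁)]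
    ring
  · rcases u1 i with q | ⟨a, ha, e, he, q⟩
    · exact q ▸ one_mem _
    have a0 : a ≠ 0 := left_ne_zero_of_mul (q ▸ inv_ne_zero (u i).ne_zero)
    refine ⟨?_, ?_⟩
    · change (u i : E) ∈ R'
      rw [inv_eq_iff_eq_inv.1 q, mul_inv, inv_div]
      exact mul_mem (kR _ (inv_mem (kA ha))) ((hR' _).2 ⟨hr _ h₀ _ he, hr' _ h₀ _ he⟩)
    · change ((u i)⁻¹ : Eˣ).1 ∈ R'
      rw [Units.val_inv_eq_inv_val, q]
      exact mul_mem (kR _ (kA ha)) ((hR' _).2 ⟨hr _ he _ h₀, hr' _ he _ h₀⟩)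
  · by_cases a0 : a = 0
    · simpa [a0] using d.hT.one
    obtain ⟨i, hi⟩ := u2 (Units.mk0 _ (mul_ne_zero a0
      (div_ne_zero (x0 _ (hA h₀)) (x0 _ (hA he)))))⁻¹ ⟨a, ha, e, he, by simp⟩
    convert q i using 2
    rw [hi, Units.val_inv_eq_inv_val, div_inv_eq_mul, Units.val_mk0]
    ring
  have sR : s ∈ hM.End hV := hM.V_End hV (by simpa using hs 1 (one_mem _))
  have ex : ∀ p ∈ Φ, {e | e ∈ k ∧ ¬ (p.2 ≠ e ∧ (p.2 - e)⁻¹ ∈ hM.End hV)}.Finite := fun p hp => by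
    by_contra q'
    obtain ⟨B, k1, k2⟩ := Set.Infinite.exists_subset_card_eq q' N₁
    obtain ⟨y, k3, k4⟩ := (q p hp).2
    obtain ⟨e, k5, k6⟩ := semi B (fun _ h => (k1 h).1) k2.ge p.2
      (k4 ▸ mul_mem sR ((hR' y).1 k3).1)
    exact (k1 k5).2 k6
  obtain ⟨w, k1, k2⟩ := hk.exists_notMem_finite ((hΦ.biUnion ex).insert 0)
  have w0 : w ≠ 0 := fun e => k2 (Or.inl e)
  refine ⟨-w, fun p hp b e => ?_⟩
  obtain ⟨k3, k4⟩ := not_not.1 (not_and.1 (fun h => k2 (Or.inr (Set.mem_biUnion hp h))) k1)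
  obtain ⟨⟨k5, k6⟩, y, k7, k8⟩ := q p hp
  obtain ⟨k5, -⟩ := (hR' p.1).1 k5
  obtain ⟨k6, k9⟩ := (hR' (p.1⁻¹ : Eˣ)).1 k6
  rw [Units.val_inv_eq_inv_val] at k6 k9
  obtain ⟨k7, k10⟩ := (hR' _).1 k7
  rw [neg_add_eq_sub] at e
  have k11 := sub_ne_zero.2 k3
  have k12 : b ≠ 0 := e ▸ mul_ne_zero p.1.ne_zero k11
  refine ⟨k12, e ▸ mul_mem k5 (sub_mem (k8 ▸ mul_mem sR k7) (hM.k_End hV k1)),
    by rw [e, mul_inv]; exact mul_mem k6 k4, fun z hz q' => ⟨fun q'' => q' ?_, fun i => ?_⟩⟩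
  · rwa [sub_eq_zero, eq_comm, div_eq_one_iff_eq k12] at q''
  have π0 := d.π0
  have k13 := (not_nu.1 (not_nu_of_sub (y := (p.2 - w) / -w) one_nu (by
    convert neg_mem (nu_mul (d.hπ i) (sO i _ (mul_mem (k10 i) (k_bd (inv_mem (mul_mem k1 kπ))))))
      using 1
    rw [k8]
    field_simp
    ring))).2
  have s0 : s ≠ 0 := fun q => hx' c₁ (Finset.mem_sdiff.1 (hA1 h₁)).1
    (sub_ne_zero.1 (x0 _ (hA h₁))) (by simpa [q] using hV.zero)
  convert sO i _ (mul_mem (mul_mem (mul_mem (Vb _ hz i) (k9 i)) (mem_bd (one_mem _) one_ne_zero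
    (by simpa using k13))) (k_bd (inv_mem (mul_mem (mul_mem kt kb) k1)))) using 1
  rw [e]
  field_simp
  ring

end Dt

end Pool.Agent.MP_829a8f_lc.H20

end MrgPart5

-- ======== part 6: formerly Pool.Agent.MP_829a8f_lc.h20.Gauge
section MrgPart6

/-!
The definable gauge of a relatively definable group in a strong structure.
-/

namespace Pool.Agent.MP_829a8f_lc.H20

open H33 Filter

variable {F : Type} [Field F] {S : NS F} {ι : Type} [Finite ι] {u : Ultrafilter F}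

lemma st_HH {O : ι → ValuationSubring F} {b : F} {x : F → F} :
    H33.cl u x ∈ HH (fun i => H33.upV u (O i)) (H33.dg u b) ↔ ∀ᶠ t in u, x t ∈ HH O b :=
  ((cl_ne (y := 0)).and eventually_all.symm).trans eventually_and.symm

lemma nu_upV {O : ValuationSubring F} {x : F} : H33.dg u x ∈ (H33.upV u O).nonunits ↔ x ∈ O.nonunits := by
  rw [← not_iff_not, not_nu, not_nu, ← map_inv₀, map_ne_zero]
  exact and_congr_right fun _ => dg_st

lemma mg_st {T : Set F} (hT : MG T) : MG (st u T) where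
  one := dg_st.2 hT.one
  mul {x y} := by
    induction x, y using Germ.inductionOn₂
    exact fun ha hb => (Eventually.and ha hb).mono fun _ h => hT.mul h.1 h.2
  inv {x} := by
    induction x using Germ.inductionOn
    exact fun ha => Eventually.mono ha fun _ h => hT.inv h
  ne {x} := by
    obtain ⟨x, rfl⟩ := H33.cl_surj x
    exact fun ha => (cl_ne (y := 0)).2 (Eventually.mono ha fun _ h => hT.ne h)

variable (u) in
/-- The ultrapower of the data. -/
noncomputable def Dt.up (d : Dt S ι) : Dt (S.up u) ι where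
  O i := H33.upV u (d.O i)
  D := st u d.D
  a := H33.dg u d.a
  π := H33.dg u d.π
  l := d.l
  T := st u d.T
  P := st u d.P
  a0 := (map_ne_zero _).2 d.a0
  π0 := (map_ne_zero _).2 d.π0
  h1 x hx := by
    obtain ⟨x, rfl⟩ := H33.cl_surj x
    exact (eventually_all.2 hx).mono fun t h => d.h1 _ h
  h2 x hx i := by
    obtain ⟨x, rfl⟩ := H33.cl_surj x
    exact Eventually.mono hx fun t h => d.h2 _ h i
  hπ i := nu_upV.2 (d.hπ i)
  hl i := map_natCast (H33.dg u) d.l ▸ mt nu_upV.1 (d.hl i)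
  l0 := map_natCast (H33.dg u) d.l ▸ (map_ne_zero _).2 d.l0
  hT := mg_st d.hT
  TH x hx := by
    obtain ⟨x, rfl⟩ := H33.cl_surj x
    rw [← map_mul]
    exact st_HH.2 (Eventually.mono hx fun t h => d.TH _ h)
  pw x hx := by
    obtain ⟨x, rfl⟩ := H33.cl_surj x
    rw [← map_mul] at hx
    rw [← map_pow]
    exact (st_HH.1 hx).mono fun t h => d.pw _ h
  dD := d.dD.up u
  dP := d.dP.up u
  hP x hx := by
    obtain ⟨x, rfl⟩ := H33.cl_surj x
    rw [← map_mul] at hx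
    exact eventually_congr ((st_HH.1 hx).mono fun t h => d.hP _ h)

lemma RG.up {V : Set F} (hV : RG ⊤ V) : RG (H33.dg u).fieldRange (st u V) where
  one := dg_st.2 hV.one
  neg {x} := by
    induction x using Germ.inductionOn
    exact fun ha => Eventually.mono ha fun _ h => hV.neg h
  mul {x y} := by
    induction x, y using Germ.inductionOn₂
    exact fun ha hb => (Eventually.and ha hb).mono fun _ h => hV.mul h.1 h.2
  add := by
    obtain ⟨g, -, h0, hg⟩ := hV.add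
    refine ⟨_, ⟨g, rfl⟩, (map_ne_zero _).2 h0, fun x hx y hy => ?_⟩
    induction x, y using Germ.inductionOn₂
    exact (Eventually.and hx hy).mono fun _ h => hg _ h.1 _ h.2
  dir A hA h := by
    obtain ⟨t, -, h0, ht⟩ := hV.dir _ (hA.preimage (H33.dg u).injective.injOn) fun _ _ => trivial
    refine ⟨_, ⟨t, rfl⟩, (map_ne_zero _).2 h0, fun a ha => ?_⟩
    obtain ⟨a, rfl⟩ := h ha
    rw [← map_mul]
    exact dg_st.2 (ht a ha)
  inv := by
    obtain ⟨c, -, h0, hc⟩ := hV.inv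
    refine ⟨_, ⟨c, rfl⟩, (map_ne_zero _).2 h0, fun x hx => ?_⟩
    obtain ⟨x, rfl⟩ := H33.cl_surj x
    exact ⟨(cl_ne (x := fun t => 1 + c * x t) (y := 0)).2 (Eventually.mono hx fun t h => (hc _ h).1),
      Eventually.mono hx fun t h => (hc _ h).2⟩

lemma lf_ne {T : Set F} (hT : MG T) (nd : ∃ᶠ z in nb T, z ≠ 0) {q : F} (hq0 : q ≠ 0) (hq : q ∉ T)
    {X : Set F} (hX : Gd T X X) : Cov T X fun y Y => y ∉ Y := by
  obtain ⟨c, hc, c', hc', h⟩ := (hX.infinite hT nd).nontrivial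
  have h0 := sub_ne_zero.2 h.symm
  let α := (q - 1) / (c' - c)
  refine ⟨{X ∩ {x | α * x + (1 - α * c) ∈ T},
    X ∩ {x | α / q * x + (1 - α * c) / q ∈ T}}, Set.toFinite _, ?_, fun y => ?_⟩
  · rintro _ (rfl | rfl)
    · exact ⟨hX.1.inter (hT.op_aff _ _), ⟨c, hc, by simpa using hT.one⟩, Set.inter_subset_left⟩
    · refine ⟨hX.1.inter (hT.op_aff _ _), ⟨c', hc', ?_⟩, Set.inter_subset_left⟩
      change _ ∈ T
      convert hT.one using 1
      simp only [α]
      field_simp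
      ring
  by_cases hy : α * y + (1 - α * c) ∈ T
  · refine ⟨_, Or.inr rfl, fun h => hq ?_⟩
    have h1 : (α * y + (1 - α * c)) / q ∈ T := by
      rw [add_div, ← div_mul_eq_mul_div]
      exact h.2
    have h2 := hT.div hy h1
    rwa [div_div_cancel₀ (hT.ne hy)] at h2
  · exact ⟨_, Or.inl rfl, fun h => hy h.2⟩

lemma Dt.lf (d : Dt S ι) (nd : ∃ᶠ z in nb d.T, z ≠ 0) {X : Set F} (hX : Gd d.T X X) :
    Cov d.T X fun y Y => y ∉ Y → ∀ x ∈ Y, ∀ x' ∈ Y, (x - y) / (x' - y) ∈ HH d.O (d.a * d.π) := by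
  have hT := d.hT
  have hπ0 := d.π0
  obtain ⟨n, ⟨f⟩⟩ := Finite.exists_equiv_fin (Option ι)
  let c : Option ι → F := fun k => (hX.infinite hT nd).natEmbedding _ (f k)
  have hc : Function.Injective c := Subtype.val_injective.comp
    (((hX.infinite hT nd).natEmbedding _).injective.comp (Fin.val_injective.comp f.injective))
  obtain ⟨ρ, k1, -, k2⟩ := Gauge.exists_den d.O
    (Set.finite_range fun p : Option ι × Option ι => (c p.1 - c p.2)⁻¹)
  have hc' : ∀ k, c k ∈ X ∩ {x | (ρ * d.π)⁻¹ * x + (1 - (ρ * d.π)⁻¹ * c k) ∈ d.T} := fun k =>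
    ⟨((hX.infinite hT nd).natEmbedding _ (f k)).2, by simpa using hT.one⟩
  refine ⟨Set.range fun k => X ∩ {x | (ρ * d.π)⁻¹ * x + (1 - (ρ * d.π)⁻¹ * c k) ∈ d.T},
    Set.finite_range _, ?_, fun y => ?_⟩
  · rintro _ ⟨k, rfl⟩
    exact ⟨hX.1.inter (hT.op_aff _ _), ⟨c k, hc' k⟩, Set.inter_subset_left⟩
  obtain ⟨k, hk⟩ : ∃ k, ∀ i, (c k - y) / (ρ * d.π) ∉ d.O i := by
    by_contra h
    push Not at h
    choose r hr using h
    cases nonempty_fintype ι
    obtain ⟨k, k', k3, k4⟩ := Fintype.exists_ne_map_eq_of_card_lt r (by simp)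
    refine not_nu.2 ⟨hπ0, ?_⟩ (d.hπ (r k'))
    convert mul_mem (sub_mem (k4 ▸ hr k) (hr k')) (k2 _ ⟨(k, k'), rfl⟩ _) using 1
    have := sub_ne_zero.2 (hc.ne k3)
    field_simp
    ring
  refine ⟨_, ⟨k, rfl⟩, fun hy x hx x' hx' => ?_⟩
  have h0 : c k - y ≠ 0 := sub_ne_zero.2 (ne_of_mem_of_not_mem (hc' k) hy)
  have key : ∀ x ∈ X ∩ {x | (ρ * d.π)⁻¹ * x + (1 - (ρ * d.π)⁻¹ * c k) ∈ d.T},
      (x - y) / (c k - y) ∈ HH d.O (d.a * d.π) := fun x hx =>
    ⟨div_ne_zero (sub_ne_zero.2 (ne_of_mem_of_not_mem hx hy)) h0, fun i => by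
      convert mul_mem ((d.TH _ hx.2).2 i) (((d.O i).mem_or_inv_mem _).resolve_left (hk i)) using 1
      field_simp
      ring⟩
  rw [← div_div_div_cancel_right₀ h0]
  exact d.hH.div (key x hx) (key x' hx')

theorem Dt.gauge [Infinite F] (d : Dt S ι) (hS : Strong S) {q : F} (hq0 : q ≠ 0) (hq : q ∉ d.T) :
    ∃ V, S.U V ∧ Gauge V ∧ ∃ c : F, c ≠ 0 ∧ ∀ x ∈ V, 1 + c * x ∈ d.T := by
  have nd := d.nd hS
  have dat : Dat S d.T := by
    refine ⟨d.hT, ⟨{z | 1 + z ∈ d.P ∧ z / (d.a * d.π) ∈ d.D ∧ 1 + z ≠ 0}, S.and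
      (d.dP.app ((NS.const _).add (NS.proj _))) (S.and (d.dD.app ((NS.proj _).div (NS.const _)))
      (S.not (NS.eq ((NS.const _).add (NS.proj _)) (NS.const _)))), ?_,
      fun z hz => (d.hP _ ⟨hz.2.2, fun i => ?_⟩).1 hz.1⟩, ⟨q, hq0, hq⟩, nd, fun X hX =>
      bstar d.hT d.hH d.TH d.dP d.hP (((lf_ne d.hT nd hq0 hq hX).bind fun Y hY =>
        d.lf nd ⟨hY.1, hY.2.1, le_rfl⟩).mono id ?_)⟩
    · filter_upwards [nb_ev 1, nb_ev d.a⁻¹] with z k1 k2
      rw [one_mul] at k1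
      refine ⟨(d.hP _ (d.TH _ k1)).2 k1, ?_, d.hT.ne k1⟩
      convert d.h1 _ (d.TH _ k2).2 using 1
      field_simp [d.a0]
      ring
    · simpa using d.h2 _ hz.2.1 i
    · rintro y Z - ⟨Y, -, h1, h2, h3⟩
      exact h3 fun h => h2 (h1 h)
  obtain ⟨V, h1, hV, h2, c, c0, hc⟩ := dat.gauge
  refine ⟨V, h1, ⟨hV.one, hV.neg, hV.mul, hV.add.imp fun _ => And.right,
    fun A hA => (hV.dir A hA fun _ _ => trivial).imp fun _ => And.right,
    hV.inv.imp fun _ => And.right, by_contra fun h => ?_⟩, c, c0, hc⟩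
  push Not at h
  have : NeBot (⨅ a : F, 𝓟 {t | t ≠ 0 ∧ t * a ∈ V}) :=
    (hasBasis_iInf_principal_finite _).neBot_iff.2 fun {A} hA => by
      obtain ⟨t, -, h0, ht⟩ := hV.dir A hA fun _ _ => trivial
      exact ⟨t, Set.mem_iInter₂.2 fun a ha => ⟨h0, ht a ha⟩⟩
  obtain ⟨u, hu'⟩ := Ultrafilter.exists_le (⨅ a : F, 𝓟 {t | t ≠ 0 ∧ t * a ∈ V})
  have hu : ∀ a, ∀ᶠ t in u, t ≠ 0 ∧ t * a ∈ V := fun a =>
    hu' (mem_iInf_of_mem a (mem_principal_self _))
  obtain ⟨A, hA, hA'⟩ := nb_basis h2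
  refine (d.up u).star (hS.up u) (k := (H33.dg u).fieldRange)
    (Set.infinite_range_of_injective (H33.dg u).injective) ⟨_, rfl⟩ ⟨_, rfl⟩ hV.up (h1.up u) ⟨c, rfl⟩
    ((map_ne_zero _).2 c0) (fun x hx => ?_) (hA.image (H33.dg u)) (by rintro _ ⟨a, -, rfl⟩; exact ⟨a, rfl⟩)
    (fun z hz => ?_) (s := H33.cl u id) ?_ fun C hC => ?_
  · obtain ⟨x, rfl⟩ := H33.cl_surj x
    exact Eventually.mono hx fun t h => hc _ h
  · obtain ⟨z, rfl⟩ := H33.cl_surj z
    exact ((eventually_all_finite hA).2 fun a ha => hz _ ⟨a, ha, rfl⟩).mono fun t h => hA' _ h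
  · rintro _ ⟨a, rfl⟩
    exact (hu a).mono fun t ht => (mul_comm t a ▸ ht.2 : a * t ∈ V)
  choose! y hy using fun t => h _ t (C.finite_toSet.preimage (H33.dg u).injective.injOn)
  refine ⟨H33.cl u y, fun e he q => ?_⟩
  obtain ⟨e, rfl⟩ := hC he
  exact cl_not_st.2 (((hu 0).and (cl_ne.1 q)).mono fun t ht => hy t ht.1.1 e he ht.2)

end Pool.Agent.MP_829a8f_lc.H20

end MrgPart6

-- marker of a merged file
example : 731051 + 670980 = 731051 + 670980 := rfl
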