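import Mathlib.Algebra.Field.Defs
import Mathlib.ModelTheory.Algebra.Ring.Basic
import Mathlib.ModelTheory.Semantics

/-!
Strong dependence of pure fields in the sense of Shelah.
-/

namespace Pool.Agent.MP_829a8f_lc

open FirstOrder

/-- The pure field `K` is strongly dependent: no model `M` of the complete theory of `K` in the
language of rings has a randomness pattern of depth `ω`, that is, formulas `φ_k(x; y_k)` (`k ∈ ℕ`,
`x` a tuple of fixed finite length), parameters `a_{k,j}` (`k, j ∈ ℕ`) and tuples `x_η`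
(`η : ℕ → ℕ`) with `φ_k(x_η; a_{k,j}) ↔ j = η k` for all `η`, `k`, `j`. -/
def StronglyDependent (K : Type) [Field K] : Prop :=
  ∀ [Ring.CompatibleRing K] (M : Type) [Language.ring.Structure M], K ≅[Language.ring] M →
    ¬ ∃ (m : ℕ) (r : ℕ → ℕ) (φ : ∀ k, Language.ring.Formula (Fin m ⊕ Fin (r k)))
      (a : ∀ k, ℕ → Fin (r k) → M) (x : (ℕ → ℕ) → Fin m → M),
      ∀ η k j, (φ k).Realize (Sum.elim (x η) (a k j)) ↔ j = η k

end Pool.Agent.MP_829a8f_lc
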