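import Mathlib.Algebra.Field.Defs
import Mathlib.Data.Nat.Prime.Defs
import Mathlib.ModelTheory.Algebra.Ring.Basic
import Mathlib.ModelTheory.Definability

/-!
Power-large fields and fields interpretable in a structure.
-/

namespace Pool.Agent.MP_829a8f_lc

open FirstOrder

/-- The field `F` is power-large: for every prime `l` different from the characteristic and every
finite set `A` there is `z ≠ 0` such that all `1 + a z` (`a ∈ A`) are nonzero `l`-th powers. -/
def PowerLarge (F : Type) [Field F] : Prop :=
  ∀ l : ℕ, l.Prime → (l : F) ≠ 0 → ∀ A : Finset F,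
    ∃ z : F, z ≠ 0 ∧ ∀ a ∈ A, ∃ y : F, y ≠ 0 ∧ 1 + a * z = y ^ l

/-- The field `F` is interpretable with parameters in the structure `M`: there are a definable set
`X ⊆ M^n` and a map `π` sending `X` onto `F` such that the preimages in `X^3` of the graphs of the
addition and of the multiplication of `F` are definable. -/
def Interprets (M : Type) [Language.ring.Structure M] (F : Type) [Field F] : Prop :=
  ∃ (n : ℕ) (X : Set (Fin n → M)) (π : (Fin n → M) → F),
    (Set.univ : Set M).Definable Language.ring X ∧ (∀ y, ∃ x ∈ X, π x = y) ∧
    (Set.univ : Set M).Definable Language.ring {w : Fin 3 × Fin n → M |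
      (∀ a, (fun i => w (a, i)) ∈ X) ∧
        π (fun i => w (0, i)) + π (fun i => w (1, i)) = π fun i => w (2, i)} ∧
    (Set.univ : Set M).Definable Language.ring {w : Fin 3 × Fin n → M |
      (∀ a, (fun i => w (a, i)) ∈ X) ∧
        π (fun i => w (0, i)) * π (fun i => w (1, i)) = π fun i => w (2, i)}

end Pool.Agent.MP_829a8f_lc
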