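import Pool.Agent.MP_829a8f_lc.h20.Red

/-!
Structures interpretable in the models of the theory of a field.
-/

namespace Pool.Agent.MP_829a8f_lc.H20

open H33 Filter FirstOrder FirstOrder.Language FirstOrder.Ring

lemma los {M J α γ : Type} [Language.ring.Structure M] [Nonempty M] (u : Ultrafilter J)
    {Q : Set (α ⊕ γ → M)} (hQ : (Set.univ : Set M).Definable Language.ring Q) (p : γ → J → M) :
    ∃ Q' : Set (α → (u : Filter J).Product fun _ => M),
      (Set.univ : Set ((u : Filter J).Product fun _ => M)).Definable Language.ring Q' ∧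
      ∀ x : α → J → M, (fun a => (x a : (u : Filter J).Product fun _ => M)) ∈ Q' ↔
        ∀ᶠ t in u, Sum.elim (fun a => x a t) (fun c => p c t) ∈ Q := by
  obtain ⟨φ, rfl⟩ := Set.definable_iff_exists_formula_sum.1 hQ
  refine ⟨_, Set.definable_iff_exists_formula_sum.2 ⟨φ.relabel (Sum.elim
    (fun c => Sum.inl ⟨((fun _ => c.1 : J → M) : (u : Filter J).Product fun _ => M), trivial⟩)
    (Sum.elim Sum.inr fun c => Sum.inl ⟨(p c : (u : Filter J).Product fun _ => M), trivial⟩)),
    rfl⟩, fun x => ?_⟩
  refine Formula.realize_relabel.trans ((iff_of_eq (congrArg _ ?_)).trans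
    ((Ultraproduct.realize_formula_cast (M := fun _ => M) φ
    (Sum.elim (fun c _ => c.1) (Sum.elim x p))).trans (eventually_congr (Eventually.of_forall
      fun t => iff_of_eq (congrArg φ.Realize ?_))))) <;>
  · funext c
    rcases c with c | c | c <;> rfl

variable (K : Type) [Field K] [CompatibleRing K]

/-- The structure is interpretable in a model of the theory of `K`. -/
def Good {F : Type} [Field F] (S : NS F) : Prop :=
  ∃ (M : Type) (_ : Language.ring.Structure M) (_ : Nonempty M), (K ≅[Language.ring] M) ∧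
    ∃ (ι : Type) (_ : Finite ι) (X : (ι → M) → Prop) (π : (ι → M) → F),
      (∀ y, ∃ x, X x ∧ π x = y) ∧ ∀ (α : Type) [Finite α] (P : (α → F) → Prop), S.D P →
        (Set.univ : Set M).Definable Language.ring {w : α × ι → M |
          (∀ a, X fun i => w (a, i)) ∧ P fun a => π fun i => w (a, i)}

variable {K} {F : Type} [Field F] {S : NS F}

lemma Good.interp {E ι : Type} [Field E] [Finite ι] (I : Interp S E ι) (h : Good K S) :
    Good K I.ns := by
  obtain ⟨M, _, _, h0, κ, _, X, π, h1, h2⟩ := h
  refine ⟨M, ‹_›, ‹_›, h0, ι × κ, inferInstance,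
    fun w => (∀ i, X fun j => w (i, j)) ∧ I.X fun i => π fun j => w (i, j),
    fun w => I.π fun i => π fun j => w (i, j), fun y => ?_, fun α _ P hP => ?_⟩
  · obtain ⟨x, k1, rfl⟩ := I.surj y
    choose w k2 k3 using fun i => h1 (x i)
    obtain rfl : x = fun i => π (w i) := funext fun i => (k3 i).symm
    exact ⟨fun p => w p.1 p.2, ⟨k2, k1⟩, rfl⟩
  · convert (h2 (α × ι) _ hP).preimage_comp (Equiv.prodAssoc α ι κ) using 1
    ext w
    exact ⟨fun h => ⟨fun p => (h.1 p.1).1 p.2, fun a => (h.1 a).2, h.2⟩,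
      fun h => ⟨fun a => ⟨fun i => h.1 (a, i), h.2.1 a⟩, h.2.2⟩⟩

lemma Good.up {J : Type} (u : Ultrafilter J) (h : Good K S) : Good K (S.up u) := by
  obtain ⟨M, _, _, h0, ι, _, X, π, h1, h2⟩ := h
  choose r hr using fun w : (u : Filter J).Product fun _ => M => Quotient.exists_rep w
  refine ⟨(u : Filter J).Product fun _ => M, inferInstance, inferInstance,
    h0.trans (elementarilyEquivalent_iff.2 fun ψ =>
      ((Ultraproduct.sentence_realize ψ).trans eventually_const).symm), ι, ‹_›,
    fun w => ∀ᶠ t in u, X fun i => r (w i) t, fun w => ↑fun t => π fun i => r (w i) t,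
    fun y => ?_, ?_⟩
  · obtain ⟨y, rfl⟩ := Quotient.exists_rep y
    choose x k1 k2 using fun t => h1 (y t)
    have k3 : ∀ᶠ t in u, (fun i => r ((fun t => x t i : J → M) :
        (u : Filter J).Product fun _ => M) t) = x t :=
      (eventually_all.2 fun i => Quotient.exact (hr ((fun t => x t i : J → M) :
        (u : Filter J).Product fun _ => M))).mono fun t => funext
    exact ⟨fun i => ((fun t => x t i : J → M) : (u : Filter J).Product fun _ => M),
      k3.mono fun t e => e ▸ k1 t, Germ.coe_eq.2 (k3.mono fun t e => (congrArg π e).trans (k2 t))⟩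
  rintro α _ P ⟨γ, _, Q, p, hQ, h⟩
  choose q k1 k2 using fun c t => h1 (p c t)
  obtain ⟨Q', k3, k4⟩ := los u ((h2 _ Q hQ).preimage_comp (Equiv.sumProdDistrib α γ ι))
    fun c t => q c.1 t c.2
  convert k3 using 1
  ext w
  refine Iff.trans ?_ ((k4 fun a => r (w a)).symm.trans (iff_of_eq (congrArg (· ∈ Q') (funext
    fun a => hr (w a)))))
  refine (eventually_all.symm.and (h fun a t => π fun i => r (w (a, i)) t)).trans
    (eventually_and.symm.trans (eventually_congr (Eventually.of_forall fun t => and_congr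
      ⟨fun m => Sum.rec m fun c => k1 c t, fun m a => m (Sum.inl a)⟩
      (iff_of_eq (congrArg Q ?_)))))
  funext c
  cases c with
  | inl c => rfl
  | inr c => exact (k2 c t).symm

lemma Good.interprets (h : Good K S) : ∃ (M : Type) (_ : Language.ring.Structure M),
    (K ≅[Language.ring] M) ∧ Interprets M F := by
  obtain ⟨M, i, _, h0, ι, _, X, π, h1, h2⟩ := h
  obtain ⟨n, ⟨e⟩⟩ := Finite.exists_equiv_fin ι
  refine ⟨M, i, h0, n, {v | X fun i => v (e i)}, fun v => π fun i => v (e i), ?_, fun y => ?_,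
    (h2 _ _ S.add).preimage_comp (Prod.map id e), (h2 _ _ S.mul).preimage_comp (Prod.map id e)⟩
  · convert (h2 Unit _ NS.tru).preimage_comp fun p => e p.2 using 1
    ext w
    exact ⟨fun h => ⟨fun _ => h, trivial⟩, fun h => h.1 ()⟩
  · obtain ⟨x, k1, k2⟩ := h1 y
    exact ⟨fun j => x (e.symm j), by simpa using k1, by simpa using k2⟩

/-- The structure of definable sets of a dependent field. -/
def nsN (h : NIPn 1 K) : NS K where
  D P := Df P
  re f _ hP := Set.Definable.preimage_comp f hP
  not hP := Set.Definable.compl hP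
  and hP hQ := Df.and hP hQ
  ex {α β} _ _ P hP := Df.ex (P := fun v u => P (Sum.elim v u)) (Df.congr hP fun w =>
    iff_of_eq (congrArg P (Sum.elim_comp_inl_inr w)))
  add := Df.eq ((Fn.proj 0).add (Fn.proj 1)) (Fn.proj 2)
  mul := Df.eq ((Fn.proj 0).mul (Fn.proj 1)) (Fn.proj 2)
  cst c := Df.eq (Fn.proj 0) (Fn.const c)
  nip {α β} _ _ P hP := by
    obtain ⟨N, hN⟩ := exists_not_pattern h (μ := α ⊕ β)
      (fun b y => P (Sum.elim (fun a => b (Sum.inl a)) fun c => y 0 (Sum.inr c)))
      (Df.congr (Set.Definable.preimage_comp (Sum.elim (fun a => (0, Sum.inl a))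
        fun c => ((0 : Fin 1).succ, Sum.inr c)) hP) fun v => iff_of_eq (congrArg P (by
          funext c
          cases c <;> rfl)))
    exact ⟨N, fun ⟨a, b, hab⟩ => hN ⟨fun _ j => Sum.elim 0 (a j),
      fun s => Sum.elim (b {j | (fun _ => j) ∈ s}) 0, fun s j => (hab _ (j 0)).trans
        (iff_of_eq (congrArg (· ∈ s) (funext fun i => congrArg j (Subsingleton.elim _ _))))⟩⟩

theorem shelah_her (hK : NIPn 1 K) (h : ∀ (M : Type) [Language.ring.Structure M],
    (K ≅[Language.ring] M) → ∀ (F : Type) [Field F] [Infinite F], Interprets M F → PowerLarge F) :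
    Finite K ∨ IsSepClosed K ∨ Module.finrank K (AlgebraicClosure K) = 2 ∨
      ∃ R : ValuationSubring K, R ≠ ⊤ ∧ HenselianLocalRing R :=
  Cls.shelah (C := ⟨Good K, Good.interp, Good.up, fun hS => by
    obtain ⟨M, _, h1, h2⟩ := hS.interprets
    exact h M h1 _ h2⟩) (S := nsN hK) ⟨K, inferInstance, inferInstance, rfl, Unit, inferInstance,
      fun _ => True, fun w => w (), fun y => ⟨fun _ => y, trivial, rfl⟩, fun α _ P hP => by
        convert Set.Definable.preimage_comp (fun a => (a, ())) hP using 1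
        ext w
        exact and_iff_right fun _ => trivial⟩

end Pool.Agent.MP_829a8f_lc.H20
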