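import Pool.Agent.MP_829a8f_lc.h20.Gauge
import Pool.Agent.MP_829a8f_lc.h20.Defs2

-- ======== part 0: formerly Pool.Agent.MP_829a8f_lc.h20.Ref
section MrgPart0

/-!
Refinement of modules over a gauge.
-/

namespace Pool.Agent.MP_829a8f_lc.H20

open H33 Finset

variable {E : Type} [Field E] {S : NS E} {k : Subfield E} {V M : Set E}

namespace GM

variable (hV : RG k V) (hM : GM k V M) {x : E}
include hV hM

lemma lin {α : Type} {f g h : α → E} (hf : UB k M f) (hg : UB k M g) {c d : E} (hc : c ∈ k)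
    (hd : d ∈ k) (e : ∀ a, h a = c * f a + d * g a) : UB k M h := by
  obtain ⟨s, h1, h2, h3⟩ := hf
  obtain ⟨t, k1, k2, k3⟩ := hg
  obtain ⟨γ, m1, m2, m3⟩ := hM.add
  obtain ⟨r, n1, n2, n3⟩ := hV.dir {c / s, d / t} (Set.toFinite _) (by
    rintro _ (rfl | rfl)
    exacts [div_mem hc h1, div_mem hd k1])
  refine ⟨γ * r, mul_mem m1 n1, mul_ne_zero m2 n2, fun a => ?_⟩
  convert m3 _ (hM.mul (n3 (c / s) (by simp)) (h3 a)) _ (hM.mul (n3 (d / t) (by simp)) (k3 a))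
    using 1
  rw [e]
  field_simp

lemma comU {α ι : Type} {A : Set ι} (hA : A.Finite) {f : ι → α → E} (h : ∀ i ∈ A, UB k M (f i)) :
    ∃ t ∈ k, t ≠ 0 ∧ ∀ i ∈ A, ∀ a, t * f i a ∈ M := by
  obtain ⟨t, h1, h2, h3⟩ := hM.com hV hA (P := fun i z => ∃ a, z = f i a) fun i hi => by
    obtain ⟨t, h1, h2, h3⟩ := h i hi
    exact ⟨t, h1, h2, by rintro _ ⟨a, rfl⟩; exact h3 a⟩
  exact ⟨t, h1, h2, fun i hi a => h3 i hi _ ⟨a, rfl⟩⟩

variable (hx : x ∉ k)
include hx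

lemma frac {α : Type} {f : α → E} {c d e : E} (hc : c ∈ k) (hd : d ∈ k) (he : e ∈ k) (h : c ≠ e)
    (h1 : UB k M fun a => f a / (x - c)) (h2 : UB k M fun a => f a / (x - e)) :
    UB k M fun a => f a * ((x - d) / (x - c)) / (x - e) := by
  refine hM.lin hV h1 h2 (div_mem (sub_mem hc hd) (sub_mem hc he))
    (div_mem (sub_mem hd he) (sub_mem hc he)) fun a => ?_
  have := sub_ne_zero.2 h
  have := sub_ne_zero.2 (ne_of_mem_of_not_mem hc hx).symm
  have := sub_ne_zero.2 (ne_of_mem_of_not_mem he hx).symm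
  field_simp
  ring

lemma exch [DecidableEq E] {c : E} (hc : c ∈ k) {A' : Finset E} (hA' : ↑A' ⊆ (k : Set E))
    (h' : c ∉ A') (n : ℕ) : ∀ A : Finset E, ↑A ⊆ (k : Set E) → c ∉ A → A.card ≤ A'.card →
      (A \ A').card = n → Red k M x c A → Red k M x c A' := by
  induction n with
  | zero =>
    exact fun A _ _ _ h hr α f hf =>
      hr α f fun e he => hf e (sdiff_eq_empty_iff_subset.1 (card_eq_zero.1 h) he)
  | succ n ih =>
    intro A hA h hc' hn hr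
    obtain ⟨e, he''⟩ := card_pos.1 (hn ▸ n.succ_pos : 0 < (A \ A').card)
    obtain ⟨he, he'⟩ := mem_sdiff.1 he''
    obtain ⟨d, hd, hd'⟩ : ∃ d ∈ A', d ∉ A := by
      by_contra q
      push Not at q
      exact he' (eq_of_subset_of_card_le q hc' ▸ he)
    have k1 : d ∉ A.erase e := fun q => hd' (mem_of_mem_erase q)
    have k2 : c ≠ d := (ne_of_mem_of_not_mem hd h').symm
    refine ih (insert d (A.erase e)) (by
      rw [coe_insert]
      exact Set.insert_subset (hA' hd) fun _ q => hA (mem_of_mem_erase q))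
      (by simp [k2, h]) (by rw [card_insert_of_notMem k1, card_erase_add_one he]; exact hc') (by
      rw [insert_sdiff_of_mem _ hd, erase_sdiff_comm, card_erase_of_mem he'', hn]; rfl) ?_
    intro α f hf
    have k3 := hf d (mem_insert_self _ _)
    have k4 := sub_ne_zero.2 (ne_of_mem_of_not_mem (hA he) hx).symm
    have k5 := sub_ne_zero.2 (ne_of_mem_of_not_mem (hA' hd) hx).symm
    have k6 := sub_ne_zero.2 (ne_of_mem_of_not_mem hc hx).symm
    have k7 := sub_ne_zero.2 (ne_of_mem_of_not_mem he h).symm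
    refine hM.lin hV (hr α (fun a => f a * ((x - e) / (x - d))) fun e' q => ?_) k3
      (div_mem (sub_mem hc (hA' hd)) (sub_mem hc (hA he)))
      (div_mem (sub_mem (hA' hd) (hA he)) (sub_mem hc (hA he))) fun a => ?_
    · by_cases q' : e' = e
      · convert k3 using 2 with a
        rw [q']
        field_simp
      · exact hM.frac hV hx (hA' hd) (hA he) (hA q) (ne_of_mem_of_not_mem q hd').symm k3
          (hf _ (mem_insert_of_mem (mem_erase.2 ⟨q', q⟩)))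
    · field_simp
      ring

omit hx in
theorem exists_red (hd : S.U M) : ∃ N : ℕ, ∀ x ∉ k, ∀ C : Finset E, ↑C ⊆ (k : Set E) →
    N ≤ C.card → ∃ A ⊆ C, 1 < A.card ∧ ∀ c ∈ A, ∃ A' ⊆ A, c ∉ A' ∧ Red k M x c A' := by
  classical
  obtain ⟨N, g, h1, h2, h3⟩ := hM.bs hV hd
  refine ⟨2 * N + 2, fun x hx C hC hN => ?_⟩
  let G : E → Prop := fun c => ∀ A : Finset E, ↑A ⊆ (k : Set E) → c ∉ A → N ≤ A.card → Red k M x c A
  have h4 : (C.filter fun c => ¬ G c).card < N := by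
    by_contra h
    obtain ⟨B, k1, k2⟩ := exists_subset_card_eq (not_lt.1 h)
    have k3 : ↑B ⊆ (k : Set E) := fun _ q => hC (mem_filter.1 (k1 q)).1
    obtain ⟨c, hc, k4⟩ := h3 B (fun c => x - c) k2.ge
    refine (mem_filter.1 (k1 hc)).2 fun A hA q q' => hM.exch hV hx (k3 hc) hA q _ (B.erase c)
      (fun _ q => k3 (mem_of_mem_erase q)) (notMem_erase _ _) (card_erase_le.trans (k2 ▸ q')) rfl
      fun α f hf => ?_
    obtain ⟨t, m1, m2, m3⟩ := hM.comU hV (B.erase c).finite_toSet hf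
    refine ⟨g * t, mul_mem h1 m1, mul_ne_zero h2 m2, fun a => ?_⟩
    convert k4 (t * f a) fun i hi e => mul_div_assoc t _ _ ▸ m3 i (mem_erase.2 ⟨e, hi⟩) a using 1
    ring
  have h5 := card_filter_add_card_filter_not (s := C) G
  refine ⟨C.filter G, filter_subset _ _, by omega, fun c hc => ⟨_, erase_subset _ _,
    notMem_erase _ _, (mem_filter.1 hc).2 _ (fun _ q => hC (mem_filter.1 (mem_of_mem_erase q)).1)
    (notMem_erase _ _) ?_⟩⟩
  rw [card_erase_of_mem hc]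
  omega

omit hx hV in
lemma inter {ι : Type} (A : Set ι) (ρ : ι → E) : GM k V {z | ∀ e ∈ A, z * ρ e ∈ M} where
  zero := fun _ _ => by simpa using hM.zero
  mul := fun hv hm e he => mul_assoc _ _ (ρ e) ▸ hM.mul hv (hm e he)
  add := by
    obtain ⟨g, h1, h2, h3⟩ := hM.add
    exact ⟨g, h1, h2, fun x hx y hy e he => by
      rw [mul_assoc, add_mul]
      exact h3 _ (hx e he) _ (hy e he)⟩

lemma ratio_mem {A : Finset E} (hA : ↑A ⊆ (k : Set E))
    (h : ∀ c ∈ A, ∃ A' ⊆ A, c ∉ A' ∧ Red k M x c A') (y : E) {c d : E} (hc : c ∈ A) (hd : d ∈ A) :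
    (x - d) / (x - c) ∈ (hM.inter (A : Set E) fun e => y / (x - e)).End hV := by
  have h1 : ∀ e ∈ A, UB k M fun m : {z | ∀ e ∈ (A : Set E), z * (y / (x - e)) ∈ M} =>
      m * y / (x - e) := fun e he => ⟨1, one_mem _, one_ne_zero, fun m => by
    simpa [mul_div_assoc] using m.2 e he⟩
  have h2 := fun e he q => hM.frac hV hx (hA hc) (hA hd) (hA he) q (h1 c hc) (h1 e he)
  obtain ⟨t, k1, k2, k3⟩ := hM.comU hV A.finite_toSet (f := fun e
    (m : {z | ∀ e ∈ (A : Set E), z * (y / (x - e)) ∈ M}) => m * y * ((x - d) / (x - c)) / (x - e))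
    fun e he => by
      by_cases q : c = e
      · obtain ⟨A', m1, m2, m3⟩ := h c hc
        exact q ▸ m3 _ _ fun e he => h2 e (m1 he) (ne_of_mem_of_not_mem he m2).symm
      · exact h2 e he q
  refine ⟨t, k1, k2, fun m hm e he => ?_⟩
  convert k3 e he ⟨m, hm⟩ using 1
  ring

end GM

variable (S) in
/-- A definable module cut out of the gauge by finitely many of its own multipliers. -/
structure Adm (hV : RG k V) (M : Set E) : Prop where
  gm : GM k V M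
  dM : S.U M
  MV : ∀ m ∈ M, m ∈ V
  iso : ∃ P : Set E, P.Finite ∧ (∀ ρ ∈ P, ρ ∈ gm.End hV) ∧ ∀ z, (∀ ρ ∈ P, z * ρ ∈ V) → z ∈ M

lemma Adm.self (hV : RG k V) (dV : S.U V) : Adm S hV V :=
  ⟨hV.gm, dV, fun _ => id, {1}, Set.finite_singleton _, by rintro _ rfl; exact one_mem _,
    fun z hz => by simpa using hz 1 rfl⟩

namespace Adm

variable {hV : RG k V} (a : Adm S hV M)

/-- The ring of multipliers. -/
def R : Subring E := a.gm.End hV

/-- The ideal of infinitesimals. -/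
def J : AddSubgroup E := a.gm.Inf

lemma RJ {r j : E} (hr : r ∈ a.R) (hj : j ∈ a.J) : r * j ∈ a.J := a.gm.End_Inf hV hr hj

lemma kR {c : E} (hc : c ∈ k) : c ∈ a.R := a.gm.k_End hV hc

lemma VR {v : E} (hv : v ∈ V) : v ∈ a.R := a.gm.V_End hV hv

lemma JM {j : E} (hj : j ∈ a.J) : j ∈ M := by simpa using hj 1 (one_mem _)

lemma JR {j : E} (hj : j ∈ a.J) : j ∈ a.R := a.VR (a.MV _ (a.JM hj))

lemma jac {j : E} (hj : j ∈ a.J) : 1 + j ≠ 0 ∧ (1 + j)⁻¹ ∈ a.R := by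
  obtain ⟨g, k1, k2, k3⟩ := hV.inv
  obtain ⟨k4, k5⟩ := k3 _ (a.MV _ (hj _ (inv_mem k1)))
  rw [mul_inv_cancel_left₀ k2] at k4 k5
  refine ⟨k4, ?_⟩
  convert sub_mem (one_mem _) (a.VR k5) using 1
  field_simp
  ring

theorem refine : ∃ N : ℕ, ∀ x ∉ k, ∀ C : Finset E, ↑C ⊆ (k : Set E) → N ≤ C.card →
    ∃ A ⊆ C, ∃ c₀ ∈ A, ∃ c₁ ∈ A, c₀ ≠ c₁ ∧ ∃ (M' : Set E) (a' : Adm S hV M'),
      (∀ z, z ∈ M' ↔ ∀ e ∈ A, z * ((x - c₀) / (x - e)) ∈ M) ∧ (x - c₁)⁻¹ ∈ a'.R ∧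
      a.R ≤ a'.R ∧ a'.J ≤ a.J := by
  obtain ⟨N, hN⟩ := a.gm.exists_red hV a.dM
  refine ⟨N, fun x hx C hC h => ?_⟩
  obtain ⟨A, hA1, hA2, hA3⟩ := hN x hx C hC h
  have hA : ↑A ⊆ (k : Set E) := fun _ q => hC (hA1 q)
  have x0 : ∀ e ∈ A, x - e ≠ 0 := fun e he =>
    sub_ne_zero.2 (ne_of_mem_of_not_mem (hA he) hx).symm
  obtain ⟨c₀, h₀, c₁, h₁, h01⟩ := one_lt_card.1 hA2
  have hM := a.gm.inter (A : Set E) fun e => (x - c₀) / (x - e)
  have hr : ∀ e ∈ A, (x - c₀) / (x - e) ∈ hM.End hV := fun e he =>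
    a.gm.ratio_mem hV hx hA hA3 _ he h₀
  have h1 : ∀ z, (∀ e ∈ (A : Set E), z * ((x - c₀) / (x - e)) ∈ M) → z ∈ M := fun z hz => by
    simpa [x0 _ h₀] using hz c₀ h₀
  have h2 : a.R ≤ hM.End hV := by
    rintro r ⟨t, k1, k2, k3⟩
    refine ⟨t, k1, k2, fun m hm e he => ?_⟩
    convert k3 _ (hm e he) using 1
    ring
  obtain ⟨P, k1, k2, k3⟩ := a.iso
  refine ⟨A, hA1, c₀, h₀, c₁, h₁, h01, _, ⟨hM,
    NS.congr (NS.all fun e : A => a.dM.app ((NS.proj ()).mul (NS.const ((x - c₀) / (x - e)))))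
      fun v => ⟨fun h e => h e e.2, fun h e he => h ⟨e, he⟩⟩, fun m hm => a.MV _ (h1 m hm), _,
    A.finite_toSet.image2 (fun e ρ => (x - c₀) / (x - e) * ρ) k1, ?_, fun z hz e he =>
      k3 _ fun ρ hρ => mul_assoc z _ ρ ▸ hz _ ⟨e, he, ρ, hρ, rfl⟩⟩, fun _ => Iff.rfl, ?_, h2,
    fun j hj t ht => h1 _ (hj t ht)⟩
  · rintro _ ⟨e, he, ρ, hρ, rfl⟩
    exact mul_mem (hr e he) (h2 (k2 ρ hρ))
  · change _ ∈ hM.End hV
    convert mul_mem (hM.k_End hV (inv_mem (sub_mem (hA h₁) (hA h₀))))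
      (sub_mem (hr c₁ h₁) (one_mem _)) using 1
    have := x0 _ h₁
    have := sub_ne_zero.2 h01.symm
    field_simp
    ring

end Adm

end Pool.Agent.MP_829a8f_lc.H20

end MrgPart0

-- ======== part 1: formerly Pool.Agent.MP_829a8f_lc.h20.Loc
section MrgPart1

/-!
Maximal orthogonal families and the localisation of the ring of multipliers.
-/

namespace Pool.Agent.MP_829a8f_lc.H20

open H33 Finset

variable {E : Type} [Field E] {S : NS E} {ι : Type} {k : Subfield E} {V M : Set E}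

/-- The gauge defines the topology of the group. -/
structure Ctx (d : Dt S ι) (k : Subfield E) (V : Set E) : Prop where
  hk : (k : Set E).Infinite
  ka : d.a ∈ k
  kπ : d.π ∈ k
  dV : S.U V
  hc : ∃ c ∈ k, c ≠ 0 ∧ ∀ x ∈ V, 1 + c * x ∈ d.T
  hA : ∃ A₀ : Set E, A₀.Finite ∧ A₀ ⊆ k ∧ ∀ z, (∀ a ∈ A₀, 1 + a * z ∈ d.T) → z ∈ V

namespace Adm

variable {hV : RG k V} (a : Adm S hV M) {d : Dt S ι} (X : Ctx d k V)
include X

lemma JT {j : E} (hj : j ∈ a.J) : 1 + j ∈ d.T := by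
  obtain ⟨c, kc, c0, hc⟩ := X.hc
  simpa [c0] using hc _ (a.MV _ (hj _ (inv_mem kc)))

lemma JO {j : E} (hj : j ∈ a.J) (i : ι) : j ∈ d.O i := by
  have h := (d.TH _ (a.JT X (a.RJ (a.kR (mul_mem X.ka X.kπ)) hj))).2 i
  rwa [add_sub_cancel_left, mul_div_cancel_left₀ _ d.b0] at h

lemma rad {w : E} (hw : w ∈ a.R) (h : w ^ 2 ∈ a.J) : 1 + w ∈ d.T := by
  have l0 := d.l0
  have b0 := d.b0
  have kl : (d.l : E)⁻¹ ∈ k := inv_mem (natCast_mem k _)
  have k1 : 1 + (d.l : E)⁻¹ * w ∈ HH d.O (d.a * d.π) := ⟨fun q => (a.jac (neg_mem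
    (a.RJ (a.kR (pow_mem kl 2)) h))).1 (by
      linear_combination (1 - (d.l : E)⁻¹ * w) * q), fun i => mem_of_pow two_ne_zero (by
    convert a.JO X (a.RJ (a.kR (pow_mem (div_mem kl (mul_mem X.ka X.kπ)) 2)) h) i using 1
    ring)⟩
  obtain ⟨ρ, k2, k3⟩ := one_add_pow' (mul_mem (a.kR kl) hw) d.l
  obtain ⟨k4, k5⟩ := a.jac (neg_mem h)
  have k6 : 1 + w ≠ 0 := fun q => k4 (by linear_combination (1 - w) * q)
  have k7 := a.JT X (a.RJ (mul_mem (mul_mem (mul_mem k2 (a.kR (pow_mem kl 2)))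
    (sub_mem (one_mem _) hw)) k5) h)
  convert d.hT.div (d.pw _ k1) k7 using 1
  rw [eq_div_iff (d.hT.ne k7), k3]
  field_simp
  ring

lemma rad' {w : E} (hw : w ∈ a.R) (h : w * w ∈ a.J) : w ∈ a.J := by
  obtain ⟨A₀, -, kA, hA'⟩ := X.hA
  obtain ⟨P, -, k2, k3⟩ := a.iso
  refine fun t ht => k3 _ fun ρ hρ => hA' _ fun c hc => ?_
  have k1 : c * t * ρ ∈ a.R := mul_mem (a.kR (mul_mem (kA hc) ht)) (k2 ρ hρ)
  convert a.rad X (mul_mem k1 hw) (by
    convert a.RJ (pow_mem k1 2) h using 1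
    ring) using 2
  ring

lemma MJ {s r : E} (hs : ∀ h ∈ k, h * s ∈ V) (hr : r ∈ a.R) (h : s * r ∈ M) : s * r ∈ a.J :=
  a.rad' X (a.VR (a.MV _ h)) fun t ht => by
    obtain ⟨t', k1, k2, k3⟩ := hr
    convert a.gm.mul (hs _ (div_mem ht k1)) (k3 _ h) using 1
    field_simp

omit X in
/-- Orthogonal families. -/
def Fam {m : ℕ} (e : Fin m → E) : Prop :=
  (∀ i, e i ∈ a.R ∧ e i ∉ a.J) ∧ ∀ i j, i ≠ j → e i * e j ∈ a.J

end Adm

variable {d : Dt S ι} (X : Ctx d k V) (hV : RG k V)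
include X

lemma Ctx.bound : ∃ N : ℕ, ∀ (M : Set E) (a : Adm S hV M) (m : ℕ) (e : Fin m → E),
    a.Fam e → m < N := by
  classical
  obtain ⟨N, hN⟩ := NS.U.nip (S := S) (X := Vᶜ) (S.not X.dV)
  obtain ⟨g, g1, g2, g3⟩ := hV.add
  refine ⟨N, fun M a m e ⟨h1, h2⟩ => not_le.1 fun h => ?_⟩
  obtain ⟨P, -, k2, k3⟩ := a.iso
  have h3 : ∀ j, ∃ y ∈ a.R, g * (y * (e j * e j)) ∉ V := fun j => by
    by_contra q
    push Not at q
    refine (h1 j).2 (a.rad' X (h1 j).1 fun t ht => k3 _ fun ρ hρ => ?_)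
    convert q _ (mul_mem (a.kR (div_mem ht g1)) (k2 ρ hρ)) using 1
    field_simp
  choose y hy hy' using h3
  let f := Fin.castLE h
  have h4 : ∀ (s : Finset (Fin N)) j, j ∉ s → ∑ i ∈ s, y (f j) * (e (f j) * e (f i)) ∈ a.J :=
    fun s j hj => sum_mem fun i hi => a.RJ (hy _) (h2 _ _ fun q =>
      hj (Fin.castLE_injective h q ▸ hi))
  refine hN ⟨0, fun j => (y (f j) * e (f j))⁻¹, fun s => ∑ i ∈ univ.filter (· ∈ s), e (f i),
    fun s j => ?_⟩
  simp only [Pi.zero_apply, sub_zero, Set.mem_compl_iff, div_inv_eq_mul, mul_comm _ (y _ * _),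
    mul_sum, mul_assoc]
  refine ⟨fun q => by_contra fun hj => q (a.MV _ (a.JM (h4 _ j (by simpa using hj)))),
    fun hj q => hy' (f j) ?_⟩
  rw [← add_sum_erase _ _ (show j ∈ univ.filter (· ∈ s) by simpa using hj)] at q
  convert g3 _ q _ (a.MV _ (a.JM (neg_mem (h4 _ j (notMem_erase j (univ.filter (· ∈ s)))))))
    using 1
  ring

lemma Ctx.exists_max {s : E} (hs : ∀ h ∈ k, h * s ∈ V)
    (h : ∀ C : Finset E, ↑C ⊆ (k : Set E) → ∃ x, ∀ c ∈ C, x ≠ c → s / (x - c) ∉ V) :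
    ∃ (M : Set E) (a : Adm S hV M) (m : ℕ) (e : Fin m → E), s ∉ a.J ∧ a.Fam e ∧
      ∀ (M' : Set E) (a' : Adm S hV M') (e' : Fin m → E), s ∉ a'.J → a'.Fam e' →
        ∀ r ∈ a'.R, (∀ i, r * e' i ∈ a'.J) → r ∈ a'.J := by
  obtain ⟨N, hN⟩ := X.bound hV
  let Z : Set ℕ := {m | ∃ (M : Set E) (a : Adm S hV M) (e : Fin m → E), s ∉ a.J ∧ a.Fam e}
  have h1 : BddAbove Z := ⟨N, fun m ⟨M, a, e, _, q⟩ => (hN M a m e q).le⟩
  have h2 : 0 ∈ Z := by
    obtain ⟨N, hN⟩ := (Adm.self hV X.dV).refine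
    obtain ⟨C, hC, hC'⟩ := X.hk.exists_subset_card_eq (N + 2)
    obtain ⟨x, hx'⟩ := h C hC
    have hx : x ∉ k := fun q => by
      obtain ⟨e, he, q'⟩ := exists_mem_ne (s := C) (by omega) x
      exact hx' e he q'.symm (div_eq_inv_mul s _ ▸ hs _ (inv_mem (sub_mem q (hC he))))
    obtain ⟨A, k1, -, -, c, k2, -, M, a, -, k3, -⟩ := hN x hx C hC (by omega)
    exact ⟨M, a, Fin.elim0, fun q => hx' c (k1 k2) (ne_of_mem_of_not_mem (hC (k1 k2)) hx).symm
      (div_eq_inv_mul s _ ▸ a.MV _ (a.JM (a.RJ k3 q))), fun i => i.elim0, fun i => i.elim0⟩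
  obtain ⟨M, a, e, k1, k2⟩ := Nat.sSup_mem ⟨0, h2⟩ h1
  refine ⟨M, a, _, e, k1, k2, fun M' a' e' m1 m2 r hr m3 => by_contra fun q => ?_⟩
  refine absurd (le_csSup h1 ⟨M', a', Fin.cons r e', m1, Fin.cases ⟨hr, q⟩ m2.1, fun i j => ?_⟩)
    (Nat.not_succ_le_self _)
  induction i using Fin.cases <;> induction j using Fin.cases
  · exact fun h => absurd rfl h
  · exact fun _ => m3 _
  · exact fun _ => mul_comm r _ ▸ m3 _
  · exact fun h => m2.2 _ _ fun q => h (congrArg _ q)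

/-- The localisation at a minimal prime over the infinitesimals. -/
theorem Ctx.exists_loc {s : E} (hs : ∀ h ∈ k, h * s ∈ V)
    (h : ∀ C : Finset E, ↑C ⊆ (k : Set E) → ∃ x, ∀ c ∈ C, x ≠ c → s / (x - c) ∉ V) :
    ∃ (M : Set E) (a : Adm S hV M) (Q : Subring E) (ε g : E), a.R ≤ Q ∧
      (∀ q ∈ Q, ∀ j ∈ a.J, q * j ∈ a.J) ∧ ε ∈ Q ∧ ε * ε - ε ∈ a.J ∧ ε * s ∉ a.J ∧
      (∀ x ∈ Q, ε * x ∉ a.J → ∃ y ∈ Q, ε * (x * y - 1) ∈ a.J) ∧
      (∀ x ∈ Q, ∃ b ∈ a.R, ε * b ∉ a.J ∧ b * x ∈ a.R) ∧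
      ∀ r ∈ a.R, ε * r ∈ a.J ↔ g * r ∈ M := by
  classical
  obtain ⟨M, a, m, e, sJ, he, hmax⟩ := X.exists_max hV hs h
  have sR : s ∈ a.R := a.VR (by simpa using hs 1 (one_mem _))
  have J1 : (1 : E) ∉ a.J := fun q => sJ (by simpa using a.RJ sR q)
  have eR := fun i => (he.1 i).1
  have mx := hmax M a e sJ he
  have pr : ∀ i, ∀ x ∈ a.R, ∀ y ∈ a.R, x * y * e i ∈ a.J → x * e i ∉ a.J → y * e i ∈ a.J := by
    intro i x hx y hy h1 h2
    have h3 : ∀ j, ∃ z ∈ a.R, Function.update e i (x * e i) j = z * e j := fun j => by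
      by_cases q : j = i
      · exact ⟨x, hx, by simp [q]⟩
      · exact ⟨1, one_mem _, by simp [q]⟩
    refine hmax M a (Function.update e i (x * e i)) sJ ⟨fun j => ?_, fun j j' q => ?_⟩ _
      (mul_mem hy (eR i)) fun j => ?_
    · by_cases q : j = i
      · simpa [q] using And.intro (mul_mem hx (eR i)) h2
      · simpa [q] using he.1 j
    · obtain ⟨z, k1, k2⟩ := h3 j
      obtain ⟨z', k3, k4⟩ := h3 j'
      rw [k2, k4, mul_mul_mul_comm]
      exact a.RJ (mul_mem k1 k3) (he.2 _ _ q)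
    · by_cases q : j = i
      · rw [q, Function.update_self]
        convert a.RJ (eR i) h1 using 1
        ring
      · rw [Function.update_of_ne q, mul_assoc]
        exact a.RJ hy (he.2 _ _ (Ne.symm q))
  let nz : E → Prop := fun b => b ∈ a.R ∧ ∀ r ∈ a.R, r * b ∈ a.J → r ∈ a.J
  have nz0 : ∀ {b}, nz b → b ≠ 0 := fun hb q => J1 (hb.2 1 (one_mem _) (by simp [q]))
  have nzm : ∀ {b c}, nz b → nz c → nz (b * c) := fun hb hc => ⟨mul_mem hb.1 hc.1,
    fun r hr q => hb.2 r hr (hc.2 _ (mul_mem hr hb.1) (mul_assoc r _ _ ▸ q))⟩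
  have nz1 : nz 1 := ⟨one_mem _, fun r _ q => by simpa using q⟩
  have nzp : ∀ (A : Finset E) (f : E → E), (∀ c ∈ A, nz (f c)) → nz (∏ c ∈ A, f c) :=
    fun A f q => prod_induction f nz (fun _ _ => nzm) nz1 q
  have nze : ∀ b ∈ a.R, (∀ i, b * e i ∉ a.J) → nz b := fun b hb q => ⟨hb, fun r hr q' =>
    mx r hr fun i => pr i b hb r hr (by
      convert a.RJ (eR i) q' using 1
      ring) (q i)⟩
  have dv : ∀ j ∈ a.J, ∀ π, nz π → j / π ∈ a.J := by
    intro j hj π hπ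
    have π0 := nz0 hπ
    by_cases hx : j / π ∈ k
    · exact hπ.2 _ (a.kR hx) (by rwa [div_mul_cancel₀ _ π0])
    obtain ⟨N, hN⟩ := a.refine
    obtain ⟨C, hC, hC'⟩ := (X.hk.sdiff (Set.finite_singleton 0)).exists_subset_card_eq N
    obtain ⟨A, k1, c₀, h₀, c₁, h₁, -, M', a', k2, k3, k4, k5⟩ :=
      hN _ hx C (fun _ q => (hC q).1) hC'.ge
    have kA : ∀ c ∈ A, c ∈ k := fun c q => (hC (k1 q)).1
    have h1 : ∀ c ∈ A, nz (j - c * π) := fun c q => ⟨sub_mem (a.JR hj) (mul_mem (a.kR (kA c q)) hπ.1),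
      fun r hr q' => by
        have c0 : c ≠ 0 := (hC (k1 q)).2
        refine hπ.2 r hr ?_
        convert a.RJ (a.kR (inv_mem (kA c q))) (sub_mem (a.RJ hr hj) q') using 1
        field_simp
        ring⟩
    have h2 : ∀ c ∈ A, j / π - c = (j - c * π) / π := fun c _ => by field_simp
    have h3 := nzp A _ h1
    have h4 : ∀ c ∈ A, ∃ z ∈ a.R, ∏ c ∈ A, (j - c * π) = (j - c * π) * z := fun c q =>
      ⟨_, (nzp _ _ fun c q => h1 c (mem_of_mem_erase q)).1, (mul_prod_erase _ _ q).symm⟩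
    generalize ∏ c ∈ A, (j - c * π) = L at h3 h4
    have h5 : ∀ z ∈ a.J, L * z ∈ a'.J := fun z hz t ht => (k2 _).2 fun c q => by
      obtain ⟨w, m1, m2⟩ := h4 c q
      have := nz0 (h1 c q)
      convert a.RJ (mul_mem m1 (h1 c₀ h₀).1) hz t ht using 1
      rw [m2, h2 c q, h2 c₀ h₀]
      field_simp
    have h6 := nz0 (h1 c₁ h₁)
    have h7 : j / (j - c₁ * π) ∈ a.J := by
      refine k5 (hmax M' a' (fun i => L * L * e i) (fun q => sJ (k5 q))
        ⟨fun i => ⟨k4 (mul_mem (nzm h3 h3).1 (eR i)), fun q => (he.1 i).2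
          ((nzm h3 h3).2 _ (eR i) (mul_comm (e i) _ ▸ k5 q))⟩, fun i i' q => ?_⟩ _ ?_ fun i => ?_)
      · convert h5 _ (a.RJ (mul_mem (nzm h3 h3).1 h3.1) (he.2 i i' q)) using 1
        ring
      · convert add_mem (one_mem _) (mul_mem (a'.kR (kA c₁ h₁)) k3) using 1
        rw [h2 c₁ h₁]
        field_simp
        ring
      · obtain ⟨w, m1, m2⟩ := h4 c₁ h₁
        convert h5 _ (a.RJ (mul_mem m1 (eR i)) hj) using 1
        rw [div_mul_eq_mul_div, div_eq_iff h6]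
        linear_combination (j * L * e i) * m2
    obtain ⟨m1, m2⟩ := a.jac (neg_mem h7)
    convert neg_mem (a.RJ (mul_mem (a.kR (kA c₁ h₁)) m2) h7) using 1
    have c0 : c₁ ≠ 0 := (hC (k1 h₁)).2
    have e1 : 1 + -(j / (j - c₁ * π)) = -(c₁ * π) / (j - c₁ * π) := by
      field_simp
      ring
    rw [e1]
    generalize j - c₁ * π = w at h6
    field_simp
  let Q : Subring E :=
    { carrier := {x | ∃ b, nz b ∧ b * x ∈ a.R}
      zero_mem' := ⟨1, nz1, by simp⟩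
      one_mem' := ⟨1, nz1, by simp⟩
      add_mem' := by
        rintro x y ⟨b, h1, h2⟩ ⟨c, k1, k2⟩
        refine ⟨_, nzm h1 k1, ?_⟩
        convert add_mem (mul_mem k1.1 h2) (mul_mem h1.1 k2) using 1
        ring
      mul_mem' := by
        rintro x y ⟨b, h1, h2⟩ ⟨c, k1, k2⟩
        exact ⟨_, nzm h1 k1, mul_mul_mul_comm b x c y ▸ mul_mem h2 k2⟩
      neg_mem' := by
        rintro x ⟨b, h1, h2⟩
        exact ⟨b, h1, by simpa using h2⟩ }
  have RQ : a.R ≤ Q := fun r hr => ⟨1, nz1, by simpa using hr⟩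
  have QJ : ∀ q ∈ Q, ∀ j ∈ a.J, q * j ∈ a.J := by
    rintro q ⟨b, h1, h2⟩ j hj
    convert dv _ (a.RJ h2 hj) b h1 using 1
    field_simp [nz0 h1]
  have iQ : ∀ {b}, nz b → b⁻¹ ∈ Q := fun {b} hb => ⟨b, hb, by simp [nz0 hb]⟩
  obtain ⟨i, hi⟩ : ∃ i, s * e i ∉ a.J := by
    by_contra q
    push Not at q
    exact sJ (mx s sR q)
  let τ := ∑ j ∈ univ.erase i, e j
  have τR : τ ∈ a.R := sum_mem fun j _ => eR j
  have τe : τ * e i ∈ a.J := by
    rw [sum_mul]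
    exact sum_mem fun j q => he.2 _ _ (mem_erase.1 q).1
  have ee : ∀ j, e j * e j ∉ a.J := fun j q => (he.1 j).2 (a.rad' X (eR j) q)
  have nzτ : ∀ x ∈ a.R, x * e i ∉ a.J → nz (x * e i + τ) := fun x hx q =>
    nze _ (add_mem (mul_mem hx (eR i)) τR) fun j q' => by
      by_cases q'' : j = i
      · subst q''
        exact ee j (pr j x hx _ (eR j) (by simpa [add_mul] using sub_mem q' τe) q)
      · refine ee j ?_
        have h1 : ∑ l ∈ (univ.erase i).erase j, e l * e j ∈ a.J :=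
          sum_mem fun l q => he.2 _ _ (mem_erase.1 q).1
        convert sub_mem (sub_mem q' (a.RJ hx (he.2 i j (Ne.symm q'')))) h1 using 1
        simp only [τ]
        rw [← add_sum_erase _ _ (show j ∈ univ.erase i by simpa using q''), ← sum_mul]
        ring
  have hσ := nzτ 1 (one_mem _) (by simpa using (he.1 i).2)
  rw [one_mul] at hσ
  have σ0 := nz0 hσ
  have hε : ∀ x, e i / (e i + τ) * x ∈ a.J ↔ x * e i ∈ a.J := fun x =>
    ⟨fun q => by
      convert a.RJ hσ.1 q using 1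
      field_simp, fun q => by
      convert dv _ q _ hσ using 1
      ring⟩
  refine ⟨M, a, Q, e i / (e i + τ), s * e i, RQ, QJ, div_eq_mul_inv (e i) _ ▸
    mul_mem (RQ (eR i)) (iQ hσ), ?_, mt (hε s).1 hi, ?_, ?_, fun r hr => (hε r).trans
      ⟨fun q => a.JM ?_, fun q => pr i s sR r hr ?_ hi⟩⟩
  · convert dv _ (neg_mem τe) _ (nzm hσ hσ) using 1
    field_simp
    ring
  · rintro x ⟨b, h1, h2⟩ q
    have h3 := nzτ _ h2 fun q' => q ((hε x).2 (by
      convert dv _ q' _ h1 using 1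
      field_simp [nz0 h1]))
    refine ⟨_, mul_mem (RQ (mul_mem h1.1 (eR i))) (iQ h3), (hε _).2 ?_⟩
    convert dv _ (neg_mem τe) _ h3 using 1
    have h4 := mul_inv_cancel₀ (nz0 h3)
    rw [div_eq_mul_inv]
    linear_combination e i * h4
  · rintro x ⟨b, h1, h2⟩
    exact ⟨b, h1.1, fun q => (he.1 i).2 (h1.2 _ (eR i) (mul_comm b _ ▸ (hε b).1 q)), h2⟩
  · convert a.RJ sR q using 1
    ring
  · convert a.MJ X hs (mul_mem (eR i) hr) (mul_assoc s _ _ ▸ q) using 1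
    ring

end Pool.Agent.MP_829a8f_lc.H20

end MrgPart1

-- ======== part 2: formerly Pool.Agent.MP_829a8f_lc.h20.Ind
section MrgPart2

/-!
Power-large fields and the residue field of the localisation.
-/

namespace Pool.Agent.MP_829a8f_lc.H20

open H33 Filter

/-- In a power-large field the roots can be taken close to one. -/
theorem ind {F : Type} [Field F] [Infinite F] (hF : PowerLarge F) {l : ℕ} (hl : l.Prime)
    (l0 : (l : F) ≠ 0) {ι : Type} [Finite ι] (O : ι → ValuationSubring F)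
    (hO : ∀ i, (l : F) ∉ (O i).nonunits) {b : F} (b0 : b ≠ 0) {A : Set F} (hA : A.Finite) :
    ∃ z : F, z ≠ 0 ∧ ∀ a ∈ A, ∃ y ∈ HH O b, 1 + a * z = y ^ l := by
  classical
  let O' : {i // O i ≠ ⊤} → ValuationSubring F := fun i => O i
  obtain ⟨π, π0, hπ⟩ : ∃ π : F, π ≠ 0 ∧ ∀ i, π ∈ (O' i).nonunits := by
    choose x hx using fun i : {i // O i ≠ ⊤} => exists_not_mem i.2
    obtain ⟨w, k1, -, k2⟩ := Gauge.exists_den O' (Set.finite_range x)
    exact ⟨w, k1, fun i => nu_of_mul (hx i) (mul_comm w _ ▸ k2 _ ⟨i, rfl⟩ i)⟩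
  obtain ⟨w, w0, w1, w2⟩ := Gauge.exists_den O' (Set.finite_singleton b)
  have hb0 : w * b * π ≠ 0 := mul_ne_zero (mul_ne_zero w0 b0) π0
  have hb : ∀ i, w * b * π ∈ (O' i).nonunits := fun i => nu_mul' (w2 b rfl i) (hπ i)
  have h1 : ∀ y ∈ HH O' (w * b * π), y ∈ HH O b := fun y hy => ⟨hy.1, fun i => by
    by_cases q : O i = ⊤
    · exact q ▸ trivial
    convert mul_mem (hy.2 ⟨i, q⟩) (mul_mem (w1 ⟨i, q⟩) (nu_le (hπ ⟨i, q⟩))) using 1
    field_simp⟩
  generalize w * b * π = β at hb0 hb h1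
  have hH := HH.mg hb0 hb
  have hP := mg_PW (F := F) l
  have nd : ∃ᶠ z in nb {x | ∃ y ∈ HH O' β, x = y ^ l}, z ≠ 0 := by
    refine nondiscrete (H := PW F l ∩ HH O' β) ⟨⟨hP.one, hH.one⟩, fun h h' =>
      ⟨hP.mul h.1 h'.1, hH.mul h.2 h'.2⟩, fun h => ⟨hP.inv h.1, hH.inv h.2⟩, fun h => h.1.1⟩
      ?_ fun G hG => ?_
    · choose κ hκ χ hχ using fun i => exists_col (O' i) hl.ne_zero
      choose! y hy using fun x (hx : x ∈ PW F l ∩ HH O' β) => hx.1.2
      refine ⟨∀ i, κ i, inferInstance, fun x i => χ i (y x), fun x hx x' hx' e => ?_⟩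
      have e3 : x / x' = (y x / y x') ^ l := by rw [div_pow, ← hy x hx, ← hy x' hx']
      refine ⟨_, HH.root (O := O') hl.ne_zero (fun i => hO i) (fun i => ?_)
        (e3 ▸ hH.div hx.2 hx'.2), e3⟩
      have k0 := HH.nu hb0 hb hx'.2 i
      obtain ⟨k1, k2⟩ := not_nu.1 (not_nu_of_sub one_nu k0)
      rw [hy x' hx'] at k0 k1 k2
      rw [div_sub_one (ne_zero_pow hl.ne_zero k1), div_eq_mul_inv]
      exact nu_mul (hχ i _ _ (hy x hx ▸ HH.nu hb0 hb hx.2 i) k0 (congrFun e i))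
        (mem_of_pow hl.ne_zero (by rwa [inv_pow]))
    obtain ⟨n, ⟨f⟩⟩ := Finite.exists_equiv_fin (Option {i // O i ≠ ⊤})
    let c : Option {i // O i ≠ ⊤} → F := fun k => Infinite.natEmbedding F (f k)
    have hc : Function.Injective c :=
      (Infinite.natEmbedding F).injective.comp (Fin.val_injective.comp f.injective)
    obtain ⟨ρ, k1, -, k2⟩ := Gauge.exists_den O' (Set.finite_range
      fun p : Option {i // O i ≠ ⊤} × Option {i // O i ≠ ⊤} => (c p.1 - c p.2)⁻¹)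
    obtain ⟨μ, m1, -, m2⟩ := Gauge.exists_den O' hG
    obtain ⟨u, u0, hu⟩ := hF l hl l0 ((Set.finite_range c).image2
      (fun x y => x + ρ * π * β * μ * y) (hG.insert 0)).toFinset
    have h2 : ∀ k, ∀ x ∈ insert 0 G, 1 + (c k + ρ * π * β * μ * x) * u ∈ PW F l := fun k x hx => by
      obtain ⟨y, y0, e⟩ := hu _ ((Set.Finite.mem_toFinset _).2 ⟨_, ⟨k, rfl⟩, x, hx, rfl⟩)
      exact ⟨e ▸ pow_ne_zero _ y0, y, e⟩
    obtain ⟨k, hk⟩ : ∃ k, ∀ i, (c k + u⁻¹) / (ρ * π) ∉ O' i := by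
      by_contra h
      push Not at h
      choose r hr using h
      cases nonempty_fintype {i // O i ≠ ⊤}
      obtain ⟨k, k', k3, k4⟩ := Fintype.exists_ne_map_eq_of_card_lt r (by simp)
      refine not_nu.2 ⟨π0, ?_⟩ (hπ (r k'))
      convert mul_mem (sub_mem (k4 ▸ hr k) (hr k')) (k2 _ ⟨(k, k'), rfl⟩ _) using 1
      have := sub_ne_zero.2 (hc.ne k3)
      field_simp
      ring
    have h3 := h2 k 0 (Or.inl rfl)
    rw [mul_zero, add_zero] at h3
    have h4 := h3.1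
    refine ⟨ρ * π * β * μ * u / (1 + c k * u), div_ne_zero (mul_ne_zero (mul_ne_zero (mul_ne_zero
      (mul_ne_zero k1 π0) hb0) m1) u0) h4, fun x hx => ?_⟩
    have h5 : 1 + ρ * π * β * μ * u / (1 + c k * u) * x ∈ PW F l := by
      convert hP.div (h2 k x (Or.inr hx)) h3 using 1
      rw [eq_div_iff h4, add_mul, mul_right_comm, div_mul_cancel₀ _ h4]
      ring
    refine ⟨h5, h5.1, fun i => ?_⟩
    convert mul_mem (((O' i).mem_or_inv_mem _).resolve_left (hk i)) (m2 x hx i) using 1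
    rw [show c k + u⁻¹ = (1 + c k * u) / u by field_simp; ring]
    field_simp
    ring
  obtain ⟨z, z0, hz⟩ := (nd.and_eventually ((eventually_all_finite hA).2 fun a _ => nb_ev a)).exists
  exact ⟨z, z0, fun a ha => (hz a ha).imp fun y hy => ⟨h1 y hy.1, hy.2⟩⟩

/-- A class of structures that is closed under interpretations and ultrapowers and whose infinite
members are power-large. -/
structure Cls where
  mem : ∀ {F : Type} [Field F], NS F → Prop
  interp : ∀ {F E ι : Type} [Field F] [Field E] [Finite ι] {S : NS F} (I : Interp S E ι),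
    mem S → mem I.ns
  up : ∀ {F : Type} [Field F] {S : NS F} (u : Ultrafilter F), mem S → mem (S.up u)
  pl : ∀ {F : Type} [Field F] [Infinite F] {S : NS F}, mem S → PowerLarge F

variable {E : Type} [Field E] {S : NS E} {ι : Type} [Finite ι] {C : Cls}

theorem Dt.nd2 (d : Dt S ι) [Infinite E] (hS : C.mem S) (hl : d.l.Prime) :
    ∃ᶠ z in nb d.T, z ≠ 0 := frequently_iff.2 fun {U} hU => by
  obtain ⟨A, hA, hU⟩ := nb_basis hU
  obtain ⟨z, z0, hz⟩ := ind (C.pl hS) hl d.l0 d.O d.hl d.b0 hA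
  refine ⟨z, hU z fun a ha => ?_, z0⟩
  obtain ⟨y, hy, e⟩ := hz a ha
  exact e ▸ d.pw y hy

lemma exists_quot {Q : Subring E} {J : AddSubgroup E} {ε : E} (QJ : ∀ q ∈ Q, ∀ j ∈ J, q * j ∈ J)
    (h1 : ε ∉ J) (h2 : ∀ x ∈ Q, ε * x ∉ J → ∃ y ∈ Q, ε * (x * y - 1) ∈ J) :
    ∃ (F : Type) (_ : Field F) (ψ : E → F), (∀ z, ∃ x ∈ Q, ψ x = z) ∧
      (∀ x ∈ Q, ψ x = 0 ↔ ε * x ∈ J) ∧ (∀ n : ℕ, ψ n = n) ∧
      (∀ {x y}, x ∈ Q → y ∈ Q → ψ (x + y) = ψ x + ψ y) ∧
      (∀ {x y}, x ∈ Q → y ∈ Q → ψ (x - y) = ψ x - ψ y) ∧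
      ∀ {x y}, x ∈ Q → y ∈ Q → ψ (x * y) = ψ x * ψ y := by
  classical
  let P : Ideal Q :=
    { carrier := {x | ε * x ∈ J}
      zero_mem' := by simp
      add_mem' := fun hx hy => by simpa [mul_add] using add_mem hx hy
      smul_mem' := fun c x hx => by simpa [mul_left_comm] using QJ _ c.2 _ hx }
  have : P.IsMaximal := Ideal.isMaximal_iff.2 ⟨fun q => h1 (by simpa [P] using q),
    fun I x hI hx hx' => by
      obtain ⟨y, k1, k2⟩ := h2 x x.2 hx
      simpa using sub_mem (I.mul_mem_right ⟨y, k1⟩ hx') (hI (show x * ⟨y, k1⟩ - 1 ∈ P from k2))⟩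
  refine ⟨Q ⧸ P, Ideal.Quotient.field P, fun x => if h : x ∈ Q then Ideal.Quotient.mk P ⟨x, h⟩
    else 0, fun z => ?_, fun x hx => ?_, fun n => ?_, fun hx hy => ?_, fun hx hy => ?_,
    fun hx hy => ?_⟩
  · obtain ⟨x, rfl⟩ := Ideal.Quotient.mk_surjective z
    exact ⟨x, x.2, dif_pos x.2⟩
  · simp only [dif_pos hx]
    exact Ideal.Quotient.eq_zero_iff_mem
  · simp only [dif_pos (natCast_mem Q n)]
    exact map_natCast (Ideal.Quotient.mk P) n
  · simp only [dif_pos hx, dif_pos hy, dif_pos (add_mem hx hy)]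
    rfl
  · simp only [dif_pos hx, dif_pos hy, dif_pos (sub_mem hx hy)]
    rfl
  · simp only [dif_pos hx, dif_pos hy, dif_pos (mul_mem hx hy)]
    rfl

/-- The key contradiction in the presence of an infinitesimal. -/
theorem Ctx.star {d : Dt S ι} {k : Subfield E} {V : Set E} (X : Ctx d k V) (hV : RG k V)
    (hS : C.mem S) (hl : d.l.Prime) {s : E} (hs : ∀ h ∈ k, h * s ∈ V)
    (h : ∀ C : Finset E, ↑C ⊆ (k : Set E) → ∃ x, ∀ c ∈ C, x ≠ c → s / (x - c) ∉ V) : False := by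
  obtain ⟨M, a, Q, ε, g, RQ, QJ, εQ, ε2, εs, inv, den, hg⟩ := X.exists_loc hV hs h
  have sR : s ∈ a.R := a.VR (by simpa using hs 1 (one_mem _))
  have εJ : ε ∉ a.J := fun q => εs (mul_comm s ε ▸ a.RJ sR q)
  obtain ⟨F, _, ψ, ψs, ψ0, ψn, ψa, ψd, ψm⟩ := exists_quot QJ εJ inv
  have kQ : ∀ {c}, c ∈ k → c ∈ Q := fun hc => RQ (a.kR hc)
  have ψ1 : ψ 1 = 1 := by simpa using ψn 1
  have ψk : ∀ {c}, c ∈ k → c ≠ 0 → ψ c ≠ 0 := fun {c} hc c0 q => εJ (by
    convert a.RJ (a.kR (inv_mem hc)) ((ψ0 c (kQ hc)).1 q) using 1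
    field_simp)
  have ψε : ψ ε = 1 := by
    rw [← sub_eq_zero, ← ψ1, ← ψd εQ (one_mem _), ψ0 _ (sub_mem εQ (one_mem _))]
    simpa [mul_sub] using ε2
  have ψp : ∀ {x}, x ∈ Q → ∀ n : ℕ, ψ (x ^ n) = ψ x ^ n := fun hx n => by
    induction n with
    | zero => simpa using ψ1
    | succ n ih => rw [pow_succ, pow_succ, ψm (pow_mem hx n) hx, ih]
  have := X.hk.to_subtype
  have : Infinite F := Infinite.of_injective (fun c : (k : Set E) => ψ c) fun c c' q => by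
    by_contra q'
    exact ψk (sub_mem c.2 c'.2) (sub_ne_zero.2 (mt Subtype.ext q'))
      ((ψd (kQ c.2) (kQ c'.2)).trans (sub_eq_zero.2 q))
  have R1 : ∀ {r}, (∀ m ∈ M, r * m ∈ M) → r ∈ a.R := fun q =>
    ⟨1, one_mem _, one_ne_zero, by simpa using q⟩
  have ψg : ∀ {r}, r ∈ a.R → (g * r ∈ M ↔ ψ r = 0) := fun hr =>
    (hg _ hr).symm.trans (ψ0 _ (RQ hr)).symm
  have dR : S.U {r | ∀ m ∈ M, r * m ∈ M} :=
    NS.all1 (P := fun v m => m ∈ M → v () * m ∈ M) (NS.imp (a.dM.app (NS.proj _))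
      (a.dM.app ((NS.proj _).mul (NS.proj _))))
  have dX : S.D fun w : Fin 2 → E =>
      (∀ m ∈ M, w 0 * m ∈ M) ∧ (∀ m ∈ M, w 1 * m ∈ M) ∧ g * w 1 ∉ M :=
    S.and (dR.app (NS.proj 0)) (S.and (dR.app (NS.proj 1))
      (S.not (a.dM.app ((NS.const _).mul (NS.proj 1)))))
  let I : Interp S F (Fin 2) :=
    { X := _
      π := fun w => ψ (w 0) / ψ (w 1)
      hX := dX
      surj := fun z => by
        obtain ⟨x, hx, rfl⟩ := ψs z
        obtain ⟨b, h1, h2, h3⟩ := den x hx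
        obtain ⟨t, k1, k2, k3⟩ := a.gm.abs hV (Set.toFinite {b * x, b}) (by
          rintro _ (rfl | rfl)
          exacts [h3, h1])
        have k4 : ψ (t * b) ≠ 0 := ψm (kQ k1) (RQ h1) ▸
          mul_ne_zero (ψk k1 k2) (mt (ψ0 b (RQ h1)).1 h2)
        refine ⟨![t * (b * x), t * b], ⟨k3 _ (by simp), k3 _ (by simp),
          mt (ψg (mul_mem (a.kR k1) h1)).1 k4⟩, ?_⟩
        change ψ (t * (b * x)) / ψ (t * b) = _
        rw [← mul_assoc, ψm (mul_mem (kQ k1) (RQ h1)) hx, mul_div_cancel_left₀ _ k4]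
      add := NS.congr (S.and (NS.all fun a : Fin 3 => S.re (fun i => (a, i)) dX) (a.dM.app
        ((NS.const g).mul ((((((NS.proj (0, 0)).mul (NS.proj (1, 1))).add ((NS.proj (0, 1)).mul
        (NS.proj (1, 0)))).mul (NS.proj (2, 1)))).sub ((NS.proj (2, 0)).mul
        ((NS.proj (0, 1)).mul (NS.proj (1, 1)))))))) fun w => and_congr_right fun q => by
          have h0 := fun i => R1 (q i).1
          have h1 := fun i => R1 (q i).2.1
          have h2 := fun i => mt (ψg (h1 i)).2 (q i).2.2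
          have h3 := mul_mem (h0 0) (h1 1)
          have h4 := mul_mem (h1 0) (h0 1)
          have h5 := mul_mem (h1 0) (h1 1)
          have h6 := mul_mem (add_mem h3 h4) (h1 2)
          have h7 := mul_mem (h0 2) h5
          rw [ψg (sub_mem h6 h7), ψd (RQ h6) (RQ h7), ψm (RQ (add_mem h3 h4)) (RQ (h1 2)),
            ψa (RQ h3) (RQ h4), ψm (RQ (h0 2)) (RQ h5), ψm (RQ (h0 0)) (RQ (h1 1)),
            ψm (RQ (h1 0)) (RQ (h0 1)), ψm (RQ (h1 0)) (RQ (h1 1)), sub_eq_zero,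
            div_add_div _ _ (h2 0) (h2 1), div_eq_div_iff (mul_ne_zero (h2 0) (h2 1)) (h2 2)]
      mul := NS.congr (S.and (NS.all fun a : Fin 3 => S.re (fun i => (a, i)) dX) (a.dM.app
        ((NS.const g).mul (((((NS.proj (0, 0)).mul (NS.proj (1, 0))).mul (NS.proj (2, 1)))).sub
        ((NS.proj (2, 0)).mul ((NS.proj (0, 1)).mul (NS.proj (1, 1))))))))
        fun w => and_congr_right fun q => by
          have h0 := fun i => R1 (q i).1
          have h1 := fun i => R1 (q i).2.1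
          have h2 := fun i => mt (ψg (h1 i)).2 (q i).2.2
          have h3 := mul_mem (h0 0) (h0 1)
          have h5 := mul_mem (h1 0) (h1 1)
          have h6 := mul_mem h3 (h1 2)
          have h7 := mul_mem (h0 2) h5
          rw [ψg (sub_mem h6 h7), ψd (RQ h6) (RQ h7), ψm (RQ h3) (RQ (h1 2)),
            ψm (RQ (h0 2)) (RQ h5), ψm (RQ (h0 0)) (RQ (h0 1)), ψm (RQ (h1 0)) (RQ (h1 1)),
            sub_eq_zero, div_mul_div_comm, div_eq_div_iff (mul_ne_zero (h2 0) (h2 1)) (h2 2)] }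
  have JO := fun {j} hj => a.JO X (j := j) hj
  have l0 := d.l0
  have εO : ∀ i, ε ∈ d.O i := fun i => by_contra fun q => by
    have k1 := (d.O i).inv_mem_nonunits_iff.2 (Or.inr q)
    have k2 : ε ≠ 0 := fun e => q (e ▸ zero_mem _)
    refine one_nu (O := d.O i) ?_
    convert add_mem k1 (nu_mul k1 (mul_mem (nu_le k1) (JO ε2 i))) using 1
    field_simp
    ring
  let O : ι → ValuationSubring F := fun i =>
    { carrier := {z | ∃ x ∈ Q, ψ x = z ∧ ε * x ∈ d.O i}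
      zero_mem' := ⟨0, zero_mem _, by simpa using ψn 0, by simp⟩
      one_mem' := ⟨1, one_mem _, ψ1, by simpa using εO i⟩
      add_mem' := by
        rintro _ _ ⟨x, h1, rfl, h2⟩ ⟨y, k1, rfl, k2⟩
        exact ⟨_, add_mem h1 k1, ψa h1 k1, mul_add ε x y ▸ add_mem h2 k2⟩
      mul_mem' := by
        rintro _ _ ⟨x, h1, rfl, h2⟩ ⟨y, k1, rfl, k2⟩
        refine ⟨_, mul_mem h1 k1, ψm h1 k1, ?_⟩
        convert sub_mem (mul_mem h2 k2) (JO (QJ _ (mul_mem h1 k1) _ ε2) i) using 1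
        ring
      neg_mem' := by
        rintro _ ⟨x, h1, rfl, h2⟩
        exact ⟨-x, neg_mem h1, by simpa [show ψ 0 = 0 by simpa using ψn 0] using ψd (zero_mem _) h1,
          by simpa using h2⟩
      mem_or_inv_mem' := fun z => by
        obtain ⟨x, h1, rfl⟩ := ψs z
        refine or_iff_not_imp_left.2 fun q => ?_
        have h2 : ε * x ∉ d.O i := fun q' => q ⟨x, h1, rfl, q'⟩
        obtain ⟨y, k1, k2⟩ := inv x h1 fun q' => h2 (JO q' i)
        have k3 := (ψ0 _ (sub_mem (mul_mem h1 k1) (one_mem _))).2 k2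
        rw [ψd (mul_mem h1 k1) (one_mem _), ψm h1 k1, ψ1, sub_eq_zero] at k3
        refine ⟨y, k1, eq_inv_of_mul_eq_one_right k3, ?_⟩
        have k4 : ε * x ≠ 0 := fun e => h2 (e ▸ zero_mem _)
        convert mul_mem (((d.O i).mem_or_inv_mem _).resolve_left h2)
          (mul_mem (εO i) (add_mem (JO k2 i) (εO i))) using 1
        rw [eq_inv_mul_iff_mul_eq₀ k4]
        ring }
  have kl := natCast_mem k d.l
  have kb := mul_mem X.ka X.kπ
  have l1 : (d.l : F) ≠ 0 := ψn d.l ▸ ψk kl l0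
  obtain ⟨A₀, hA₀, kA, hA'⟩ := X.hA
  obtain ⟨P, k1, k2, k3⟩ := a.iso
  obtain ⟨z', z0, hz⟩ := ind (C.pl (C.interp I hS)) hl l1 O (fun i => not_nu.2 ⟨l1, (d.l : E)⁻¹,
    kQ (inv_mem kl), eq_inv_of_mul_eq_one_right (by
      rw [← ψn, ← ψm (kQ kl) (kQ (inv_mem kl)), mul_inv_cancel₀ l0, ψ1]),
    mul_mem (εO i) (not_nu.1 (d.hl i)).2⟩) (ψk kb d.b0) (hA₀.image2 (fun c ρ => ψ (c * ρ)) k1)
  obtain ⟨z, zQ, rfl⟩ := ψs z'
  have zM : ε * z ∈ M := k3 _ fun ρ hρ => hA' _ fun c hc => by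
    obtain ⟨y', hy, e⟩ := hz _ ⟨c, hc, ρ, hρ, rfl⟩
    obtain ⟨ω, ωQ, hω⟩ := ψs ((y' - 1) / ψ (d.a * d.π))
    have cQ : c * ρ ∈ Q := mul_mem (kQ (kA hc)) (RQ (k2 ρ hρ))
    have b0 := d.b0
    have hT := d.pw
    have h0 : ∀ i, ε * ω ∈ d.O i := fun i => by
      obtain ⟨x, h1, h2, h3⟩ := hy.2 i
      have h4 := (ψ0 _ (sub_mem ωQ h1)).1 ((ψd ωQ h1).trans (sub_eq_zero.2 (hω.trans h2.symm)))
      simpa [mul_sub] using add_mem (JO h4 i) h3
    have h1 := ψk kb b0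
    replace hy := hy.1
    generalize d.a * d.π = β at *
    have h2 : β * (ε * ω) ∈ Q := mul_mem (kQ kb) (mul_mem εQ ωQ)
    have yQ : 1 + β * (ε * ω) ∈ Q := add_mem (one_mem _) h2
    have h3 : ψ (1 + β * (ε * ω)) = y' := by
      rw [ψa (one_mem _) h2, ψm (kQ kb) (mul_mem εQ ωQ), ψm εQ ωQ, ψ1, ψε, hω]
      field_simp
      ring
    obtain ⟨y, m1, m2⟩ := inv _ yQ (mt (ψ0 _ yQ).2 (h3 ▸ hy))
    obtain ⟨m3, m4⟩ := a.jac (sub_mem m2 (QJ _ (mul_mem (kQ kb) ωQ) _ ε2))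
    have h4 : (1 + β * (ε * ω)) * (ε * y + 1 - ε) = 1 + (ε * ((1 + β * (ε * ω)) * y - 1) -
      β * ω * (ε * ε - ε)) := by ring
    have h5 : 1 + β * (ε * ω) ≠ 0 := left_ne_zero_of_mul (h4 ▸ m3)
    have h6 : (1 + β * (ε * ω))⁻¹ ∈ Q := by
      convert mul_mem (sub_mem (add_mem (mul_mem εQ m1) (one_mem _)) εQ) (RQ m4) using 1
      rw [← h4, mul_inv_rev, mul_inv_cancel_left₀ (right_ne_zero_of_mul (h4 ▸ m3))]
    have h7 := hT _ ⟨h5, fun i => by simpa [b0] using h0 i⟩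
    have h8 := mul_geom_sum (1 + β * (ε * ω)) d.l
    have h9 : ∑ i ∈ Finset.range d.l, (1 + β * (ε * ω)) ^ i ∈ Q :=
      sum_mem fun i _ => pow_mem yQ i
    have h10 : 1 + c * ρ * (ε * z) ∈ Q := add_mem (one_mem _) (mul_mem cQ (mul_mem εQ zQ))
    have h11 := (ψ0 _ (sub_mem h10 (pow_mem yQ d.l))).1 (by
      rw [ψd h10 (pow_mem yQ _), ψp yQ, h3, ψa (one_mem _) (mul_mem cQ (mul_mem εQ zQ)),
        ψm cQ (mul_mem εQ zQ), ψm εQ zQ, ψε, ψ1, one_mul, e, sub_self])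
    have h12 := sub_mem h11 (QJ _ (sub_mem (mul_mem cQ zQ)
      (mul_mem (mul_mem (kQ kb) ωQ) h9)) _ ε2)
    convert d.hT.mul h7 (a.JT X (QJ _ (pow_mem h6 d.l) _ h12)) using 1
    rw [mul_add, ← mul_assoc ((1 + β * (ε * ω)) ^ d.l), ← mul_pow, mul_inv_cancel₀ h5, one_pow]
    linear_combination (1 - ε) * h8
  have h1 : s * (ε * z) ∈ a.J := fun t ht => mul_assoc t s _ ▸ a.gm.mul (hs t ht) zM
  have h2 := (ψ0 _ (mul_mem (RQ sR) zQ)).2 (mul_left_comm s ε z ▸ h1)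
  rw [ψm (RQ sR) zQ] at h2
  exact mul_ne_zero (mt (ψ0 s (RQ sR)).1 εs) z0 h2

end Pool.Agent.MP_829a8f_lc.H20

end MrgPart2

-- ======== part 3: formerly Pool.Agent.MP_829a8f_lc.h20.Red
section MrgPart3

/-!
Shelah's conjecture for classes of structures whose infinite members are power-large.
-/

namespace Pool.Agent.MP_829a8f_lc.H20

open H33 Filter

variable {C : Cls}

section

open IsLocalRing

theorem Cls.exists_ext {K : Type} [Field K] {S : NS K} (hS : C.mem S) (L : Type) [Field L] [Algebra K L]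
    [FiniteDimensional K L] : ∃ S' : NS L, C.mem S' ∧ (∀ D, S.U D → S'.U (algebraMap K L '' D)) ∧
      ∀ D, S'.U D → S.U (algebraMap K L ⁻¹' D) := by
  let v := Module.finBasis K L
  have e1 : ∀ (w : Fin (Module.finrank K L) → K) (c : K),
      algebraMap K L c = v.equivFun.symm w ↔ ∀ i, c * v.repr 1 i = w i := by
    intro w c
    rw [LinearEquiv.eq_symm_apply, Algebra.algebraMap_eq_smul_one, map_smul, funext_iff]
    rfl
  let I : Interp S L (Fin (Module.finrank K L)) :=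
    { X := fun _ => True
      π := v.equivFun.symm
      hX := NS.tru
      surj := fun y => ⟨v.equivFun y, trivial, v.equivFun.symm_apply_apply y⟩
      add := NS.congr (NS.all fun i => NS.eq ((NS.proj (0, i)).add (NS.proj (1, i)))
        (NS.proj (2, i))) fun w => by
          rw [← map_add, v.equivFun.symm.injective.eq_iff, funext_iff]
          exact and_iff_right fun _ => trivial
      mul := NS.congr (NS.all fun k => NS.eq (NS.Fn.sum Finset.univ fun i => NS.Fn.sum Finset.univ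
        fun j => ((NS.proj (0, i)).mul (NS.proj (1, j))).mul (NS.const (v.repr (v i * v j) k)))
        (NS.proj (2, k))) fun w => by
          rw [LinearEquiv.eq_symm_apply, funext_iff, and_iff_right fun _ => trivial]
          simp [Finset.sum_mul_sum, mul_assoc, mul_left_comm] }
  refine ⟨I.ns, C.interp I hS, fun D hD => I.U_iff.2 (NS.congr (NS.ex1 (P := fun w c => c ∈ D ∧
    ∀ i, c * v.repr 1 i = w i) (S.and (hD.app (NS.proj _)) (NS.all fun i => NS.eq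
      ((NS.proj _).mul (NS.const _)) (NS.proj _)))) fun w => ?_), fun D hD => NS.congr
      (NS.comp (g := fun i w => w () * v.repr 1 i) (I.U_iff.1 hD)
      fun i => (NS.proj _).mul (NS.const _)) fun w => ?_⟩
  · exact (and_iff_right trivial).trans (exists_congr fun c => and_congr_right fun _ => e1 w c)
  · rw [Set.mem_preimage, (e1 _ _).2 fun _ => rfl]
    exact (and_iff_right trivial).symm

theorem Cls.exists_res {L : Type} [Field L] {S : NS L} (hS : C.mem S) {W : ValuationSubring L} (hW : S.U W) :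
    ∃ S' : NS (ResidueField W), C.mem S' ∧
      ∀ D, S.U D → S'.U {z | ∃ x : W, (x : L) ∈ D ∧ residue W x = z} := by
  classical
  let π : (Unit → L) → ResidueField W := fun w => if h : w () ∈ W then residue W ⟨_, h⟩ else 0
  have hπ : ∀ (w : Unit → L) (h : w () ∈ W), π w = residue W ⟨_, h⟩ := fun w h => dif_pos h
  let I : Interp S (ResidueField W) Unit :=
    { X := fun w => w () ∈ W
      π := π
      hX := hW
      surj := fun y => by
        obtain ⟨x, rfl⟩ := residue_surjective y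
        exact ⟨fun _ => x, x.2, hπ (fun _ => x) x.2⟩
      add := NS.congr (S.and (NS.all fun a => hW.app (NS.proj (a, ()))) (hW.nu.app
        (((NS.proj (0, ())).add (NS.proj (1, ()))).sub (NS.proj (2, ()))))) fun w =>
          and_congr_right fun h => by
            rw [hπ (fun i => w (0, i)) (h 0), hπ (fun i => w (1, i)) (h 1),
              hπ (fun i => w (2, i)) (h 2), ← map_add, res_eq]
            rfl
      mul := NS.congr (S.and (NS.all fun a => hW.app (NS.proj (a, ()))) (hW.nu.app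
        (((NS.proj (0, ())).mul (NS.proj (1, ()))).sub (NS.proj (2, ()))))) fun w =>
          and_congr_right fun h => by
            rw [hπ (fun i => w (0, i)) (h 0), hπ (fun i => w (1, i)) (h 1),
              hπ (fun i => w (2, i)) (h 2), ← map_mul, res_eq]
            rfl }
  refine ⟨I.ns, C.interp I hS, fun D hD => I.U_iff.2 ?_⟩
  have h1 : S.D fun w : Unit → L => w () ∈ W ∧ ∃ x, x ∈ W ∧ x ∈ D ∧ x - w () ∈ W.nonunits :=
    S.and hW (NS.ex1 (P := fun w x => x ∈ W ∧ x ∈ D ∧ x - w () ∈ W.nonunits)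
      (S.and (hW.app (NS.proj _)) (S.and (hD.app (NS.proj _))
      (hW.nu.app ((NS.proj _).sub (NS.proj _))))))
  refine NS.congr h1 fun w => and_congr_right fun h => ?_
  change π w ∈ _ ↔ _
  rw [hπ w h]
  constructor
  · rintro ⟨x, k1, k2⟩
    exact ⟨x, x.2, k1, res_eq.1 k2⟩
  · rintro ⟨x, k1, k2, k3⟩
    exact ⟨⟨x, k1⟩, k2, res_eq.2 k3⟩

end

section

variable {F : Type} [Field F] {S : NS F} {ι : Type} [Finite ι]

theorem Cls.gauge [Infinite F] (d : Dt S ι) (hS : C.mem S) (hl : d.l.Prime) {q : F} (hq0 : q ≠ 0)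
    (hq : q ∉ d.T) :
    ∃ V, S.U V ∧ Gauge V ∧ ∃ c : F, c ≠ 0 ∧ ∀ x ∈ V, 1 + c * x ∈ d.T := by
  have nd := d.nd2 hS hl
  have dat : Dat S d.T := by
    refine ⟨d.hT, ⟨{z | 1 + z ∈ d.P ∧ z / (d.a * d.π) ∈ d.D ∧ 1 + z ≠ 0}, S.and
      (d.dP.app ((NS.const _).add (NS.proj _))) (S.and (d.dD.app ((NS.proj _).div (NS.const _)))
      (S.not (NS.eq ((NS.const _).add (NS.proj _)) (NS.const _)))), ?_,
      fun z hz => (d.hP _ ⟨hz.2.2, fun i => ?_⟩).1 hz.1⟩, ⟨q, hq0, hq⟩, nd, fun X hX =>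
      bstar d.hT d.hH d.TH d.dP d.hP (((lf_ne d.hT nd hq0 hq hX).bind fun Y hY =>
        d.lf nd ⟨hY.1, hY.2.1, le_rfl⟩).mono id ?_)⟩
    · filter_upwards [nb_ev 1, nb_ev d.a⁻¹] with z k1 k2
      rw [one_mul] at k1
      refine ⟨(d.hP _ (d.TH _ k1)).2 k1, ?_, d.hT.ne k1⟩
      convert d.h1 _ (d.TH _ k2).2 using 1
      field_simp [d.a0]
      ring
    · simpa using d.h2 _ hz.2.1 i
    · rintro y Z - ⟨Y, -, h1, h2, h3⟩
      exact h3 fun h => h2 (h1 h)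
  obtain ⟨V, h1, hV, h2, c, c0, hc⟩ := dat.gauge
  refine ⟨V, h1, ⟨hV.one, hV.neg, hV.mul, hV.add.imp fun _ => And.right,
    fun A hA => (hV.dir A hA fun _ _ => trivial).imp fun _ => And.right,
    hV.inv.imp fun _ => And.right, by_contra fun h => ?_⟩, c, c0, hc⟩
  push Not at h
  have : NeBot (⨅ a : F, 𝓟 {t | t ≠ 0 ∧ t * a ∈ V}) :=
    (hasBasis_iInf_principal_finite _).neBot_iff.2 fun {A} hA => by
      obtain ⟨t, -, h0, ht⟩ := hV.dir A hA fun _ _ => trivial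
      exact ⟨t, Set.mem_iInter₂.2 fun a ha => ⟨h0, ht a ha⟩⟩
  obtain ⟨u, hu'⟩ := Ultrafilter.exists_le (⨅ a : F, 𝓟 {t | t ≠ 0 ∧ t * a ∈ V})
  have hu : ∀ a, ∀ᶠ t in u, t ≠ 0 ∧ t * a ∈ V := fun a =>
    hu' (mem_iInf_of_mem a (mem_principal_self _))
  obtain ⟨A, hA, hA'⟩ := nb_basis h2
  refine Ctx.star (d := d.up u) (k := (H33.dg u).fieldRange)
    ⟨Set.infinite_range_of_injective (H33.dg u).injective, ⟨_, rfl⟩, ⟨_, rfl⟩, h1.up u,
      ⟨_, ⟨c, rfl⟩, (map_ne_zero _).2 c0, fun x hx => ?_⟩, _, hA.image (H33.dg u),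
      by rintro _ ⟨a, -, rfl⟩; exact ⟨a, rfl⟩, fun z hz => ?_⟩ hV.up (C.up u hS) hl
    (s := H33.cl u id) ?_ fun C hC => ?_
  · obtain ⟨x, rfl⟩ := H33.cl_surj x
    exact Eventually.mono hx fun t h => hc _ h
  · obtain ⟨z, rfl⟩ := H33.cl_surj z
    exact ((eventually_all_finite hA).2 fun a ha => hz _ ⟨a, ha, rfl⟩).mono fun t h => hA' _ h
  · rintro _ ⟨a, rfl⟩
    exact (hu a).mono fun t ht => (mul_comm t a ▸ ht.2 : a * t ∈ V)
  choose! y hy using fun t => h _ t (C.finite_toSet.preimage (H33.dg u).injective.injOn)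
  refine ⟨H33.cl u y, fun e he q => ?_⟩
  obtain ⟨e, rfl⟩ := hC he
  exact cl_not_st.2 (((hu 0).and (cl_ne.1 q)).mono fun t ht => hy t ht.1.1 e he ht.2)

end

section

variable {F : Type} [Field F] {S : NS F}

/-- Two valuation rings of a finite family whose intersection is definable up to scaling are
never independent. -/
theorem Cls.no_indep (hS : C.mem S) [Infinite F] {ι : Type} [Finite ι] (O : ι → ValuationSubring F)
    (hO : ∀ i, O i ≠ ⊤) {D : Set F} (hD : S.U D) {a : F} (ha : a ≠ 0)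
    (h1 : ∀ x, (∀ i, x ∈ O i) → a * x ∈ D) (h2 : ∀ x ∈ D, ∀ i, x ∈ O i) {l : ℕ} {ζ : F}
    (lp : l.Prime) (hζ : ζ ^ l = 1) (hζ1 : ζ ≠ 1) (hl : ∀ i, (l : F) ∉ (O i).nonunits)
    {i j : ι} (hij : ∀ z, ∃ w ∈ O i, z - w ∈ O j) : False := by
  obtain ⟨π, hπ0, hπ⟩ : ∃ π : F, π ≠ 0 ∧ ∀ i, π ∈ (O i).nonunits := by
    choose x hx using fun i => exists_not_mem (hO i)
    obtain ⟨w, k1, -, k2⟩ := Gauge.exists_den O (Set.finite_range x)
    exact ⟨w, k1, fun i => nu_of_mul (hx i) (mul_comm w _ ▸ k2 _ ⟨i, rfl⟩ i)⟩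
  have hb0 := mul_ne_zero ha hπ0
  have hb : ∀ i, a * π ∈ (O i).nonunits := fun i =>
    nu_mul' (h2 _ (by simpa using h1 1 fun i => one_mem _) i) (hπ i)
  have hH := HH.mg hb0 hb
  have hTH : ∀ x ∈ {x | ∃ y ∈ HH O (a * π), x = y ^ l}, x ∈ HH O (a * π) := by
    rintro _ ⟨y, hy, rfl⟩
    exact pow_mem (S := (⟨⟨_, hH.mul⟩, hH.one⟩ : Submonoid F)) hy l
  have l0 := (not_nu.1 (hl i)).1
  obtain ⟨V, -, hV, c, hc0, hc⟩ := Cls.gauge
    { O := O, D := D, a := a, π := π, l := l, T := {x | ∃ y ∈ HH O (a * π), x = y ^ l}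
      P := {x | ∃ y, (y - 1) / π ∈ D ∧ x = y ^ l}
      a0 := ha, π0 := hπ0, h1 := h1, h2 := h2, hπ := hπ, hl := hl, l0 := l0
      hT := ⟨⟨1, hH.one, (one_pow l).symm⟩,
        fun ⟨x, hx, e⟩ ⟨y, hy, e'⟩ => ⟨x * y, hH.mul hx hy, by rw [e, e', mul_pow]⟩,
        fun ⟨x, hx, e⟩ => ⟨x⁻¹, hH.inv hx, by rw [e, inv_pow]⟩, fun h => (hTH _ h).1⟩
      TH := hTH
      pw := fun y hy => ⟨y, hy, rfl⟩
      dD := hD
      dP := NS.ex1 (P := fun v y => (y - 1) / π ∈ D ∧ v () = y ^ l) (S.and (hD.app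
        (((NS.proj _).sub (NS.const _)).div (NS.const _))) (NS.eq (NS.proj _) ((NS.proj _).pow l)))
      hP := fun x hx => ⟨fun ⟨y, hy, e⟩ => ⟨y, HH.root (fun e => l0 (by simp [e])) hl
        (fun i => by simpa [hπ0] using nu_mul' (h2 _ hy i) (hπ i)) (e ▸ hx), e⟩,
        fun ⟨y, hy, e⟩ => ⟨y, by
          convert h1 _ hy.2 using 1
          field_simp, e⟩⟩ } hS lp hπ0 fun h =>
    not_nu_of_sub one_nu (HH.nu hb0 hb (hTH _ h) i) (hπ i)
  have k1 : ∀ i, ∀ x ∈ V, c / (a * π) * x ∈ O i := fun i x hx => by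
    convert (hTH _ (hc x hx)).2 i using 1
    ring
  obtain ⟨z, k2, k3, k4⟩ := hV.exists_root (hO i) (hO j) (div_ne_zero hc0 hb0) (k1 i) (k1 j) hij
    hζ c⁻¹
  obtain ⟨y, hy, e⟩ := hc _ k2
  rw [mul_inv_cancel_left₀ hc0, add_sub_cancel] at e
  have hH1 := HH.nu hb0 hb hy
  obtain ⟨k5, k6⟩ := not_nu.1 (not_nu_of_sub one_nu (hH1 i))
  have k7 : z / y = 1 := eq_one_of_nu (hl i) (by
    convert nu_mul (sub_mem k3 (hH1 i)) k6 using 1
    field_simp
    ring) (by rw [div_pow, e, div_self (pow_ne_zero _ k5)])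
  rw [div_eq_one_iff_eq k5] at k7
  exact hζ1 (eq_one_of_nu (hl j) (by simpa [k7] using sub_mem (hH1 j) k4) hζ)

/-- The topology of the group of powers is a definable V-topology. -/
theorem Cls.exists_vgauge (hS : C.mem S) [Infinite F] {l : ℕ} {q ζ : F} (hq0 : q ≠ 0)
    (hq : q ∉ PW F l) (lp : l.Prime) (hζ : ζ ^ l = 1) (hζ1 : ζ ≠ 1) (hl : (l : F) ≠ 0) : ∃ V, S.U V ∧ Gauge V ∧
      (∃ c : F, c ≠ 0 ∧ ∀ x ∈ V, 1 + c * x ∈ PW F l) ∧
      ∃ g : F, g ≠ 0 ∧ ∀ x, x ∈ V ∨ g * x⁻¹ ∈ V := by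
  obtain ⟨V, h1, hV, h2⟩ := Cls.gauge (ι := Empty)
    { O := Empty.elim, D := Set.univ, a := 1, π := 1, l := l, T := PW F l, P := PW F l
      a0 := one_ne_zero, π0 := one_ne_zero, h1 := fun _ _ => trivial, h2 := fun _ _ i => i.elim
      hπ := fun i => i.elim, hl := fun i => i.elim, l0 := hl, hT := mg_PW l
      TH := fun _ h => ⟨h.1, fun i => i.elim⟩
      pw := fun y hy => ⟨pow_ne_zero _ hy.1, y, rfl⟩
      dD := NS.tru, dP := U_PW S l, hP := fun _ _ => Iff.rfl } hS lp hq0 hq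
  refine ⟨V, h1, hV, h2, ?_⟩
  obtain ⟨u, hu⟩ := hV.exists_uf
  obtain ⟨ι, _, O, hO⟩ := hV.exists_places (u := u)
  refine (hV.dichotomy hu hO).resolve_right fun hI => ?_
  have := Infinite.of_injective _ (H33.dg u).injective
  have h3 : H33.cl u id ≠ 0 := cl_ne.2 ((hu 0).mono fun t h => h.1)
  have h4 := (hV.small_iff hu hO (H33.cl u id)).1 fun h =>
    (hu h).mono fun t ht => (mul_comm t h ▸ ht.2 : h * t ∈ V)
  have h5 : ∀ x, (∀ i, x ∈ O i) → H33.cl u id * x ∈ st u V := fun x hx => by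
    have h5 := (hV.small_iff hu hO _).2 (fun i => nu_mul (h4 i) (hx i)) 1
    rwa [map_one, one_mul] at h5
  have h6 : ∀ x ∈ st u V, ∀ i, x ∈ O i := fun x hx => (hO.mem _).1 (hV.st_mem hx)
  obtain ⟨i, j, hij⟩ := hI.indep
  refine Cls.no_indep (C.up u hS) O (fun i h => not_nu.2 ⟨h3, h ▸ trivial⟩ (h4 i)) (h1.up u) h3
    h5 h6 (ζ := H33.dg u ζ) lp
    (by rw [← map_pow, hζ, map_one]) (fun h => hζ1 ((H33.dg u).injective (h.trans (map_one _).symm)))
    (fun i => ?_) hij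
  rw [← map_natCast (H33.dg u)]
  exact not_nu.2 ⟨(map_ne_zero _).2 hl, map_inv₀ (H33.dg u) _ ▸ (hO.mem _).1 (hV.dg_mem _) i⟩

end

open IsLocalRing Polynomial Finset IntermediateField

variable {K L : Type} [Field K] [Field L]

theorem Cls.no_incomp {S : NS L} (hS : C.mem S) (O : Bool → ValuationSubring L) (hO : ∀ b, ¬ O (!b) ≤ O b)
    (R : Bool → Set L) (hR : ∀ b, S.U (R b)) {a : L} (ha : a ≠ 0) (h1 : ∀ b, ∀ x ∈ O b, x ∈ R b)
    (h2 : ∀ b, ∀ x ∈ R b, a * x ∈ O b) (h3 : ∀ W, (∀ b, O b ≤ W) → a⁻¹ ∈ W) {l : ℕ} {ζ : L}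
    (lp : l.Prime) (hζ : ζ ^ l = 1) (hζ1 : ζ ≠ 1) (hl : ∀ b, (l : L) ∉ (O b).nonunits) : False := by
  let W := sumV (O true) (O false)
  have hW : ∀ b, O b ≤ W := Bool.forall_bool.2
    ⟨fun x hx => ⟨0, zero_mem _, by simpa using hx⟩, fun x hx => ⟨x, hx, by simp⟩⟩
  have hl0 : l ≠ 0 := fun h => hl true (by simp [h])
  have h4 : ∀ b, ∀ x ∈ R b, x ∈ W := fun b x hx => by
    simpa [ha] using mul_mem (h3 W hW) (hW b (h2 b x hx))
  have hWd : S.U W := NS.congr (NS.ex1 (P := fun v y => y ∈ R true ∧ v () - y ∈ R false)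
    (S.and ((hR _).app (NS.proj _)) ((hR _).app ((NS.proj _).sub (NS.proj _))))) fun v =>
      ⟨fun ⟨w, k1, k2⟩ => ⟨w, h1 _ _ k1, h1 _ _ k2⟩, fun ⟨w, k1, k2⟩ => by
        simpa using add_mem (h4 _ _ k2) (h4 _ _ k1)⟩
  obtain ⟨S', hs, hS'⟩ := Cls.exists_res hS hWd
  have haW : a ∈ W := by simpa using hW _ (h2 true 1 (h1 _ _ (one_mem _)))
  have hζW : ζ ∈ W := mem_of_pow hl0 (hζ ▸ one_mem W)
  have hlW : (l : L) ∉ W.nonunits :=
    mt (ValuationSubring.nonunits_le_nonunits.2 (hW true) ·) (hl true)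
  have h5 : ∀ b, resV W (O b) (hW b) ≠ ⊤ := fun b e =>
    hO b fun x hx => (mem_resV (h := hW b) (x := ⟨x, hW _ hx⟩)).1 (by rw [e]; trivial)
  have := infinite_of_ne_top (h5 true)
  refine Cls.no_indep hs (fun b => resV W (O b) (hW b)) h5 (hS' {x | ∀ b, x / a ∈ R b}
    (NS.all fun b => (hR b).app ((NS.proj _).div (NS.const _)))) (a := residue W ⟨a, haW⟩)
    (res_ne.2 (not_nu.2 ⟨ha, h3 W hW⟩)) (fun z hz => ?_) ?_ (ζ := residue W ⟨ζ, hζW⟩) lp ?_
    (fun e => ?_) (fun b => ?_) (l := l) (i := true) (j := false) fun z => ?_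
  · obtain ⟨x, rfl⟩ := residue_surjective z
    exact ⟨⟨a, haW⟩ * x, fun b => by simpa [ha] using h1 b _ (mem_resV.1 (hz b)), map_mul _ _ _⟩
  · rintro _ ⟨x, hx, rfl⟩ b
    exact mem_resV.2 (by simpa [mul_div_cancel₀ _ ha] using h2 b _ (hx b))
  · rw [← map_pow, ← map_one (residue W)]
    exact congrArg _ (Subtype.ext hζ)
  · exact hζ1 (eq_one_of_nu hlW (res_eq.1 (e.trans (map_one _).symm)) hζ)
  · obtain ⟨k1, k2⟩ := not_nu.1 (hl b)
    rw [← map_natCast (residue W)]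
    refine not_nu.2 ⟨res_ne.2 (by simpa using hlW), ⟨_, hW b k2⟩, k2,
      eq_inv_of_mul_eq_one_left ?_⟩
    rw [← map_mul, ← map_one (residue W)]
    exact congrArg _ (Subtype.ext (by simpa using inv_mul_cancel₀ k1))
  · obtain ⟨x, rfl⟩ := residue_surjective z
    obtain ⟨w, k1, k2⟩ := x.2
    exact ⟨residue W ⟨w, hW _ k1⟩, mem_resV.2 k1, by rw [← map_sub]; exact mem_resV.2 k2⟩

/-- Uniqueness of the extension. -/
theorem Cls.uniq_ext [Algebra K L] {O : ValuationSubring K} {S : NS K} (hS : C.mem S)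
    [FiniteDimensional K L] {D : Set K} (hD : S.U D) {a : K} (ha : a ≠ 0)
    (h1 : ∀ x ∈ O, a * x ∈ D) (h2 : ∀ x ∈ D, x ∈ O) (rad : ∀ y ∈ O.nonunits, ∃ k, y ^ k / a ∈ O)
    {l : ℕ} {ζ : L} (lp : l.Prime) (hζ : ζ ^ l = 1) (hζ1 : ζ ≠ 1) (hl : (l : K) ∉ O.nonunits)
    {W₁ W₂ : ValuationSubring L}
    (k₁ : W₁.comap (algebraMap K L) = O) (k₂ : W₂.comap (algebraMap K L) = O) : W₁ = W₂ := by
  classical
  by_contra hne
  obtain ⟨S', hs, hS', -⟩ := Cls.exists_ext hS L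
  let ι := {W : ValuationSubring L // W.comap (algebraMap K L) = O}
  have : Finite ι := finite_over
  cases nonempty_fintype ι
  have ha' : algebraMap K L a ≠ 0 := (_root_.map_ne_zero _).2 ha
  have haO : a ∈ O := by simpa using h2 _ (h1 1 (one_mem O))
  generalize hA : algebraMap K L a = A at ha'
  have hAW : ∀ i : ι, A ∈ i.1 := fun i => hA ▸ (over_mem i.2).2 haO
  have hinc : ∀ i j : ι, i ≠ j → ¬ i.1 ≤ j.1 := fun i j hij h =>
    hij (Subtype.ext (over_eq i.2 j.2 h))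
  have hun : ∀ i j : ι, i ≠ j → ∀ W, i.1 ≤ W → j.1 ≤ W → A⁻¹ ∈ W := by
    intro i j hij W hi hj
    obtain ⟨x, hx, hx'⟩ := SetLike.not_le_iff_exists.1 (hinc i j hij)
    obtain ⟨N, c, hc, w, hw, e, -⟩ := exists_pow j.2 (Algebra.IsIntegral.isIntegral x⁻¹)
      (j.1.inv_mem_nonunits_iff.2 (Or.inr hx'))
    obtain ⟨k, hk⟩ := rad c hc
    have h0 : x ≠ 0 := fun h => hx' (h ▸ zero_mem _)
    convert mul_mem (pow_mem (mul_mem (hj hw) (pow_mem (hi hx) N)) k)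
      (hj ((over_mem j.2).2 hk)) using 1
    rw [map_div₀, map_pow, hA, mul_div_assoc', ← mul_pow, mul_right_comm, mul_comm w, ← e,
      ← mul_pow, inv_mul_cancel₀ h0, one_pow, one_pow, one_div]
  let n := Module.finrank K L
  let E : Set L := {x | ∃ c : Fin n → L, (∀ i, c i ∈ algebraMap K L '' D) ∧
    (A * x) ^ n + ∑ i, c i * (A * x) ^ (i : ℕ) = 0}
  have hE : S'.U E := NS.ex' (P := fun v (c : Fin n → L) => (∀ i, c i ∈ algebraMap K L '' D) ∧
    (A * v ()) ^ n + ∑ i, c i * (A * v ()) ^ (i : ℕ) = 0) (S'.and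
    (NS.all fun i => (hS' D hD).app (NS.proj _)) (NS.eq ((((NS.const _).mul (NS.proj _)).pow _).add
      (NS.Fn.sum _ fun i => (NS.proj _).mul (((NS.const _).mul (NS.proj _)).pow _))) (NS.const _)))
  have hE1 : ∀ x, (∀ i : ι, x ∈ i.1) → x ∈ E := by
    intro x hx
    have hi : IsIntegral O x := by
      by_contra h
      obtain ⟨W, k, k'⟩ := exists_over h
      exact k' (hx ⟨W, k⟩)
    have hd : (minpoly O x).natDegree ≤ n := by
      rw [← (minpoly.monic hi).natDegree_map (algebraMap O K),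
        ← minpoly.isIntegrallyClosed_eq_field_fractions' K hi]
      exact minpoly.natDegree_le x
    let p := minpoly O x * X ^ (n - (minpoly O x).natDegree)
    have hp : p.Monic := (minpoly.monic hi).mul (monic_X_pow _)
    have hpd : p.natDegree = n := by
      rw [(minpoly.monic hi).natDegree_mul (monic_X_pow _), natDegree_X_pow]
      omega
    have h3 : aeval x p = 0 := by simp [p]
    rw [aeval_eq_sum_range, sum_range_succ, hp.coeff_natDegree, hpd, sum_range, one_smul] at h3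
    refine ⟨fun i => algebraMap K L (a * (a ^ (n - i - 1) * p.coeff i)),
      fun i => ⟨_, h1 _ (mul_mem (pow_mem haO _) (p.coeff i).2), rfl⟩, ?_⟩
    rw [← mul_zero (A ^ n), ← h3, mul_add, mul_sum, add_comm, mul_pow]
    congr 1
    refine sum_congr rfl fun i _ => ?_
    have e : A ^ n = A * A ^ (n - i - 1) * A ^ (i : ℕ) := by
      rw [← pow_succ', ← pow_add]
      congr 1
      omega
    beta_reduce
    rw [e, map_mul, map_mul, map_pow, hA, Algebra.smul_def,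
      IsScalarTower.algebraMap_apply O K L, ValuationSubring.algebraMap_apply]
    ring
  have hE2 : ∀ x ∈ E, ∀ i : ι, A * x ∈ i.1 := by
    rintro x ⟨c, hc, e⟩ j
    by_contra h
    generalize A * x = y at e h
    have h0 : y ≠ 0 := fun e => h (e ▸ zero_mem _)
    have h3 := j.1.inv_mem_nonunits_iff.2 (Or.inr h)
    have h4 : ∑ i : Fin n, c i * (y⁻¹ ^ (n - i - 1) * y⁻¹) = -1 := by
      refine mul_left_cancel₀ (pow_ne_zero n h0) ?_
      rw [mul_neg, mul_one, neg_eq_of_add_eq_zero_right e, mul_sum]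
      refine sum_congr rfl fun i _ => ?_
      have e : y ^ n = y ^ (n - i - 1) * y * y ^ (i : ℕ) := by
        rw [← pow_succ, ← pow_add]
        congr 1
        omega
      rw [e, inv_pow]
      field_simp
    refine one_nu (O := j.1) (neg_mem_iff.1 (h4 ▸ sum_mem fun i _ => nu_mul' ?_
      (nu_mul' (pow_mem (nu_le h3) _) h3)))
    obtain ⟨d, hd, e⟩ := hc i
    exact e ▸ (over_mem j.2).2 (h2 d hd)
  choose e he using fun J : Set ι => approx (fun i : ι => i.1) (fun _ => A) (fun _ => ha') hAW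
    hinc (fun i j hij => hun i j hij _ le_sup_left le_sup_right)
    (fun i => if i ∈ J then 1 else 0) fun i => by split_ifs <;> simp
  have he' : ∀ J (i : ι), (e J - if i ∈ J then 1 else 0) / A ∈ i.1.nonunits := fun J i => by
    rw [ValuationSubring.mem_nonunits_iff, map_div₀, div_lt_one₀ (by simpa [zero_lt_iff])]
    exact he J i
  have he'' : ∀ J (i : ι), (e J - if i ∈ J then 1 else 0) ∈ i.1.nonunits := fun J i => by
    simpa [ha'] using nu_mul (he' J i) (hAW i)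
  let W : Bool → ι := fun b => cond b ⟨W₁, k₁⟩ ⟨W₂, k₂⟩
  have hW : ∀ b, W (!b) ≠ W b := Bool.forall_bool.2
    ⟨fun h => hne (congrArg Subtype.val h), fun h => hne (congrArg Subtype.val h).symm⟩
  refine Cls.no_incomp hs (fun b => (W b).1) (fun b => hinc _ _ (hW b))
    (fun b => {x | ∃ J : {J : Set ι // W b ∉ J}, 1 + e J * x ≠ 0 ∧ x / (1 + e J * x) ∈ E})
    (fun b => NS.any fun J => S'.and (S'.not (NS.eq ((NS.const _).add
      ((NS.const _).mul (NS.proj _))) (NS.const _))) (hE.app ((NS.proj _).div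
      ((NS.const _).add ((NS.const _).mul (NS.proj _)))))) ha' (fun b x hx => ?_) ?_
    (fun V hV => hun _ _ (hW true) V (hV _) (hV _)) lp hζ hζ1
    (fun b => by rwa [← map_natCast (algebraMap K L), over_nu (W b).2])
  · have h3 : ∀ i : ι, x ∈ i.1 → 1 + e {i | x ∉ i.1} * x ∉ i.1.nonunits := fun i hi =>
      not_nu_of_sub one_nu (by simpa [hi] using nu_mul (he'' {i | x ∉ i.1} i) hi)
    refine ⟨⟨{i | x ∉ i.1}, not_not.2 hx⟩, (not_nu.1 (h3 _ hx)).1, hE1 _ fun i => ?_⟩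
    by_cases hi : x ∈ i.1
    · exact div_eq_mul_inv x _ ▸ mul_mem hi (not_nu.1 (h3 i hi)).2
    · have h0 : x ≠ 0 := fun e => hi (e ▸ zero_mem _)
      have h4 := (not_nu.1 (not_nu_of_sub (y := x⁻¹ + e {i | x ∉ i.1}) one_nu (by
        simpa [hi, add_sub_assoc] using add_mem (i.1.inv_mem_nonunits_iff.2 (Or.inr hi))
          (he'' {i | x ∉ i.1} i)))).2
      convert h4 using 1
      rw [← inv_div]
      congr 1
      field_simp
  · rintro b x ⟨⟨J, hJ⟩, h3, h4⟩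
    have h5 := hE2 _ h4 (W b)
    have h6 := nu_mul' h5 (he' J (W b))
    rw [if_neg hJ, sub_zero] at h6
    obtain ⟨h7, h8⟩ := not_nu.1 (not_nu_of_sub (y := 1 - A * (x / (1 + e J * x)) * (e J / A))
      one_nu (by simpa using neg_mem h6))
    convert mul_mem h5 h8 using 1
    rw [eq_mul_inv_iff_mul_eq₀ h7]
    simp only [mul_comm _ x] at h3 ⊢
    field_simp
    ring

/-- A proper group of powers gives a valuation ring that is definable up to scaling. -/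
theorem Cls.exists_sandwich {S : NS K} (hS : C.mem S) (L : Type) [Field L] [Algebra K L]
    [FiniteDimensional K L] [Infinite L] {l : ℕ} {q ζ : L} (hq0 : q ≠ 0) (hq : q ∉ PW L l)
    (lp : l.Prime) (hζ : ζ ^ l = 1) (hζ1 : ζ ≠ 1) (hl : (l : L) ≠ 0) (hn : -1 ∈ PW L l) :
    ∃ (O : ValuationSubring K) (D : Set K) (π : K), S.U D ∧ π ≠ 0 ∧ π ∈ O.nonunits ∧
      (∀ x ∈ O, π * x ∈ D) ∧ ∀ x ∈ D, x ∈ O := by
  obtain ⟨S', hs, -, hS'⟩ := Cls.exists_ext hS L
  obtain ⟨V, h1, hV, h2, h3⟩ := Cls.exists_vgauge hs hq0 hq lp hζ hζ1 hl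
  obtain ⟨W, h4, h5, t, ht, h6⟩ := hV.exists_val h3 (mg_PW l) h2 (Or.inl hn) hq0 hq
  obtain ⟨x, hx⟩ := exists_not_mem h4
  have h0 : x⁻¹ ≠ 0 := inv_ne_zero fun e => hx (e ▸ zero_mem W)
  have h7 := W.inv_mem_nonunits_iff.2 (Or.inr hx)
  have h8 : t ∈ W := h5 _ (by simpa using h6 1 (one_mem W))
  obtain ⟨N, c, hc, w, hw, e, hw'⟩ := exists_pow (K := K) rfl
    (Algebra.IsIntegral.isIntegral (t * x⁻¹)) (nu_mul' h8 h7)
  have h9 := e ▸ pow_ne_zero N (mul_ne_zero ht h0)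
  refine ⟨_, _, c, hS' V h1, fun h => h9 (by simp [h]), hc, fun y hy => ?_,
    fun y hy => h5 _ hy⟩
  cases N with
  | zero => exact absurd (e ▸ nu_mul ((over_nu rfl).2 hc) hw) (by simpa using one_nu)
  | succ N =>
    have := h6 _ (mul_mem (mul_mem (mul_mem (pow_mem (mul_mem h8 (nu_le h7)) N) (nu_le h7)) hw') hy)
    rw [Set.mem_preimage, map_mul, (eq_mul_inv_iff_mul_eq₀ (right_ne_zero_of_mul h9)).2 e.symm]
    convert this using 1
    ring

/-- A valuation ring that is definable up to scaling has a henselian coarsening. -/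
theorem Cls.henselian_of_sandwich {S : NS K} (hS : C.mem S)
    {O : ValuationSubring K} {D : Set K} {π : K} (hD : S.U D) (h0 : π ≠ 0) (h1 : π ∈ O.nonunits)
    (h2 : ∀ x ∈ O, π * x ∈ D) (h3 : ∀ x ∈ D, x ∈ O) :
    ∃ R : ValuationSubring K, R ≠ ⊤ ∧ HenselianLocalRing R := by
  have hπ := nu_le h1
  have k1 : O ≤ coarse O hπ := fun x hx k => mul_mem (pow_mem hx k) hπ
  have k2 : π⁻¹ ∉ coarse O hπ := fun h => not_nu.2 ⟨h0, by simpa [pow_two, h0] using h 2⟩ h1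
  have k3 : coarse O hπ ≠ ⊤ := fun h => k2 (h ▸ trivial)
  have k4 : ∀ y ∈ (coarse O hπ).nonunits, ∃ k, y ^ k / (π * π) ∈ coarse O hπ := by
    intro y hy
    rcases (coarse O hπ).mem_nonunits_iff_or.1 hy with h | h
    · exact ⟨1, by simp [h]⟩
    · obtain ⟨k, hk⟩ := not_forall.1 h
      have h4 : y ^ k / π ∈ O := by
        simpa [div_eq_inv_mul] using (O.mem_or_inv_mem _).resolve_left hk
      exact ⟨k + k, k1 (by rw [pow_add, ← div_mul_div_comm]; exact mul_mem h4 h4)⟩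
  have k5 : ∀ x ∈ coarse O hπ, π * π * x ∈ D := fun x hx => by
    rw [mul_assoc]
    exact h2 _ (by simpa [mul_comm] using hx 1)
  generalize coarse O hπ = R at *
  obtain ⟨r, hr, k6⟩ : ∃ r : ℕ, r.Prime ∧ (r : K) ∉ R.nonunits := by
    by_cases h : ((2 : ℕ) : K) ∈ R.nonunits
    · exact ⟨3, Nat.prime_three, fun h' => one_nu (O := R) (by
        convert sub_mem h' h using 1
        norm_num)⟩
    · exact ⟨2, Nat.prime_two, h⟩
  refine ⟨R, k3, henselian_of_uniq k3 fun x _ W W' hW hW' h => ?_⟩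
  have := NeZero.mk (not_nu.1 k6).1
  obtain ⟨ζ, hζ⟩ := HasEnoughRootsOfUnity.exists_primitiveRoot (AlgebraicClosure K) r
  have : FiniteDimensional K (adjoin K {x, ζ}) :=
    finiteDimensional_adjoin fun z _ => Algebra.IsIntegral.isIntegral z
  have h4 := Cls.uniq_ext hS hD (mul_ne_zero h0 h0) k5 (fun x hx => k1 (h3 x hx)) k4
    (ζ := (⟨ζ, subset_adjoin K _ (Or.inr rfl)⟩ : adjoin K {x, ζ})) hr (Subtype.ext hζ.pow_eq_one)
    (fun e => hζ.ne_one hr.one_lt (congrArg Subtype.val e)) k6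
    (W₁ := W.comap (algebraMap _ _)) (W₂ := W'.comap (algebraMap _ _)) hW hW'
  exact (SetLike.ext_iff.1 h4 ⟨x, subset_adjoin K _ (Or.inl rfl)⟩).1 h

theorem Cls.shelah {S : NS K} (hS : C.mem S) :
    Finite K ∨ IsSepClosed K ∨ Module.finrank K (AlgebraicClosure K) = 2 ∨
      ∃ R : ValuationSubring K, R ≠ ⊤ ∧ HenselianLocalRing R := by
  refine or_iff_not_imp_left.2 fun h1 => or_iff_not_imp_left.2 fun h2 =>
    or_iff_not_imp_left.2 fun h3 => ?_
  have := not_finite_iff_infinite.1 h1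
  obtain ⟨L, _, _, _, _, ⟨p, hp, ⟨h4, c, hc⟩ | ⟨h4, ζ, q, hζ, hζ1, h5, hq⟩⟩, i, hi⟩ :=
    exists_obst' K h2 h3
  all_goals have := Infinite.of_injective _ (algebraMap K L).injective
  · obtain ⟨S, -⟩ := H33.exists_ext S L
    exact absurd (as_closed S hp h4 c) (not_exists.2 hc)
  obtain ⟨O, D, π, k1, k2, k3, k4, k5⟩ := Cls.exists_sandwich hS L h5 (fun h => h.2.elim hq) hp hζ hζ1 h4
    ⟨neg_ne_zero.2 one_ne_zero, by
      rcases hp.eq_two_or_odd' with rfl | e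
      exacts [⟨i, hi.symm⟩, ⟨-1, e.neg_one_pow.symm⟩]⟩
  exact Cls.henselian_of_sandwich hS k1 k2 k3 k4 k5

end Pool.Agent.MP_829a8f_lc.H20

end MrgPart3

-- marker of a merged file
example : 731051 + 401438 = 731051 + 401438 := rfl
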